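import Mathlib.Algebra.MvPolynomial.PDeriv
import Mathlib.Algebra.MvPolynomial.Division
import Mathlib.RingTheory.MvPolynomial.Ideal
import Mathlib.RingTheory.MvPolynomial.Basic
import Mathlib.RingTheory.MvPolynomial.EulerIdentity
import Mathlib.RingTheory.Polynomial.UniqueFactorization
import Mathlib.Algebra.Algebra.Rat
import Mathlib.Tactic.LinearCombination
import Mathlib.Tactic.FinCases
import Mathlib.RingTheory.AlgebraicIndependent.TranscendenceBasis
import Mathlib.RingTheory.Nullstellensatz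
import Mathlib.FieldTheory.IsAlgClosed.AlgebraicClosure
import Mathlib.LinearAlgebra.Matrix.ToLinearEquiv
import Mathlib.Algebra.Algebra.Hom.Rat

-- ======== part 0: formerly Pool.Agent.MP_05b4bd_ag.hc.Basic
section MrgPart0

/-! Two-variable polynomials: order and degree filtrations, brackets, primitives, Koszul lemmas. -/

namespace Pool.Agent.MP_05b4bd_ag.HC

open MvPolynomial

abbrev R2 (A : Type*) [CommRing A] := MvPolynomial (Fin 2) A

noncomputable abbrev mm (A : Type*) [CommRing A] : Ideal (R2 A) := idealOfVars (Fin 2) A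

variable {A : Type*} [CommRing A]

noncomputable abbrev hc (n : ℕ) (u : R2 A) : R2 A := homogeneousComponent n u

/-- The vector field `P ∂x + Q ∂y` applied to `u`. -/
noncomputable def vf (P Q u : R2 A) : R2 A := P * pderiv 0 u + Q * pderiv 1 u

/-- The Poisson bracket. -/
noncomputable def br (u v : R2 A) : R2 A := pderiv 0 u * pderiv 1 v - pderiv 1 u * pderiv 0 v

/-- Degree less than `n`. -/
def DL (n : ℕ) (u : R2 A) : Prop := ∀ m : Fin 2 →₀ ℕ, n ≤ m.degree → coeff m u = 0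

/-- `b` lies in the image of the vector field up to any order. -/
def InIm (P Q b : R2 A) : Prop := ∀ N : ℕ, ∃ h : R2 A, b - vf P Q h ∈ mm A ^ N

/-- The vector field has first integrals of order exactly two up to any order. -/
def FI (P Q : R2 A) : Prop :=
  ∀ N : ℕ, ∃ I : R2 A, I ∈ mm A ^ 2 ∧ I ∉ mm A ^ 3 ∧ vf P Q I ∈ mm A ^ N

/-- The ideal generated by `a, b` contains powers of both variables. -/
def CI (a b : R2 A) : Prop :=
  ∃ M : ℕ, X 0 ^ M ∈ Ideal.span {a, b} ∧ X 1 ^ M ∈ Ideal.span {a, b}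

theorem deg2 (m : Fin 2 →₀ ℕ) : m.degree = m 0 + m 1 := by
  rw [Finsupp.degree_eq_sum]; simp [Fin.sum_univ_two]

theorem mem_mm {n : ℕ} {u : R2 A} : u ∈ mm A ^ n ↔ ∀ m : Fin 2 →₀ ℕ, m.degree < n → coeff m u = 0 :=
  mem_pow_idealOfVars_iff' n u

theorem mm_mul {a b : ℕ} {u v : R2 A} (hu : u ∈ mm A ^ a) (hv : v ∈ mm A ^ b) :
    u * v ∈ mm A ^ (a + b) := by
  rw [pow_add]; exact Ideal.mul_mem_mul hu hv

theorem mm_mono {a b : ℕ} {u : R2 A} (h : a ≤ b) (hu : u ∈ mm A ^ b) : u ∈ mm A ^ a :=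
  Ideal.pow_le_pow_right h hu

theorem mm_zero (u : R2 A) : u ∈ mm A ^ 0 := by simp

theorem mm_pow {a : ℕ} {u : R2 A} (hu : u ∈ mm A ^ a) (j : ℕ) : u ^ j ∈ mm A ^ (a * j) := by
  rw [pow_mul]; exact Ideal.pow_mem_pow hu j

theorem mm_pderiv {n : ℕ} {u : R2 A} (i : Fin 2) (hu : u ∈ mm A ^ (n + 1)) :
    pderiv i u ∈ mm A ^ n := by
  rw [mem_mm] at hu ⊢
  intro m hm
  rw [coeff_pderiv, hu, zero_mul]
  rw [map_add, Finsupp.degree_single]; omega

theorem mm_hom {n : ℕ} {u : R2 A} (hu : u.IsHomogeneous n) : u ∈ mm A ^ n :=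
  mem_mm.2 fun _ hm => hu.coeff_eq_zero hm.ne

theorem mm_X (i : Fin 2) : (X i : R2 A) ∈ mm A ^ 1 := mm_hom (isHomogeneous_X A i)

theorem mem_mm_one {u : R2 A} : u ∈ mm A ^ 1 ↔ coeff 0 u = 0 := by
  rw [mem_mm]
  refine ⟨fun h => h 0 (by simp), fun h m hm => ?_⟩
  have : m = 0 := by
    rw [← Finsupp.degree_eq_zero_iff]; omega
  rw [this, h]

theorem coeff_hc (n : ℕ) (u : R2 A) (m : Fin 2 →₀ ℕ) :
    coeff m (hc n u) = if m.degree = n then coeff m u else 0 := coeff_homogeneousComponent n u m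

theorem hc_hom (n : ℕ) (u : R2 A) : (hc n u).IsHomogeneous n := homogeneousComponent_isHomogeneous n u

theorem hc_self {n : ℕ} {u : R2 A} (h : u.IsHomogeneous n) : hc n u = u :=
  homogeneousComponent_eq_self h

theorem hc_ne {n k : ℕ} {u : R2 A} (h : u.IsHomogeneous n) (hk : k ≠ n) : hc k u = 0 := by
  simp [homogeneousComponent_of_mem h, hk]

theorem hc_add (n : ℕ) (u v : R2 A) : hc n (u + v) = hc n u + hc n v := map_add _ _ _
theorem hc_sub (n : ℕ) (u v : R2 A) : hc n (u - v) = hc n u - hc n v := map_sub _ _ _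
theorem hc_neg (n : ℕ) (u : R2 A) : hc n (-u) = -hc n u := map_neg _ _
theorem hc_C_mul (n : ℕ) (c : A) (u : R2 A) : hc n (C c * u) = C c * hc n u :=
  homogeneousComponent_C_mul u n c

theorem hc_of_mm {n k : ℕ} {u : R2 A} (hu : u ∈ mm A ^ k) (h : n < k) : hc n u = 0 := by
  ext m
  rw [coeff_hc]
  split_ifs with hm
  · exact mem_mm.1 hu m (by omega)
  · rfl

theorem sub_hc_mm {n : ℕ} {u : R2 A} (hu : u ∈ mm A ^ n) : u - hc n u ∈ mm A ^ (n + 1) := by
  rw [mem_mm] at hu ⊢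
  intro m hm
  rw [coeff_sub, coeff_hc]
  split_ifs with h
  · simp
  · rw [hu m (by omega)]; simp

theorem mm_succ {n : ℕ} {u : R2 A} (hu : u ∈ mm A ^ n) (h : hc n u = 0) : u ∈ mm A ^ (n + 1) := by
  simpa [h] using sub_hc_mm hu

theorem hc_pderiv (n : ℕ) (i : Fin 2) (u : R2 A) :
    hc n (pderiv i u) = pderiv i (hc (n + 1) u) := by
  ext m
  rw [coeff_hc, coeff_pderiv, coeff_pderiv, coeff_hc, map_add, Finsupp.degree_single]
  by_cases h : m.degree = n <;> simp [h]

theorem hc_mul_hom {e : ℕ} (n : ℕ) (u : R2 A) {v : R2 A} (hv : v.IsHomogeneous e) :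
    hc (n + e) (u * v) = hc n u * v := by
  classical
  ext m
  rw [coeff_hc, coeff_mul, coeff_mul]
  split_ifs with h
  · refine Finset.sum_congr rfl fun p hp => ?_
    rw [coeff_hc]
    split_ifs with h1
    · rfl
    · have := congrArg Finsupp.degree (Finset.mem_antidiagonal.1 hp)
      rw [map_add] at this
      rw [hv.coeff_eq_zero (by omega)]; simp
  · symm
    refine Finset.sum_eq_zero fun p hp => ?_
    rw [coeff_hc]
    split_ifs with h1
    · have := congrArg Finsupp.degree (Finset.mem_antidiagonal.1 hp)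
      rw [map_add] at this
      rw [hv.coeff_eq_zero (by omega)]; simp
    · simp

theorem hc_mul_low {a b : ℕ} {u v : R2 A} (hu : u ∈ mm A ^ a) (hv : v ∈ mm A ^ b) :
    hc (a + b) (u * v) = hc a u * hc b v := by
  have : u * v = u * hc b v + u * (v - hc b v) := by ring
  rw [this, hc_add, hc_mul_hom _ _ (hc_hom b v),
    hc_of_mm (mm_mul hu (sub_hc_mm hv)) (by omega), add_zero]

namespace DL

variable {n k : ℕ} {u v : R2 A}

theorem zero (n : ℕ) : DL n (0 : R2 A) := fun _ _ => rfl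
theorem add (hu : DL n u) (hv : DL n v) : DL n (u + v) := fun m hm => by
  rw [coeff_add, hu m hm, hv m hm, add_zero]
theorem neg (hu : DL n u) : DL n (-u) := fun m hm => by rw [coeff_neg, hu m hm, neg_zero]
theorem sub (hu : DL n u) (hv : DL n v) : DL n (u - v) := fun m hm => by
  rw [coeff_sub, hu m hm, hv m hm, sub_zero]
theorem mono (hu : DL n u) (h : n ≤ k) : DL k u := fun m hm => hu m (h.trans hm)
theorem C_mul (c : A) (hu : DL n u) : DL n (C c * u) := fun m hm => by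
  rw [coeff_C_mul, hu m hm, mul_zero]
theorem eq_zero (hu : DL 0 u) : u = 0 := by
  ext m; exact hu m (Nat.zero_le _)
theorem mul {a b : ℕ} (hu : DL (a + 1) u) (hv : DL b v) : DL (a + b) (u * v) := by
  classical
  intro m hm
  rw [coeff_mul]
  refine Finset.sum_eq_zero fun p hp => ?_
  have := congrArg Finsupp.degree (Finset.mem_antidiagonal.1 hp)
  rw [map_add] at this
  by_cases h : a + 1 ≤ p.1.degree
  · rw [hu _ h, zero_mul]
  · rw [hv p.2 (by omega), mul_zero]
theorem mul' {a b : ℕ} (hu : DL a u) (hv : DL (b + 1) v) : DL (a + b) (u * v) := by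
  rw [mul_comm, add_comm]; exact hv.mul hu
theorem pderiv (i : Fin 2) (hu : DL (n + 1) u) : DL n (MvPolynomial.pderiv i u) := by
  intro m hm
  rw [coeff_pderiv, hu, zero_mul]
  rw [map_add, Finsupp.degree_single]; omega
theorem of_hom (hu : u.IsHomogeneous n) : DL (n + 1) u := fun _ hm =>
  hu.coeff_eq_zero (by omega)
theorem hc_eq (hu : DL n u) (h : n ≤ k) : hc k u = 0 := by
  ext m
  rw [coeff_hc]
  split_ifs with hm
  · exact hu m (by omega)
  · rfl
theorem sub_hc (hu : DL (n + 1) u) : DL n (u - hc n u) := by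
  intro m hm
  rw [coeff_sub, coeff_hc]
  split_ifs with h
  · simp
  · rw [hu m (by omega)]; simp
theorem pred (hu : DL (n + 1) u) (h : hc n u = 0) : DL n u := by simpa [h] using hu.sub_hc
theorem sum {ι : Type*} (s : Finset ι) {g : ι → R2 A} (h : ∀ i ∈ s, DL n (g i)) :
    DL n (∑ i ∈ s, g i) := fun m hm => by
  rw [coeff_sum]; exact Finset.sum_eq_zero fun i hi => h i hi m hm
theorem pow {a : ℕ} (hu : DL (a + 1) u) (j : ℕ) : DL (a * j + 1) (u ^ j) := by
  induction j with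
  | zero => simpa using of_hom (isHomogeneous_one (Fin 2) A)
  | succ j ih =>
    rw [pow_succ]
    exact (ih.mul hu).mono (by rw [Nat.mul_succ]; omega)
theorem of_C_mul [NoZeroDivisors A] {c : A} (hc : c ≠ 0) (h : DL n (C c * u)) : DL n u :=
  fun m hm => by
    have := h m hm
    rw [coeff_C_mul] at this
    exact (mul_eq_zero.1 this).resolve_left hc

end DL

theorem DL_C (c : A) : DL 1 (C c : R2 A) := DL.of_hom (isHomogeneous_C _ c)
theorem DL_X (i : Fin 2) : DL 2 (X i : R2 A) := DL.of_hom (isHomogeneous_X A i)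

theorem DL_iff {n : ℕ} {u : R2 A} : DL (n + 1) u ↔ u.totalDegree ≤ n := by
  constructor
  · intro h
    refine Finset.sup_le fun m hm => ?_
    by_contra hc
    exact (mem_support_iff.1 hm) (h m (Nat.succ_le_of_lt (not_le.1 hc)))
  · intro h m hm
    exact coeff_eq_zero_of_totalDegree_lt (lt_of_le_of_lt h hm)

theorem exists_DL (u : R2 A) : ∃ n, DL n u := ⟨_, DL_iff.2 le_rfl⟩

theorem hc_mul_top {a b : ℕ} {u v : R2 A} (hu : DL (a + 1) u) (hv : DL (b + 1) v) :
    hc (a + b) (u * v) = hc a u * hc b v := by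
  have : u * v = u * hc b v + u * (v - hc b v) := by ring
  rw [this, hc_add, hc_mul_hom _ _ (hc_hom b v), (hu.mul hv.sub_hc).hc_eq le_rfl, add_zero]

theorem eq_zero_of_mm_DL {n : ℕ} {u : R2 A} (h1 : u ∈ mm A ^ n) (h2 : DL n u) : u = 0 := by
  ext m
  by_cases h : n ≤ m.degree
  · exact h2 m h
  · exact mem_mm.1 h1 m (by omega)

section Map
variable {B : Type*} [CommRing B] (φ : A →+* B)

theorem mm_map {n : ℕ} {u : R2 A} (hu : u ∈ mm A ^ n) : map φ u ∈ mm B ^ n :=
  mem_mm.2 fun m hm => by rw [coeff_map, mem_mm.1 hu m hm, map_zero]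

theorem mm_of_map (hφ : Function.Injective φ) {n : ℕ} {u : R2 A} (hu : map φ u ∈ mm B ^ n) :
    u ∈ mm A ^ n :=
  mem_mm.2 fun m hm => hφ (by rw [← coeff_map, mem_mm.1 hu m hm, map_zero])

theorem DL.map {n : ℕ} {u : R2 A} (hu : DL n u) : DL n (MvPolynomial.map φ u) := fun m hm => by
  rw [coeff_map, hu m hm, map_zero]

theorem hc_map (n : ℕ) (u : R2 A) : hc n (map φ u) = map φ (hc n u) := by
  ext m
  rw [coeff_map, coeff_hc, coeff_hc, coeff_map]
  split_ifs <;> simp

theorem map_vf (P Q u : R2 A) : map φ (vf P Q u) = vf (map φ P) (map φ Q) (map φ u) := by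
  simp [vf, pderiv_map]

theorem map_br (u v : R2 A) : map φ (br u v) = br (map φ u) (map φ v) := by
  simp [br, pderiv_map]

theorem CI.map {a b : R2 A} (h : CI a b) : CI (map φ a) (map φ b) := by
  obtain ⟨M, h0, h1⟩ := h
  refine ⟨M, ?_, ?_⟩
  · obtain ⟨s, t, e⟩ := Ideal.mem_span_pair.1 h0
    exact Ideal.mem_span_pair.2 ⟨MvPolynomial.map φ s, MvPolynomial.map φ t, by
      simpa using congrArg (MvPolynomial.map φ) e⟩
  · obtain ⟨s, t, e⟩ := Ideal.mem_span_pair.1 h1
    exact Ideal.mem_span_pair.2 ⟨MvPolynomial.map φ s, MvPolynomial.map φ t, by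
      simpa using congrArg (MvPolynomial.map φ) e⟩

end Map

theorem pderiv_comm (u : R2 A) : pderiv 1 (pderiv 0 u) = pderiv 0 (pderiv 1 u) := by
  ext m
  simp only [coeff_pderiv, Finsupp.add_apply]
  rw [add_right_comm m]
  simp
  ring

theorem euler {n : ℕ} {u : R2 A} (hu : u.IsHomogeneous n) :
    X 0 * pderiv 0 u + X 1 * pderiv 1 u = (n : R2 A) * u := by
  have := hu.sum_X_mul_pderiv
  rwa [Fin.sum_univ_two, nsmul_eq_mul] at this

theorem hom_pderiv {n : ℕ} {u : R2 A} (i : Fin 2) (hu : u.IsHomogeneous (n + 1)) :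
    (pderiv i u).IsHomogeneous n := by
  rw [← hc_self hu, ← hc_pderiv]; exact hc_hom _ _

theorem br_eq_vf (u f : R2 A) : br u f = vf (pderiv 1 f) (-pderiv 0 f) u := by
  simp only [br, vf]; ring

theorem vf_add (P Q u v : R2 A) : vf P Q (u + v) = vf P Q u + vf P Q v := by
  simp only [vf, map_add]; ring
theorem vf_sub (P Q u v : R2 A) : vf P Q (u - v) = vf P Q u - vf P Q v := by
  simp only [vf, map_sub]; ring
theorem vf_mul (P Q u v : R2 A) : vf P Q (u * v) = vf P Q u * v + u * vf P Q v := by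
  simp only [vf, pderiv_mul]; ring
theorem vf_C (P Q : R2 A) (c : A) : vf P Q (C c) = 0 := by simp [vf]
theorem vf_C_mul (P Q u : R2 A) (c : A) : vf P Q (C c * u) = C c * vf P Q u := by
  rw [vf_mul, vf_C]; ring
theorem vf_pow (P Q u : R2 A) (n : ℕ) : vf P Q (u ^ n) = n * u ^ (n - 1) * vf P Q u := by
  simp only [vf, pderiv_pow]; ring
theorem vf_mul_left (g P Q u : R2 A) : vf (g * P) (g * Q) u = g * vf P Q u := by
  simp only [vf]; ring
theorem vf_X0 (P Q : R2 A) : vf P Q (X 0) = P := by simp [vf]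
theorem vf_X1 (P Q : R2 A) : vf P Q (X 1) = Q := by simp [vf]

/-- The vector field as a linear map. -/
noncomputable def vfl (P Q : R2 A) : R2 A →ₗ[A] R2 A where
  toFun := vf P Q
  map_add' := vf_add P Q
  map_smul' c u := by simp only [smul_eq_C_mul, vf_C_mul, RingHom.id_apply]

theorem vfl_apply (P Q u : R2 A) : vfl P Q u = vf P Q u := rfl

theorem vf_mm {a n : ℕ} {P Q u : R2 A} (hP : P ∈ mm A ^ a) (hQ : Q ∈ mm A ^ a)
    (hu : u ∈ mm A ^ (n + 1)) : vf P Q u ∈ mm A ^ (a + n) :=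
  add_mem (mm_mul hP (mm_pderiv 0 hu)) (mm_mul hQ (mm_pderiv 1 hu))

theorem vf_DL {a n : ℕ} {P Q u : R2 A} (hP : DL (a + 1) P) (hQ : DL (a + 1) Q)
    (hu : DL (n + 1) u) : DL (a + n) (vf P Q u) :=
  (hP.mul (hu.pderiv 0)).add (hQ.mul (hu.pderiv 1))

theorem hc_vf_top {a n : ℕ} {P Q u : R2 A} (hP : DL (a + 1) P) (hQ : DL (a + 1) Q)
    (hu : DL (n + 2) u) : hc (a + n) (vf P Q u) = vf (hc a P) (hc a Q) (hc (n + 1) u) := by
  simp only [vf, hc_add]
  rw [hc_mul_top hP (hu.pderiv 0), hc_mul_top hQ (hu.pderiv 1), hc_pderiv, hc_pderiv]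

theorem hc_vf_low {a n : ℕ} {P Q u : R2 A} (hP : P ∈ mm A ^ a) (hQ : Q ∈ mm A ^ a)
    (hu : u ∈ mm A ^ (n + 1)) :
    hc (a + n) (vf P Q u) = vf (hc a P) (hc a Q) (hc (n + 1) u) := by
  simp only [vf, hc_add]
  rw [hc_mul_low hP (mm_pderiv 0 hu), hc_mul_low hQ (mm_pderiv 1 hu), hc_pderiv, hc_pderiv]

section Prim
variable [Algebra ℚ A]

/-- Primitive with respect to the variable `i`. -/
noncomputable def ad (i : Fin 2) : R2 A →ₗ[A] R2 A :=
  (basisMonomials (Fin 2) A).constr A fun m =>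
    monomial (m + Finsupp.single i 1) (algebraMap ℚ A (1 / ((m i : ℚ) + 1)))

theorem ad_monomial (i : Fin 2) (m : Fin 2 →₀ ℕ) (c : A) : ad i (monomial m c) =
    monomial (m + Finsupp.single i 1) (c * algebraMap ℚ A (1 / ((m i : ℚ) + 1))) := by
  have : (monomial m c : R2 A) = c • basisMonomials (Fin 2) A m := by
    simp [smul_monomial]
  rw [this, map_smul, ad, Module.Basis.constr_basis, smul_monomial, smul_eq_mul]

theorem pderiv_ad (i : Fin 2) (u : R2 A) : pderiv i (ad i u) = u := by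
  induction u using MvPolynomial.induction_on' with
  | add p q hp hq => rw [map_add, map_add, hp, hq]
  | monomial m c =>
    rw [ad_monomial, pderiv_monomial, add_tsub_cancel_right]
    congr 1
    have : ((m + Finsupp.single i 1 : Fin 2 →₀ ℕ) i : A) = algebraMap ℚ A ((m i : ℚ) + 1) := by simp
    rw [this, mul_assoc, ← map_mul, one_div_mul_cancel (by positivity), map_one, mul_one]

theorem pderiv_ad01 (u : R2 A) : pderiv 1 (ad 0 u) = ad 0 (pderiv 1 u) := by
  induction u using MvPolynomial.induction_on' with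
  | add p q hp hq => simp only [map_add, hp, hq]
  | monomial m c =>
    rw [ad_monomial, pderiv_monomial, pderiv_monomial, ad_monomial]
    have e : m + Finsupp.single 0 1 - Finsupp.single 1 1 =
        m - Finsupp.single 1 1 + Finsupp.single (0 : Fin 2) 1 := by
      ext j; fin_cases j <;> simp
    rw [e]
    congr 1
    simp
    ring

theorem ad_eq_sum (i : Fin 2) (u : R2 A) : ad i u = ∑ m ∈ u.support,
    monomial (m + Finsupp.single i 1) (coeff m u * algebraMap ℚ A (1 / ((m i : ℚ) + 1))) := by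
  conv_lhs => rw [u.as_sum]
  rw [map_sum]
  exact Finset.sum_congr rfl fun m _ => ad_monomial i m _

theorem ad_mm {n : ℕ} {u : R2 A} (i : Fin 2) (hu : u ∈ mm A ^ n) : ad i u ∈ mm A ^ (n + 1) := by
  rw [ad_eq_sum]
  refine Ideal.sum_mem _ fun m hm => mm_mono ?_ (mm_hom (isHomogeneous_monomial _ rfl))
  rw [map_add, Finsupp.degree_single]
  by_contra h
  exact mem_support_iff.1 hm (mem_mm.1 hu m (by omega))

theorem ad_DL {n : ℕ} {u : R2 A} (i : Fin 2) (hu : DL n u) : DL (n + 1) (ad i u) := by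
  rw [ad_eq_sum]
  refine DL.sum _ fun m hm => (DL.of_hom (isHomogeneous_monomial _ rfl)).mono ?_
  rw [map_add, Finsupp.degree_single]
  by_contra h
  exact mem_support_iff.1 hm (hu m (by omega))

/-- Potential of the field `a, b`: `a = g_y`, `b = -g_x` when the divergence vanishes. -/
noncomputable def pot (a b : R2 A) : R2 A := ad 1 a - ad 0 (b + pderiv 0 (ad 1 a))

theorem pot_x (a b : R2 A) : pderiv 0 (pot a b) = -b := by
  rw [pot, map_sub, pderiv_ad]; ring

theorem pot_y (a b : R2 A) : pderiv 1 (pot a b) = a - ad 0 (pderiv 0 a + pderiv 1 b) := by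
  rw [pot, map_sub, pderiv_ad, pderiv_ad01, map_add, pderiv_comm, pderiv_ad, add_comm]

theorem pot_mm (a b : R2 A) : pot a b ∈ mm A ^ 1 :=
  sub_mem (ad_mm 1 (mm_zero _)) (ad_mm 0 (mm_zero _))

theorem pot_DL {n : ℕ} {a b : R2 A} (ha : DL n a) (hb : DL n b) : DL (n + 1) (pot a b) :=
  (ad_DL 1 ha).sub (ad_DL 0 (hb.add ((ad_DL 1 ha).pderiv 0)))

end Prim

section Koszul
variable {K : Type*} [Field K]

theorem relPrime_X01 : IsRelPrime (X 0 : R2 K) (X 1) := by
  rw [(X_prime (R := K) (i := (0 : Fin 2))).irreducible.isRelPrime_iff_not_dvd]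
  simp

theorem CI.relPrime {a b : R2 K} (h : CI a b) : IsRelPrime a b := by
  obtain ⟨M, h0, h1⟩ := h
  intro g ha hb
  have key : ∀ u ∈ Ideal.span {a, b}, g ∣ u := fun u hu => by
    obtain ⟨s, t, rfl⟩ := Ideal.mem_span_pair.1 hu
    exact dvd_add (ha.mul_left _) (hb.mul_left _)
  exact (relPrime_X01.pow (m := M) (n := M)) (key _ h0) (key _ h1)

theorem CI.ne_zero {e : ℕ} {a b : R2 K} (h : CI a b) (hb : b.IsHomogeneous (e + 1)) : a ≠ 0 := by
  rintro rfl
  have hu : IsUnit b := h.relPrime (dvd_zero b) dvd_rfl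
  have h0 : coeff 0 b = 0 := hb.coeff_eq_zero (by simp)
  have := hu.map (constantCoeff (σ := Fin 2) (R := K))
  rw [constantCoeff_eq, h0] at this
  exact not_isUnit_zero this

theorem kos_hom {e n : ℕ} {a b U V : R2 K} (h : CI a b) (ha : a.IsHomogeneous (e + 1))
    (hb : b.IsHomogeneous (e + 1)) (hU : U.IsHomogeneous n) (hV : V.IsHomogeneous n)
    (hz : U * a + V * b = 0) :
    (U = 0 ∧ V = 0) ∨ ∃ j ν, n = j + (e + 1) ∧ ν.IsHomogeneous j ∧ U = ν * b ∧ V = -(ν * a) := by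
  have hd : a ∣ V * b := ⟨-U, by linear_combination hz⟩
  obtain ⟨w, hw⟩ := h.relPrime.dvd_of_dvd_mul_right hd
  have hUe : U = -w * b := by
    apply mul_left_cancel₀ (h.ne_zero hb)
    rw [hw] at hz
    linear_combination hz
  have hVe : V = w * a := by rw [hw, mul_comm]
  by_cases hn : e + 1 ≤ n
  · obtain ⟨j, rfl⟩ : ∃ j, n = j + (e + 1) := ⟨n - (e + 1), by omega⟩
    refine Or.inr ⟨j, -hc j w, rfl, (hc_hom j w).neg, ?_, ?_⟩
    · rw [← hc_self hU, hUe, hc_mul_hom _ _ hb, hc_neg]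
    · rw [← hc_self hV, hVe, hc_mul_hom _ _ ha]; ring
  · left
    constructor
    · rw [← hc_self hU, hUe]
      exact hc_of_mm (Ideal.mul_mem_left _ _ (mm_hom hb)) (by omega)
    · rw [← hc_self hV, hVe]
      exact hc_of_mm (Ideal.mul_mem_left _ _ (mm_hom ha)) (by omega)

/-- Koszul lemma up to a given order. -/
theorem kos_low {N : ℕ} {a b U V : R2 K} (ha : a ∈ mm K ^ 1) (hb : b ∈ mm K ^ 1)
    (h : CI (hc 1 a) (hc 1 b)) (hz : U * a + V * b ∈ mm K ^ (N + 1)) :
    ∃ μ, U - μ * b ∈ mm K ^ N ∧ V + μ * a ∈ mm K ^ N := by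
  suffices H : ∀ n, n ≤ N → ∃ μ, U - μ * b ∈ mm K ^ n ∧ V + μ * a ∈ mm K ^ n from H N le_rfl
  intro n
  induction n with
  | zero => exact fun _ => ⟨0, mm_zero _, mm_zero _⟩
  | succ n ih =>
    intro hn
    obtain ⟨μ, h1, h2⟩ := ih (by omega)
    have e : (U - μ * b) * a + (V + μ * a) * b = U * a + V * b := by ring
    have hz' := hc_of_mm hz (show n + 1 < N + 1 by omega)
    rw [← e, hc_add, hc_mul_low h1 ha, hc_mul_low h2 hb] at hz'
    rcases kos_hom (e := 0) h (hc_hom _ _) (hc_hom _ _) (hc_hom _ _) (hc_hom _ _) hz' with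
      ⟨e1, e2⟩ | ⟨j, ν, rfl, hν, e1, e2⟩
    · exact ⟨μ, mm_succ h1 e1, mm_succ h2 e2⟩
    · refine ⟨μ + ν, ?_, ?_⟩
      · have h3 : ν * b ∈ mm K ^ (j + (0 + 1)) := mm_mul (mm_hom hν) hb
        have : U - (μ + ν) * b = (U - μ * b) - ν * b := by ring
        rw [this]
        refine mm_succ (sub_mem h1 h3) ?_
        rw [hc_sub, e1, hc_mul_low (mm_hom hν) hb, hc_self hν, sub_self]
      · have h3 : ν * a ∈ mm K ^ (j + (0 + 1)) := mm_mul (mm_hom hν) ha
        have : V + (μ + ν) * a = (V + μ * a) + ν * a := by ring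
        rw [this]
        refine mm_succ (add_mem h2 h3) ?_
        rw [hc_add, e2, hc_mul_low (mm_hom hν) ha, hc_self hν, neg_add_cancel]

/-- Degree control in the ideal generated by `a, b`. -/
theorem kos_top {e n : ℕ} {a b : R2 K} (ha : DL (e + 2) a) (hb : DL (e + 2) b)
    (h : CI (hc (e + 1) a) (hc (e + 1) b)) (U V : R2 K) (hz : DL (n + (e + 1)) (U * a + V * b)) :
    ∃ U' V', DL n U' ∧ DL n V' ∧ U' * a + V' * b = U * a + V * b := by
  obtain ⟨k, hU, hV⟩ : ∃ k, DL k U ∧ DL k V := by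
    obtain ⟨k1, h1⟩ := exists_DL U
    obtain ⟨k2, h2⟩ := exists_DL V
    exact ⟨k1 + k2, h1.mono (by omega), h2.mono (by omega)⟩
  induction k generalizing U V with
  | zero => exact ⟨U, V, hU.mono (by omega), hV.mono (by omega), rfl⟩
  | succ k ih =>
    by_cases hk : k + 1 ≤ n
    · exact ⟨U, V, hU.mono hk, hV.mono hk, rfl⟩
    have hz' := hz.hc_eq (show n + (e + 1) ≤ k + (e + 1) by omega)
    rw [hc_add, hc_mul_top hU ha, hc_mul_top hV hb] at hz'
    rcases kos_hom h (hc_hom _ _) (hc_hom _ _) (hc_hom _ _) (hc_hom _ _) hz' with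
      ⟨e1, e2⟩ | ⟨j, ν, rfl, hν, e1, e2⟩
    · exact ih U V hz (hU.pred e1) (hV.pred e2)
    · have e : (U - ν * b) * a + (V + ν * a) * b = U * a + V * b := by ring
      rw [← e] at hz ⊢
      refine ih _ _ hz (DL.pred (hU.sub ((DL.of_hom hν).mul hb)) ?_)
        (DL.pred (hV.add ((DL.of_hom hν).mul ha)) ?_)
      · rw [hc_sub, e1, hc_mul_top (DL.of_hom hν) hb, hc_self hν, sub_self]
      · rw [hc_add, e2, hc_mul_top (DL.of_hom hν) ha, hc_self hν, neg_add_cancel]

/-- No syzygies in low degree. -/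
theorem kos_zero {e k : ℕ} {a b U V : R2 K} (ha : DL (e + 2) a) (hb : DL (e + 2) b)
    (h : CI (hc (e + 1) a) (hc (e + 1) b)) (hk : k ≤ e + 1) (hU : DL k U) (hV : DL k V)
    (hz : U * a + V * b = 0) : U = 0 ∧ V = 0 := by
  induction k with
  | zero => exact ⟨hU.eq_zero, hV.eq_zero⟩
  | succ k ih =>
    have hz' : hc (k + (e + 1)) (U * a + V * b) = 0 := by rw [hz]; exact map_zero _
    rw [hc_add, hc_mul_top hU ha, hc_mul_top hV hb] at hz'
    rcases kos_hom h (hc_hom _ _) (hc_hom _ _) (hc_hom _ _) (hc_hom _ _) hz' with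
      ⟨e1, e2⟩ | ⟨j, ν, e0, -⟩
    · exact ih (by omega) (hU.pred e1) (hV.pred e2)
    · omega

end Koszul

end Pool.Agent.MP_05b4bd_ag.HC

end MrgPart0

-- ======== part 1: formerly Pool.Agent.MP_05b4bd_ag.hc.Lin
section MrgPart1

/-! Linear substitutions and translations; the genericity package of a binary form. -/

namespace Pool.Agent.MP_05b4bd_ag.HC

open MvPolynomial

variable {A : Type*} [CommRing A]

/-- The linear form `a x + b y`. -/
noncomputable def lf (a b : A) : R2 A := C a * X 0 + C b * X 1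

theorem lf_hom (a b : A) : (lf a b).IsHomogeneous 1 :=
  (isHomogeneous_C_mul_X a 0).add (isHomogeneous_C_mul_X b 1)

theorem lf_x (a b : A) : pderiv 0 (lf a b) = C a := by simp [lf]
theorem lf_y (a b : A) : pderiv 1 (lf a b) = C b := by simp [lf]
theorem vf_lf (P Q : R2 A) (a b : A) : vf P Q (lf a b) = C a * P + C b * Q := by
  rw [vf, lf_x, lf_y]; ring
theorem map_lf {B : Type*} [CommRing B] (φ : A →+* B) (a b : A) :
    map φ (lf a b) = lf (φ a) (φ b) := by simp [lf]

theorem pderiv_aeval (i : Fin 2) (g : Fin 2 → R2 A) (u : R2 A) : pderiv i (aeval g u) =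
    aeval g (pderiv 0 u) * pderiv i (g 0) + aeval g (pderiv 1 u) * pderiv i (g 1) := by
  induction u using MvPolynomial.induction_on with
  | C c => simp
  | add p q hp hq => simp only [map_add, hp, hq]; ring
  | mul_X p j hp =>
    simp only [map_mul, aeval_X, pderiv_mul, hp, map_add]
    fin_cases j <;> simp <;> ring

theorem aeval_DL {g : Fin 2 → R2 A} (hg : ∀ i, DL 2 (g i)) {n : ℕ} {u : R2 A} (hu : DL n u) :
    DL n (aeval g u) := by
  rw [u.as_sum, map_sum]
  refine DL.sum _ fun m hm => ?_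
  have h : m.degree + 1 ≤ n := by
    by_contra h
    exact mem_support_iff.1 hm (hu m (by omega))
  rw [aeval_monomial, Finsupp.prod_fintype _ _ (by simp), Fin.prod_univ_two]
  refine DL.C_mul _ (DL.mono (((hg 0).pow (m 0)).mul ((hg 1).pow (m 1))) ?_)
  rw [deg2] at h; omega

theorem aeval_mm {g : Fin 2 → R2 A} (hg : ∀ i, g i ∈ mm A ^ 1) {n : ℕ} {u : R2 A}
    (hu : u ∈ mm A ^ n) : aeval g u ∈ mm A ^ n := by
  rw [u.as_sum, map_sum]
  refine Ideal.sum_mem _ fun m hm => ?_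
  have h : n ≤ m.degree := by
    by_contra h
    exact mem_support_iff.1 hm (mem_mm.1 hu m (by omega))
  rw [aeval_monomial, Finsupp.prod_fintype _ _ (by simp), Fin.prod_univ_two]
  refine Ideal.mul_mem_left _ _ (mm_mono ?_ (mm_mul (mm_pow (hg 0) (m 0)) (mm_pow (hg 1) (m 1))))
  rw [deg2] at h; omega

/-- The substitution `x ↦ a x + b y`, `y ↦ c x + e y`. -/
noncomputable def lin (a b c e : A) : R2 A →ₐ[A] R2 A := aeval ![lf a b, lf c e]

section Lin
variable {a b c e : A}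

theorem lin_X0 : lin a b c e (X 0) = lf a b := by simp [lin]
theorem lin_X1 : lin a b c e (X 1) = lf c e := by simp [lin]
theorem lin_C (r : A) : lin a b c e (C r) = C r := by simp [lin]
theorem lin_lf (r s : A) : lin a b c e (lf r s) = lf (r * a + s * c) (r * b + s * e) := by
  rw [lf, map_add, map_mul, map_mul, lin_C, lin_C, lin_X0, lin_X1]
  simp only [lf, map_add, map_mul]; ring

theorem lin_x (u : R2 A) : pderiv 0 (lin a b c e u) =
    C a * lin a b c e (pderiv 0 u) + C c * lin a b c e (pderiv 1 u) := by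
  rw [lin, pderiv_aeval]; simp [lf_x, mul_comm]

theorem lin_y (u : R2 A) : pderiv 1 (lin a b c e u) =
    C b * lin a b c e (pderiv 0 u) + C e * lin a b c e (pderiv 1 u) := by
  rw [lin, pderiv_aeval]; simp [lf_y, mul_comm]

theorem lin_lin (a' b' c' e' : A) (u : R2 A) : lin a b c e (lin a' b' c' e' u) =
    lin (a' * a + b' * c) (a' * b + b' * e) (c' * a + e' * c) (c' * b + e' * e) u := by
  have : (lin a b c e).comp (lin a' b' c' e') =
      lin (a' * a + b' * c) (a' * b + b' * e) (c' * a + e' * c) (c' * b + e' * e) := by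
    apply MvPolynomial.algHom_ext
    intro i
    fin_cases i
    · simp only [AlgHom.comp_apply, Fin.zero_eta, lin_X0, lin_lf]
    · simp only [AlgHom.comp_apply, Fin.mk_one, lin_X1, lin_lf]
  exact DFunLike.congr_fun this u

theorem lin_id (u : R2 A) : lin 1 0 0 1 u = u := by
  have : lin (1 : A) 0 0 1 = AlgHom.id A _ := by
    apply MvPolynomial.algHom_ext
    intro i
    fin_cases i
    · simp [lin_X0, lf]
    · simp [lin_X1, lf]
  rw [this]; rfl

theorem lin_inv (h : a * e - b * c = 1) (u : R2 A) : lin a b c e (lin e (-b) (-c) a u) = u := by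
  rw [lin_lin, show e * a + -b * c = 1 by linear_combination h, show e * b + -b * e = 0 by ring,
    show -c * a + a * c = 0 by ring, show -c * b + a * e = 1 by linear_combination h, lin_id]

theorem inv_lin (h : a * e - b * c = 1) (u : R2 A) : lin e (-b) (-c) a (lin a b c e u) = u := by
  have := lin_inv (a := e) (b := -b) (c := -c) (e := a) (by linear_combination h) u
  simpa using this

theorem lin_inj (h : a * e - b * c = 1) : Function.Injective (lin a b c e) := fun u v huv => by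
  rw [← inv_lin h u, huv, inv_lin h]

theorem lin_hom {n : ℕ} {u : R2 A} (hu : u.IsHomogeneous n) : (lin a b c e u).IsHomogeneous n := by
  have := hu.aeval ![lf a b, lf c e] (n := 1) (fun i => by fin_cases i <;> exact lf_hom _ _)
  rwa [one_mul] at this

theorem lin_mm {n : ℕ} {u : R2 A} (hu : u ∈ mm A ^ n) : lin a b c e u ∈ mm A ^ n :=
  aeval_mm (fun i => by fin_cases i <;> exact mm_hom (lf_hom _ _)) hu

theorem lin_DL {n : ℕ} {u : R2 A} (hu : DL n u) : DL n (lin a b c e u) :=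
  aeval_DL (fun i => by fin_cases i <;> exact DL.of_hom (lf_hom _ _)) hu

theorem hc_lin (n : ℕ) (u : R2 A) : hc n (lin a b c e u) = lin a b c e (hc n u) := by
  induction u using MvPolynomial.induction_on' with
  | add p q hp hq => simp only [map_add, hp, hq]
  | monomial m r =>
    have h : (monomial m r : R2 A).IsHomogeneous m.degree := isHomogeneous_monomial _ rfl
    by_cases hn : n = m.degree
    · rw [hn, hc_self h, hc_self (lin_hom h)]
    · rw [hc_ne h hn, hc_ne (lin_hom h) hn, map_zero]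

theorem map_lin {B : Type*} [CommRing B] (φ : A →+* B) (u : R2 A) :
    map φ (lin a b c e u) = lin (φ a) (φ b) (φ c) (φ e) (map φ u) := by
  induction u using MvPolynomial.induction_on with
  | C r => simp
  | add p q hp hq => simp only [map_add, hp, hq]
  | mul_X p j hp =>
    simp only [map_mul, hp, map_X]
    fin_cases j
    · simp only [Fin.zero_eta, lin_X0, map_lf]
    · simp only [Fin.mk_one, lin_X1, map_lf]

theorem br_lin (h : a * e - b * c = 1) (u v : R2 A) :
    br (lin a b c e u) (lin a b c e v) = lin a b c e (br u v) := by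
  have h' : (C a * C e - C b * C c : R2 A) = 1 := by
    rw [← map_mul, ← map_mul, ← map_sub, h, map_one]
  simp only [br, lin_x, lin_y, map_sub, map_mul]
  linear_combination (lin a b c e (pderiv 0 u) * lin a b c e (pderiv 1 v) -
    lin a b c e (pderiv 1 u) * lin a b c e (pderiv 0 v)) * h'

/-- `P', Q'` is the field `P, Q` in the coordinates `a x + b y, c x + e y`. -/
def Tr (a b c e : A) (P Q P' Q' : R2 A) : Prop :=
  lin a b c e P' = C a * P + C b * Q ∧ lin a b c e Q' = C c * P + C e * Q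

theorem exists_Tr (h : a * e - b * c = 1) (P Q : R2 A) :
    Tr a b c e P Q (lin e (-b) (-c) a (C a * P + C b * Q)) (lin e (-b) (-c) a (C c * P + C e * Q)) :=
  ⟨lin_inv h _, lin_inv h _⟩

variable {P Q P' Q' : R2 A}

theorem Tr.vf (t : Tr a b c e P Q P' Q') (u : R2 A) :
    lin a b c e (vf P' Q' u) = vf P Q (lin a b c e u) := by
  simp only [HC.vf, map_add, map_mul, t.1, t.2, lin_x, lin_y]; ring

theorem Tr.fst (t : Tr a b c e P Q P' Q') (h : a * e - b * c = 1) :
    P = C e * lin a b c e P' - C b * lin a b c e Q' := by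
  have h' : (C a * C e - C b * C c : R2 A) = 1 := by
    rw [← map_mul, ← map_mul, ← map_sub, h, map_one]
  rw [t.1, t.2]; linear_combination (-P) * h'

theorem Tr.snd (t : Tr a b c e P Q P' Q') (h : a * e - b * c = 1) :
    Q = C a * lin a b c e Q' - C c * lin a b c e P' := by
  have h' : (C a * C e - C b * C c : R2 A) = 1 := by
    rw [← map_mul, ← map_mul, ← map_sub, h, map_one]
  rw [t.1, t.2]; linear_combination (-Q) * h'

theorem Tr.div (t : Tr a b c e P Q P' Q') (h : a * e - b * c = 1) :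
    lin a b c e (pderiv 0 P' + pderiv 1 Q') = pderiv 0 P + pderiv 1 Q := by
  have h' : (C a * C e - C b * C c : R2 A) = 1 := by
    rw [← map_mul, ← map_mul, ← map_sub, h, map_one]
  conv_rhs => rw [t.fst h]
  conv_rhs => enter [2]; rw [t.snd h]
  simp only [map_sub, pderiv_C_mul, lin_x, lin_y, map_add]
  linear_combination (-(lin a b c e (pderiv 0 P') + lin a b c e (pderiv 1 Q'))) * h'

theorem Tr.map {B : Type*} [CommRing B] (φ : A →+* B) (t : Tr a b c e P Q P' Q') :
    Tr (φ a) (φ b) (φ c) (φ e) (map φ P) (map φ Q) (map φ P') (map φ Q') :=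
  ⟨by rw [← map_lin, t.1]; simp, by rw [← map_lin, t.2]; simp⟩

theorem Tr.mul (t : Tr a b c e P Q P' Q') (g : R2 A) :
    Tr a b c e (lin a b c e g * P) (lin a b c e g * Q) (g * P') (g * Q') :=
  ⟨by rw [map_mul, t.1]; ring, by rw [map_mul, t.2]; ring⟩

theorem Tr.inIm (t : Tr a b c e P Q P' Q') (h : a * e - b * c = 1) (w : R2 A) :
    InIm P' Q' w ↔ InIm P Q (lin a b c e w) := by
  constructor
  · intro H N
    obtain ⟨g, hg⟩ := H N
    exact ⟨lin a b c e g, by rw [← t.vf, ← map_sub]; exact lin_mm hg⟩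
  · intro H N
    obtain ⟨g, hg⟩ := H N
    refine ⟨lin e (-b) (-c) a g, ?_⟩
    rw [← lin_inv h g, ← t.vf, ← map_sub] at hg
    have := lin_mm (a := e) (b := -b) (c := -c) (e := a) hg
    rwa [inv_lin h] at this

theorem Tr.fi (t : Tr a b c e P Q P' Q') (h : a * e - b * c = 1) (H : FI P Q) : FI P' Q' := by
  intro N
  obtain ⟨I, h2, h3, hN⟩ := H N
  refine ⟨lin e (-b) (-c) a I, lin_mm h2, fun h' => h3 ?_, ?_⟩
  · rw [← lin_inv h I]; exact lin_mm h'
  · rw [← lin_inv h I, ← t.vf] at hN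
    have := lin_mm (a := e) (b := -b) (c := -c) (e := a) hN
    rwa [inv_lin h] at this

theorem Tr_ham (h : a * e - b * c = 1) (f : R2 A) :
    Tr a b c e (pderiv 1 (lin a b c e f)) (-pderiv 0 (lin a b c e f)) (pderiv 1 f) (-pderiv 0 f) := by
  have h' : (C a * C e - C b * C c : R2 A) = 1 := by
    rw [← map_mul, ← map_mul, ← map_sub, h, map_one]
  constructor
  · rw [lin_x, lin_y]; linear_combination (-lin a b c e (pderiv 1 f)) * h'
  · rw [lin_x, lin_y, map_neg]; linear_combination (lin a b c e (pderiv 0 f)) * h'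

theorem CI.lin (h : a * e - b * c = 1) {F : R2 A} (H : CI (pderiv 0 F) (pderiv 1 F)) :
    CI (pderiv 0 (HC.lin a b c e F)) (pderiv 1 (HC.lin a b c e F)) := by
  have h' : (C a * C e - C b * C c : R2 A) = 1 := by
    rw [← map_mul, ← map_mul, ← map_sub, h, map_one]
  obtain ⟨M, h0, h1⟩ := H
  set J := Ideal.span {pderiv 0 (HC.lin a b c e F), pderiv 1 (HC.lin a b c e F)} with hJ
  have key : ∀ u ∈ Ideal.span {pderiv 0 F, pderiv 1 F}, HC.lin a b c e u ∈ J := fun u hu => by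
    obtain ⟨s, t, rfl⟩ := Ideal.mem_span_pair.1 hu
    refine Ideal.mem_span_pair.2 ⟨HC.lin a b c e s * C e - HC.lin a b c e t * C b,
      HC.lin a b c e t * C a - HC.lin a b c e s * C c, ?_⟩
    rw [lin_x, lin_y, map_add, map_mul, map_mul]
    linear_combination (HC.lin a b c e s * HC.lin a b c e (pderiv 0 F) +
      HC.lin a b c e t * HC.lin a b c e (pderiv 1 F)) * h'
  have k0 := key _ h0
  have k1 := key _ h1
  rw [map_pow, lin_X0] at k0
  rw [map_pow, lin_X1] at k1
  have comb : ∀ s t : R2 A, (s * lf a b + t * lf c e) ^ (M + M) ∈ J := fun s t =>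
    Ideal.add_pow_mem_of_pow_mem_of_le J (m := M) (n := M)
      (by rw [mul_pow]; exact J.mul_mem_left _ k0) (by rw [mul_pow]; exact J.mul_mem_left _ k1)
      (by omega)
  refine ⟨M + M, ?_, ?_⟩
  · have := comb (C e) (-C b)
    rwa [show C e * lf a b + -C b * lf c e = X 0 by
      simp only [lf]; linear_combination (X 0 : R2 A) * h'] at this
  · have := comb (-C c) (C a)
    rwa [show -C c * lf a b + C a * lf c e = X 1 by
      simp only [lf]; linear_combination (X 1 : R2 A) * h'] at this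

end Lin

/-- Coefficient of `x ^ i * y ^ j`. -/
noncomputable def co (i j : ℕ) (u : R2 A) : A := coeff (Finsupp.single 0 i + Finsupp.single 1 j) u

/-- The six forms `x F_xx, y F_xx, x F_xy, y F_xy, x F_yy, y F_yy` are linearly independent. -/
def Six (F : R2 A) : Prop := ∀ a1 a2 b1 b2 c1 c2 : A,
  lf a1 a2 * pderiv 0 (pderiv 0 F) + lf b1 b2 * pderiv 0 (pderiv 1 F) +
    lf c1 c2 * pderiv 1 (pderiv 1 F) = 0 → a1 = 0 ∧ a2 = 0 ∧ b1 = 0 ∧ b2 = 0 ∧ c1 = 0 ∧ c2 = 0

/-- Genericity package of a binary form of degree `n + 6`. -/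
def GenF (n : ℕ) (F : R2 A) : Prop :=
  F.IsHomogeneous (n + 6) ∧ CI (pderiv 0 F) (pderiv 1 F) ∧ Six F ∧
    ∀ a b c e : A, a * e - b * c = 1 →
      ¬ (co (n + 5) 1 (lin a b c e F) = 0 ∧ co (n + 3) 3 (lin a b c e F) = 0 ∧
        co (n + 1) 5 (lin a b c e F) = 0)

theorem lf_eq_zero {a b : A} (h : lf a b = 0) : a = 0 ∧ b = 0 := by
  have h0 := congrArg (pderiv 0) h
  have h1 := congrArg (pderiv 1) h
  rw [lf_x, map_zero] at h0
  rw [lf_y, map_zero] at h1
  exact ⟨C_eq_zero.1 h0, C_eq_zero.1 h1⟩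

theorem Six.lin {a b c e : A} (h : a * e - b * c = 1) {F : R2 A} (H : Six F) :
    Six (HC.lin a b c e F) := by
  intro a1 a2 b1 b2 c1 c2 hz
  have hz' := congrArg (HC.lin e (-b) (-c) a) hz
  simp only [lin_x, lin_y, map_add, map_mul, pderiv_C_mul, lin_C, inv_lin h, lin_lf, map_zero,
    pderiv_comm] at hz'
  have := H
    (a * a * (a1 * e + a2 * -c) + a * b * (b1 * e + b2 * -c) + b * b * (c1 * e + c2 * -c))
    (a * a * (a1 * -b + a2 * a) + a * b * (b1 * -b + b2 * a) + b * b * (c1 * -b + c2 * a))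
    (2 * a * c * (a1 * e + a2 * -c) + (a * e + b * c) * (b1 * e + b2 * -c) +
      2 * b * e * (c1 * e + c2 * -c))
    (2 * a * c * (a1 * -b + a2 * a) + (a * e + b * c) * (b1 * -b + b2 * a) +
      2 * b * e * (c1 * -b + c2 * a))
    (c * c * (a1 * e + a2 * -c) + c * e * (b1 * e + b2 * -c) + e * e * (c1 * e + c2 * -c))
    (c * c * (a1 * -b + a2 * a) + c * e * (b1 * -b + b2 * a) + e * e * (c1 * -b + c2 * a))
    (by
      simp only [lf, map_add, map_mul, map_neg, map_ofNat] at hz' ⊢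
      linear_combination hz')
  obtain ⟨h1, h2, h3, h4, h5, h6⟩ := this
  have inv : ∀ r s t : A, a * a * r + a * b * s + b * b * t = 0 →
      2 * a * c * r + (a * e + b * c) * s + 2 * b * e * t = 0 →
      c * c * r + c * e * s + e * e * t = 0 → r = 0 ∧ s = 0 ∧ t = 0 := fun r s t k1 k2 k3 =>
    ⟨by linear_combination e * e * k1 - b * e * k2 + b * b * k3 - r * (a * e - b * c + 1) * h,
     by linear_combination (-2 * c * e) * k1 + (a * e + b * c) * k2 - 2 * a * b * k3 -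
        s * (a * e - b * c + 1) * h,
     by linear_combination c * c * k1 - a * c * k2 + a * a * k3 - t * (a * e - b * c + 1) * h⟩
  obtain ⟨r1, s1, t1⟩ := inv _ _ _ h1 h3 h5
  obtain ⟨r2, s2, t2⟩ := inv _ _ _ h2 h4 h6
  exact ⟨by linear_combination a * r1 + c * r2 - a1 * h, by linear_combination b * r1 + e * r2 - a2 * h,
    by linear_combination a * s1 + c * s2 - b1 * h, by linear_combination b * s1 + e * s2 - b2 * h,
    by linear_combination a * t1 + c * t2 - c1 * h, by linear_combination b * t1 + e * t2 - c2 * h⟩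

theorem GenF.lin {n : ℕ} {a b c e : A} (h : a * e - b * c = 1) {F : R2 A} (H : GenF n F) :
    GenF n (HC.lin a b c e F) := by
  refine ⟨lin_hom H.1, H.2.1.lin h, H.2.2.1.lin h, fun a' b' c' e' h' => ?_⟩
  rw [lin_lin]
  exact H.2.2.2 _ _ _ _ (by linear_combination (a' * e' - b' * c') * h + h')

/-- Translation `u(x + p)`. -/
noncomputable def tr (p : Fin 2 → A) : R2 A →ₐ[A] R2 A := aeval fun i => X i + C (p i)

theorem tr_pderiv (p : Fin 2 → A) (i : Fin 2) (u : R2 A) :
    pderiv i (tr p u) = tr p (pderiv i u) := by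
  rw [tr, pderiv_aeval]
  fin_cases i <;> simp

theorem tr_DL (p : Fin 2 → A) {n : ℕ} {u : R2 A} (hu : DL n u) : DL n (tr p u) :=
  aeval_DL (fun i => (DL_X i).add ((DL_C _).mono (by omega))) hu

theorem tr_tr (p : Fin 2 → A) (u : R2 A) : tr (-p) (tr p u) = u := by
  have : (tr (-p)).comp (tr p) = AlgHom.id A _ := by
    apply MvPolynomial.algHom_ext
    intro i
    simp [tr]
  exact DFunLike.congr_fun this u

theorem tr_tr' (p : Fin 2 → A) (u : R2 A) : tr p (tr (-p) u) = u := by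
  simpa using tr_tr (-p) u

theorem map_tr {B : Type*} [CommRing B] (φ : A →+* B) (p : Fin 2 → A) (u : R2 A) :
    map φ (tr p u) = tr (fun i => φ (p i)) (map φ u) := by
  induction u using MvPolynomial.induction_on with
  | C r => simp [tr]
  | add p q hp hq => simp only [map_add, hp, hq]
  | mul_X q j hq =>
    rw [map_mul, map_mul, map_mul, map_mul, hq]
    simp [tr]

theorem eval_tr (p z : Fin 2 → A) (u : R2 A) : eval z (tr p u) = eval (z + p) u := by
  induction u using MvPolynomial.induction_on with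
  | C r => simp [tr]
  | add p q hp hq => simp only [map_add, hp, hq]
  | mul_X q j hq =>
    rw [map_mul, map_mul, map_mul, hq]
    simp [tr]

theorem coeff_zero_tr (p : Fin 2 → A) (u : R2 A) : coeff 0 (tr p u) = eval p u := by
  have := eval_tr p 0 u
  rw [zero_add] at this
  rw [← this, ← constantCoeff_eq]
  exact (DFunLike.congr_fun (eval_zero (σ := Fin 2) (R := A)) _).symm

section Co
variable (i j : ℕ) (u v : R2 A)

theorem co_add : co i j (u + v) = co i j u + co i j v := coeff_add _ _ _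
theorem co_sub : co i j (u - v) = co i j u - co i j v := coeff_sub _ _ _ _
theorem co_neg : co i j (-u) = -co i j u := coeff_neg _ _ _
theorem co_zero : co i j (0 : R2 A) = 0 := rfl
theorem co_C_mul (c : A) : co i j (C c * u) = c * co i j u := coeff_C_mul _ _ _
theorem co_x : co i j (pderiv 0 u) = co (i + 1) j u * (i + 1) := by
  rw [co, coeff_pderiv, co, Finsupp.single_add, add_right_comm]; simp
theorem co_y : co i j (pderiv 1 u) = co i (j + 1) u * (j + 1) := by
  rw [co, coeff_pderiv, co, Finsupp.single_add, add_assoc]; simp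
theorem co_X0 : co (i + 1) j (X 0 * u) = co i j u := by
  rw [co, Finsupp.single_add, add_comm (Finsupp.single 0 i), add_assoc, coeff_X_mul, co]
theorem co_X1 : co i (j + 1) (X 1 * u) = co i j u := by
  rw [co, Finsupp.single_add, ← add_assoc, add_comm _ (Finsupp.single 1 1), coeff_X_mul, co]
theorem co_X0' : co 0 j (X 0 * u) = 0 := by
  rw [co, coeff_X_mul']; simp
theorem co_X1' : co i 0 (X 1 * u) = 0 := by
  rw [co, coeff_X_mul']; simp
theorem co_map {B : Type*} [CommRing B] (φ : A →+* B) : co i j (map φ u) = φ (co i j u) :=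
  coeff_map _ _ _

end Co

theorem eq_single (m : Fin 2 →₀ ℕ) : m = Finsupp.single 0 (m 0) + Finsupp.single 1 (m 1) := by
  ext i; fin_cases i <;> simp

theorem coeff_eq_co (m : Fin 2 →₀ ℕ) (u : R2 A) : coeff m u = co (m 0) (m 1) u := by
  rw [co, ← eq_single]

theorem co_ext {u v : R2 A} (h : ∀ i j, co i j u = co i j v) : u = v := by
  ext m; rw [coeff_eq_co, coeff_eq_co, h]

theorem co_hom {n i j : ℕ} {u : R2 A} (hu : u.IsHomogeneous n) (h : i + j ≠ n) : co i j u = 0 :=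
  hu.coeff_eq_zero (by rw [deg2]; simpa using h)

theorem co_hc (i j : ℕ) (u : R2 A) : co i j (hc (i + j) u) = co i j u := by
  rw [co, coeff_hc, if_pos (by rw [deg2]; simp), co]

theorem co_mon (i j a b : ℕ) : co i j (X 0 ^ a * X 1 ^ b : R2 A) = if a = i ∧ b = j then 1 else 0 := by
  classical
  rw [X_pow_eq_monomial, X_pow_eq_monomial, monomial_mul, co, coeff_monomial, one_mul]
  refine if_congr ⟨fun h => ?_, fun h => by rw [h.1, h.2]⟩ rfl rfl
  exact ⟨by simpa using DFunLike.congr_fun h 0, by simpa using DFunLike.congr_fun h 1⟩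

/-- A form of degree `n` is the sum of its monomials. -/
theorem hom_eq_sum {n : ℕ} {u : R2 A} (hu : u.IsHomogeneous n) :
    u = ∑ j ∈ Finset.range (n + 1), C (co (n - j) j u) * (X 0 ^ (n - j) * X 1 ^ j) := by
  refine co_ext fun a b => ?_
  rw [co, co, coeff_sum]
  simp only [coeff_C_mul]
  change co a b u = ∑ j ∈ Finset.range (n + 1), co (n - j) j u * co a b (X 0 ^ (n - j) * X 1 ^ j)
  simp only [co_mon]
  by_cases h : a + b = n
  · rw [Finset.sum_eq_single b]
    · rw [if_pos ⟨by omega, rfl⟩, mul_one, show n - b = a by omega]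
    · intro j _ hj; rw [if_neg (fun h => hj h.2), mul_zero]
    · intro hb; exact absurd (Finset.mem_range.2 (by omega)) hb
  · rw [co_hom hu h]
    refine (Finset.sum_eq_zero fun j hj => ?_).symm
    rw [if_neg, mul_zero]
    rintro ⟨h1, h2⟩
    have := Finset.mem_range.1 hj
    omega

theorem hom1_eq {u : R2 A} (hu : u.IsHomogeneous 1) : u = lf (co 1 0 u) (co 0 1 u) := by
  conv_lhs => rw [hom_eq_sum hu]
  simp [Finset.sum_range_succ, lf]

theorem hom2_eq {u : R2 A} (hu : u.IsHomogeneous 2) :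
    u = C (co 2 0 u) * X 0 ^ 2 + C (co 1 1 u) * (X 0 * X 1) + C (co 0 2 u) * X 1 ^ 2 := by
  conv_lhs => rw [hom_eq_sum hu]
  simp [Finset.sum_range_succ]

end Pool.Agent.MP_05b4bd_ag.HC

end MrgPart1

-- ======== part 2: formerly Pool.Agent.MP_05b4bd_ag.hc.Star
section MrgPart2

/-! Vector fields with a first integral up to any order: image modulo powers of the maximal ideal. -/

namespace Pool.Agent.MP_05b4bd_ag.HC

open MvPolynomial

variable {A : Type*} [CommRing A]

/-- The linear part is `δ (x ∂x - y ∂y)`. -/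
def Diag (δ : A) (P Q : R2 A) : Prop :=
  P ∈ mm A ^ 1 ∧ Q ∈ mm A ^ 1 ∧ hc 1 P = C δ * X 0 ∧ hc 1 Q = -(C δ * X 1)

/-- The linear part is diagonalizable over `A` with eigenvalues `± δ`, `δ` a unit. -/
def Eig (P Q : R2 A) : Prop := ∃ (a b c e δ : A) (P' Q' : R2 A),
  a * e - b * c = 1 ∧ IsUnit δ ∧ Tr a b c e P Q P' Q' ∧ Diag δ P' Q'

theorem co_X0_x (i j : ℕ) (u : R2 A) : co i j (X 0 * pderiv 0 u) = i * co i j u := by
  cases i with
  | zero => simp [co_X0']
  | succ i => rw [co_X0, co_x]; push_cast; ring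

theorem co_X1_y (i j : ℕ) (u : R2 A) : co i j (X 1 * pderiv 1 u) = j * co i j u := by
  cases j with
  | zero => simp [co_X1']
  | succ j => rw [co_X1, co_y]; push_cast; ring

theorem co_of_mm {n i j : ℕ} {u : R2 A} (hu : u ∈ mm A ^ n) (h : i + j < n) : co i j u = 0 :=
  mem_mm.1 hu _ (by rw [deg2]; simpa using h)

theorem co_of_DL {n i j : ℕ} {u : R2 A} (hu : DL n u) (h : n ≤ i + j) : co i j u = 0 :=
  hu _ (by rw [deg2]; simpa using h)

theorem mm_succ_co {n : ℕ} {u : R2 A} (hu : u ∈ mm A ^ n) (h : ∀ i j, i + j = n → co i j u = 0) :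
    u ∈ mm A ^ (n + 1) := by
  refine mm_succ hu (co_ext fun i j => ?_)
  by_cases e : i + j = n
  · rw [← e, co_hc, h i j e, co_zero]
  · rw [co_hom (hc_hom n u) e, co_zero]

theorem hc_pow_low {a : ℕ} {u : R2 A} (hu : u ∈ mm A ^ a) (j : ℕ) :
    hc (a * j) (u ^ j) = hc a u ^ j := by
  induction j with
  | zero => simp
  | succ j ih => rw [pow_succ, pow_succ, Nat.mul_succ, hc_mul_low (mm_pow hu j) hu, ih]

theorem co_sum_mon (n a b : ℕ) (t : ℕ → A) :
    co a b (∑ j ∈ Finset.range (n + 1), C (t j) * (X 0 ^ (n - j) * X 1 ^ j) : R2 A) =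
      if a + b = n then t b else 0 := by
  rw [co, coeff_sum]
  simp only [coeff_C_mul]
  change ∑ j ∈ Finset.range (n + 1), t j * co a b (X 0 ^ (n - j) * X 1 ^ j) = _
  simp only [co_mon]
  split_ifs with h
  · rw [Finset.sum_eq_single b]
    · rw [if_pos ⟨by omega, rfl⟩, mul_one]
    · intro j _ hj; rw [if_neg (fun h => hj h.2), mul_zero]
    · intro hb; exact absurd (Finset.mem_range.2 (by omega)) hb
  · refine Finset.sum_eq_zero fun j hj => ?_
    rw [if_neg, mul_zero]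
    rintro ⟨h1, h2⟩
    have := Finset.mem_range.1 hj
    omega

theorem sum_mon_hom (n : ℕ) (t : ℕ → A) :
    (∑ j ∈ Finset.range (n + 1), C (t j) * (X 0 ^ (n - j) * X 1 ^ j) : R2 A).IsHomogeneous n := by
  refine IsHomogeneous.sum _ _ _ fun j hj => IsHomogeneous.C_mul ?_ _
  have := (isHomogeneous_X_pow (R := A) (0 : Fin 2) (n - j)).mul (isHomogeneous_X_pow (1 : Fin 2) j)
  rwa [show n - j + j = n by have := Finset.mem_range.1 hj; omega] at this

theorem vf_mm' {n : ℕ} {P Q g : R2 A} (hP : P ∈ mm A ^ 1) (hQ : Q ∈ mm A ^ 1) (hg : g ∈ mm A ^ n) :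
    vf P Q g ∈ mm A ^ n := by
  cases n with
  | zero => exact mm_zero _
  | succ n => rw [add_comm]; exact vf_mm hP hQ hg

theorem Diag.co_vf {δ : A} {P Q g : R2 A} (H : Diag δ P Q) {i j : ℕ} (hg : g ∈ mm A ^ (i + j)) :
    co i j (vf P Q g) = δ * ((i : A) - j) * co i j g := by
  rcases Nat.eq_zero_or_pos (i + j) with h | h
  · obtain rfl : i = 0 := by omega
    obtain rfl : j = 0 := by omega
    have : vf P Q g ∈ mm A ^ 1 :=
      add_mem (Ideal.mul_mem_right _ _ H.1) (Ideal.mul_mem_right _ _ H.2.1)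
    rw [co_of_mm this (by omega)]; simp
  · obtain ⟨k, hk⟩ : ∃ k, i + j = k + 1 := ⟨i + j - 1, by omega⟩
    rw [← co_hc, ← co_hc i j g, hk, add_comm k 1, hc_vf_low H.1 H.2.1 (hk ▸ hg), H.2.2.1, H.2.2.2,
      add_comm 1 k, vf, mul_assoc, neg_mul, mul_assoc, co_add, co_neg, co_C_mul, co_C_mul, co_X0_x,
      co_X1_y]
    ring

section Field
variable {K : Type*} [Field K] [CharZero K]

theorem Diag.off {δ : K} {P Q g : R2 K} (H : Diag δ P Q) (hδ : δ ≠ 0) {n : ℕ} (hg : g ∈ mm K ^ n)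
    (hv : vf P Q g ∈ mm K ^ (n + 1)) : hc n g = C (co (n / 2) (n / 2) (hc n g)) * (X 0 * X 1) ^ (n / 2) := by
  refine co_ext fun i j => ?_
  rw [co_C_mul, mul_pow, co_mon]
  split_ifs with h
  · rw [← h.1, ← h.2, mul_one]
  · rw [mul_zero]
    by_cases e : i + j = n
    · subst e
      have := H.co_vf hg
      rw [co_of_mm hv (by omega)] at this
      rw [co_hc]
      refine (mul_eq_zero.1 this.symm).resolve_left (mul_ne_zero hδ (sub_ne_zero.2 ?_))
      intro e
      have : i = j := by exact_mod_cast e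
      exact h ⟨by omega, by omega⟩
    · exact co_hom (hc_hom n g) e

theorem Diag.two {δ : K} {P Q I : R2 K} (H : Diag δ P Q) (hδ : δ ≠ 0) (h2 : I ∈ mm K ^ 2)
    (h3 : I ∉ mm K ^ 3) (hv : vf P Q I ∈ mm K ^ 3) : ∃ c : K, c ≠ 0 ∧ hc 2 I = C c * (X 0 * X 1) := by
  have := H.off hδ h2 hv
  refine ⟨_, fun h => h3 (mm_succ h2 ?_), by simpa using this⟩
  rw [this]
  simp only [Nat.ofNat_pos, Nat.div_self]
  rw [h]; simp

theorem Diag.core {δ : K} {P Q : R2 K} (H : Diag δ P Q) (hδ : δ ≠ 0) (hI : FI P Q) {N n : ℕ}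
    (hn : n ≤ N) {g : R2 K} (hg : vf P Q g ∈ mm K ^ n) :
    ∃ g', g' ∈ mm K ^ n ∧ vf P Q g' - vf P Q g ∈ mm K ^ N := by
  induction n with
  | zero => exact ⟨g, mm_zero _, by simp⟩
  | succ n ih =>
    obtain ⟨g', h1, h2⟩ := ih (by omega) (mm_mono (by omega) hg)
    have h3 : vf P Q g' ∈ mm K ^ (n + 1) := by
      simpa using add_mem (mm_mono hn h2) hg
    have h4 := H.off hδ h1 h3
    by_cases hα : co (n / 2) (n / 2) (hc n g') = 0
    · exact ⟨g', mm_succ h1 (by rw [h4, hα]; simp), h2⟩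
    have hn2 : n = 2 * (n / 2) := by
      by_contra h
      exact hα (co_hom (hc_hom n g') (by omega))
    obtain ⟨I, i2, i3, iN⟩ := hI (N + 3)
    obtain ⟨c, hc0, hc2⟩ := H.two hδ i2 i3 (mm_mono (by omega) iN)
    set j := n / 2 with hj
    set α := co j j (hc n g') with hαd
    refine ⟨g' - C (α / c ^ j) * I ^ j, ?_, ?_⟩
    · have hp : I ^ j ∈ mm K ^ n := hn2 ▸ mm_pow i2 j
      refine mm_succ (sub_mem h1 (Ideal.mul_mem_left _ _ hp)) ?_
      rw [hc_sub, hc_C_mul, h4]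
      conv_lhs => enter [2, 2, 1]; rw [hn2]
      rw [hc_pow_low i2, hc2, mul_pow (C c), ← mul_assoc, ← map_pow, ← map_mul,
        div_mul_cancel₀ _ (pow_ne_zero _ hc0), sub_self]
    · rw [vf_sub, vf_C_mul, vf_pow, sub_right_comm]
      exact sub_mem h2 (Ideal.mul_mem_left _ _ (Ideal.mul_mem_left _ _ (mm_mono (by omega) iN)))

theorem Diag.co_diag {δ : K} {P Q b : R2 K} (H : Diag δ P Q) (hδ : δ ≠ 0) (hI : FI P Q) {j : ℕ}
    (hb : InIm P Q b) (hm : b ∈ mm K ^ (j + j)) : co j j b = 0 := by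
  obtain ⟨g, hg⟩ := hb (j + j + 1)
  have h1 : vf P Q g ∈ mm K ^ (j + j) := by
    simpa using sub_mem hm (mm_mono (by omega) hg)
  obtain ⟨g', h2, h3⟩ := H.core hδ hI (N := j + j + 1) (by omega) h1
  have h4 : b - vf P Q g' ∈ mm K ^ (j + j + 1) := by simpa using sub_mem hg h3
  have h5 := co_of_mm h4 (show j + j < j + j + 1 by omega)
  rw [co_sub, H.co_vf h2] at h5
  simpa using h5

theorem Diag.map {B : Type*} [CommRing B] (φ : A →+* B) {δ : A} {P Q : R2 A} (H : Diag δ P Q) :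
    Diag (φ δ) (map φ P) (map φ Q) :=
  ⟨mm_map φ H.1, mm_map φ H.2.1, by rw [hc_map, H.2.2.1]; simp, by rw [hc_map, H.2.2.2]; simp⟩

theorem InIm.sub_vf {P Q b : R2 A} (hb : InIm P Q b) (h : R2 A) : InIm P Q (b - vf P Q h) :=
  fun N => by
    obtain ⟨g, hg⟩ := hb N
    exact ⟨g - h, by rw [vf_sub]; convert hg using 1; ring⟩

theorem Diag.star [Algebra ℚ A] {φ : A →+* K} (hφ : Function.Injective φ) {δ : A} {P Q b : R2 A}
    (H : Diag δ P Q) (hδ : IsUnit δ) (hI : FI (MvPolynomial.map φ P) (MvPolynomial.map φ Q))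
    (hb : InIm (MvPolynomial.map φ P) (MvPolynomial.map φ Q) (MvPolynomial.map φ b)) :
    InIm P Q b := by
  intro n
  induction n with
  | zero => exact ⟨0, mm_zero _⟩
  | succ n ih =>
    obtain ⟨h, hr⟩ := ih
    obtain ⟨d, hd⟩ := hδ.exists_right_inv
    set r := b - vf P Q h with hrd
    let t : ℕ → A := fun j => co (n - j) j r * (d * algebraMap ℚ A ((((n - j : ℕ) : ℚ) - j)⁻¹))
    have hh := mm_hom (sum_mon_hom n t)
    refine ⟨h + ∑ j ∈ Finset.range (n + 1), C (t j) * (X 0 ^ (n - j) * X 1 ^ j), ?_⟩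
    rw [vf_add, ← sub_sub, ← hrd]
    refine mm_succ_co (sub_mem hr (vf_mm' H.1 H.2.1 hh)) fun i j e => ?_
    rw [co_sub, H.co_vf (e ▸ hh), co_sum_mon, if_pos e]
    simp only [t]
    rw [show n - j = i by omega]
    by_cases hij : i = j
    · subst hij
      have : co i i r = 0 := by
        apply hφ
        rw [map_zero, ← co_map]
        refine (H.map φ).co_diag (hδ.map φ).ne_zero hI ?_ (mm_map φ (e ▸ hr))
        rw [hrd, map_sub, map_vf]
        exact hb.sub_vf _
      simp [this]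
    · have h1 : ((i : A) - j) * algebraMap ℚ A (((i : ℚ) - j)⁻¹) = 1 := by
        rw [show ((i : A) - j) = algebraMap ℚ A ((i : ℚ) - j) by simp, ← map_mul,
          mul_inv_cancel₀ (sub_ne_zero.2 (by exact_mod_cast hij)), map_one]
      linear_combination (-co i j r * δ * d) * h1 + (-co i j r) * hd

theorem Eig.star [Algebra ℚ A] {φ : A →+* K} (hφ : Function.Injective φ) {P Q b : R2 A}
    (H : Eig P Q) (hI : FI (map φ P) (map φ Q)) (hb : InIm (map φ P) (map φ Q) (map φ b)) :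
    InIm P Q b := by
  obtain ⟨a, b', c, e, δ, P', Q', h, hδ, t, D⟩ := H
  have h' : φ a * φ e - φ b' * φ c = 1 := by rw [← map_mul, ← map_mul, ← map_sub, h, map_one]
  rw [← lin_inv h b, ← t.inIm h]
  refine D.star hφ hδ ((t.map φ).fi h' hI) ?_
  rw [(t.map φ).inIm h', ← map_lin, lin_inv h]
  exact hb

theorem Eig.nondiv {P Q w b : R2 K} (H : Eig P Q) (hI : FI P Q) (h2 : w ∈ mm K ^ 2)
    (h3 : w ∉ mm K ^ 3) (hv : vf P Q w ∈ mm K ^ 3) {j : ℕ} {α : K}
    (hm : b - C α * w ^ j ∈ mm K ^ (2 * j + 1)) (hb : InIm P Q b) : α = 0 := by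
  obtain ⟨a, b', c, e, δ, P', Q', h, hδ, t, D⟩ := H
  have w2 : lin e (-b') (-c) a w ∈ mm K ^ 2 := lin_mm h2
  obtain ⟨γ, hγ, hw⟩ := D.two hδ.ne_zero w2 (fun h' => h3 (by rw [← lin_inv h w]; exact lin_mm h'))
    (by
      rw [← lin_inv h w, ← t.vf] at hv
      have := lin_mm (a := e) (b := -b') (c := -c) (e := a) hv
      rwa [inv_lin h] at this)
  have hm' := lin_mm (a := e) (b := -b') (c := -c) (e := a) hm
  rw [map_sub, map_mul, map_pow, lin_C] at hm'
  have hp := mm_pow w2 j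
  have h0 := D.co_diag hδ.ne_zero (t.fi h hI) (j := j) (b := lin e (-b') (-c) a b)
    (by rw [t.inIm h, lin_inv h]; exact hb)
    (by
      rw [← two_mul]
      simpa using add_mem (mm_mono (by omega) hm') (Ideal.mul_mem_left _ (C α) hp))
  have h1 := co_of_mm hm' (show j + j < 2 * j + 1 by omega)
  rw [co_sub, h0, co_C_mul, ← co_hc, ← two_mul, hc_pow_low w2, hw, mul_pow, ← map_pow, co_C_mul,
    mul_pow, co_mon] at h1
  simpa [hγ] using h1

end Field

theorem eig_of {P Q : R2 A} {p0 p1 q0 δ : A} (hP : P ∈ mm A ^ 1) (hQ : Q ∈ mm A ^ 1)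
    (eP : hc 1 P = lf p0 p1) (eQ : hc 1 Q = lf q0 (-p0)) (hδ : δ * δ = p0 * p0 + p1 * q0)
    (u : IsUnit (2 * δ * q0)) : Eig P Q := by
  obtain ⟨t, ht⟩ := u.exists_right_inv
  have h : q0 * ((δ + p0) * t) - (δ - p0) * (-q0 * t) = 1 := by linear_combination ht
  refine ⟨q0, δ - p0, -q0 * t, (δ + p0) * t, δ, _, _, h,
    isUnit_of_mul_isUnit_right (isUnit_of_mul_isUnit_left u), exists_Tr h P Q, ?_, ?_, ?_, ?_⟩
  · exact lin_mm (add_mem (Ideal.mul_mem_left _ _ hP) (Ideal.mul_mem_left _ _ hQ))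
  · exact lin_mm (add_mem (Ideal.mul_mem_left _ _ hP) (Ideal.mul_mem_left _ _ hQ))
  · apply lin_inj h
    rw [hc_lin, lin_inv h, map_mul, lin_C, lin_X0, hc_add, hc_C_mul, hc_C_mul, eP, eQ]
    have := congrArg (C : A → R2 A) hδ
    simp only [lf, map_add, map_mul, map_sub, map_neg] at this ⊢
    linear_combination (-X 1 : R2 A) * this
  · apply lin_inj h
    rw [hc_lin, lin_inv h, hc_add, hc_C_mul, hc_C_mul, eP, eQ, map_neg (lin _ _ _ _),
      map_mul (lin _ _ _ _), lin_C, lin_X1]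
    have := congrArg (C : A → R2 A) hδ
    simp only [lf, map_add, map_mul, map_neg] at this ⊢
    linear_combination (C t * X 1 : R2 A) * this

end Pool.Agent.MP_05b4bd_ag.HC

end MrgPart2

-- ======== part 3: formerly Pool.Agent.MP_05b4bd_ag.hc.Gen
section MrgPart3

/-! A binary form with algebraically independent coefficients has the genericity package. -/

namespace Pool.Agent.MP_05b4bd_ag.HC

open MvPolynomial

section
variable {A : Type*} [CommRing A]

theorem monomial_eq2 (m : Fin 2 →₀ ℕ) (r : A) :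
    (monomial m r : R2 A) = C r * (X 0 ^ m 0 * X 1 ^ m 1) := by
  rw [monomial_eq, Finsupp.prod_fintype _ _ (by simp), Fin.prod_univ_two]

theorem co_scale (α β : A) (i j : ℕ) (u : R2 A) :
    co i j (lin α 0 0 β u) = α ^ i * β ^ j * co i j u := by
  induction u using MvPolynomial.induction_on' with
  | add p q hp hq => rw [map_add, co_add, co_add, hp, hq, mul_add]
  | monomial m r =>
    have : lin α 0 0 β (monomial m r) = C (α ^ m 0 * β ^ m 1 * r) * (X 0 ^ m 0 * X 1 ^ m 1) := by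
      rw [monomial_eq2, map_mul, map_mul, map_pow, map_pow, lin_C, lin_X0, lin_X1]
      simp only [lf, map_zero, map_mul, map_pow]; ring
    rw [this, monomial_eq2, co_C_mul, co_C_mul, co_mon]
    split_ifs with h
    · rw [h.1, h.2]; ring
    · simp

theorem eval_lin (a b c e : A) (z : Fin 2 → A) (u : R2 A) :
    eval z (lin a b c e u) = eval ![a * z 0 + b * z 1, c * z 0 + e * z 1] u := by
  induction u using MvPolynomial.induction_on with
  | C r => simp
  | add p q hp hq => simp only [map_add, hp, hq]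
  | mul_X p j hp =>
    rw [map_mul, map_mul, map_mul, hp]
    fin_cases j
    · simp [lin_X0, lf]
    · simp [lin_X1, lf]

theorem eval_01 {n : ℕ} {u : R2 A} (hu : u.IsHomogeneous n) : eval ![0, 1] u = co 0 n u := by
  conv_lhs => rw [hom_eq_sum hu]
  rw [map_sum, Finset.sum_eq_single n]
  · simp
  · intro j hj hn
    have := Finset.mem_range.1 hj
    simp [zero_pow (show n - j ≠ 0 by omega)]
  · simp

theorem co_X0_if (i j : ℕ) (u : R2 A) : co i j (X 0 * u) = if i = 0 then 0 else co (i - 1) j u := by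
  cases i with
  | zero => simp [co_X0']
  | succ i => simp [co_X0]

theorem co_X1_if (i j : ℕ) (u : R2 A) : co i j (X 1 * u) = if j = 0 then 0 else co i (j - 1) u := by
  cases j with
  | zero => simp [co_X1']
  | succ j => simp [co_X1]

/-- The six forms. -/
noncomputable def six (F : R2 A) : Fin 6 → R2 A :=
  ![X 0 * pderiv 0 (pderiv 0 F), X 1 * pderiv 0 (pderiv 0 F), X 0 * pderiv 0 (pderiv 1 F),
    X 1 * pderiv 0 (pderiv 1 F), X 0 * pderiv 1 (pderiv 1 F), X 1 * pderiv 1 (pderiv 1 F)]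

noncomputable def sixM (n : ℕ) (F : R2 A) : Matrix (Fin 6) (Fin 6) A :=
  fun i l => co (n + 5 - i) i (six F l)

theorem sixM_map {B : Type*} [CommRing B] (φ : A →+* B) (n : ℕ) (F : R2 A) :
    (sixM n (map φ F)).det = φ (sixM n F).det := by
  rw [RingHom.map_det]
  congr 1
  ext i l
  simp only [sixM, RingHom.mapMatrix_apply, Matrix.map_apply, ← co_map]
  congr 1
  fin_cases l <;> simp [six, pderiv_map]

end

theorem sixM_test (n : ℕ) {T : R2 ℚ}
    (hT : ∀ i j, co i j T = if i + j = n + 6 ∧ (j = 0 ∨ j = 3 ∨ j = 6) then 1 else 0) :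
    (sixM n T).det ≠ 0 := by
  intro h
  obtain ⟨v, hv, hz⟩ := Matrix.exists_mulVec_eq_zero_iff.2 h
  have r0 := congrFun hz 0
  have r1 := congrFun hz 1
  have r2 := congrFun hz 2
  have r3 := congrFun hz 3
  have r4 := congrFun hz 4
  have r5 := congrFun hz 5
  simp [Matrix.mulVec, dotProduct, Fin.sum_univ_six, sixM, six, co_X0_if, co_X1_if, co_x, co_y, hT,
    add_assoc] at r0 r1 r2 r3 r4 r5
  have hn : (0 : ℚ) ≤ n := by positivity
  have r5' : 6 * (n : ℚ) * v 2 + 30 * v 5 = 0 := by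
    rcases Nat.eq_zero_or_pos n with rfl | hp
    · rw [if_pos rfl] at r5; push_cast; linear_combination r5
    · obtain ⟨m, rfl⟩ : ∃ m, n = m + 1 := ⟨n - 1, by omega⟩
      rw [if_neg (by omega), if_pos (by omega), Nat.add_sub_cancel] at r5
      push_cast; linear_combination r5
  have v0 : v 0 = 0 := r0.resolve_left (by rintro (h | h) <;> linarith)
  have v3 : v 3 = 0 := by
    rw [v0] at r3
    exact (mul_eq_zero.1 (show (3 * ((n : ℚ) + 3)) * v 3 = 0 by linear_combination r3)).resolve_left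
      (by positivity)
  have v1 : v 1 = 0 :=
    (mul_eq_zero.1 (show (4 * (n : ℚ) ^ 2 + 50 * n + 144) * v 1 = 0 by
      linear_combination 5 * r1 - r4)).resolve_left (by positivity)
  have v4 : v 4 = 0 := by rw [v1] at r1; linarith
  have v2 : v 2 = 0 :=
    (mul_eq_zero.1 (show (9 * (n : ℚ) + 45) * v 2 = 0 by
      linear_combination 5 * r2 - r5')).resolve_left (by positivity)
  have v5 : v 5 = 0 := by rw [v2] at r5'; linarith
  apply hv
  ext i
  fin_cases i <;> assumption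

variable {k : Type*} [Field k] [CharZero k]

theorem no_fewer {ι κ : Type} [Fintype ι] [Fintype κ] {a : ι → k} (ha : AlgebraicIndependent ℚ a)
    (g : κ → k) (h : Fintype.card κ < Fintype.card ι)
    (hm : ∀ i, a i ∈ (aeval g : MvPolynomial κ ℚ →ₐ[ℚ] k).range) : False := by
  choose p hp using hm
  have : AlgebraicIndependent ℚ p :=
    AlgebraicIndependent.of_comp (aeval g) (by convert ha using 1; exact funext hp)
  have h1 := this.cardinalMk_le_trdeg
  rw [MvPolynomial.trdeg_of_isDomain, Cardinal.lift_id, Cardinal.mk_fintype, Cardinal.mk_fintype,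
    Nat.cast_le] at h1
  omega

/-- The coefficients of the form are algebraically independent. -/
def IndF (d : ℕ) (F : R2 k) : Prop :=
  F.IsHomogeneous d ∧ AlgebraicIndependent ℚ fun j : Fin (d + 1) => co (d - j) j F

theorem no_param {d : ℕ} {F G : R2 k} (hF : IndF d F) (g : Fin d → k) (hG : G.IsHomogeneous d)
    (hc : ∀ j ≤ d, co (d - j) j G ∈ (aeval g : MvPolynomial (Fin d) ℚ →ₐ[ℚ] k).range) {a b c e : k}
    (ha : a ∈ (aeval g : MvPolynomial (Fin d) ℚ →ₐ[ℚ] k).range)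
    (hb : b ∈ (aeval g : MvPolynomial (Fin d) ℚ →ₐ[ℚ] k).range)
    (hc' : c ∈ (aeval g : MvPolynomial (Fin d) ℚ →ₐ[ℚ] k).range)
    (he : e ∈ (aeval g : MvPolynomial (Fin d) ℚ →ₐ[ℚ] k).range) (h : F = lin a b c e G) : False := by
  set B := (aeval g : MvPolynomial (Fin d) ℚ →ₐ[ℚ] k).range with hB
  refine no_fewer hF.2 g (by simp) fun j => ?_
  let G0 : R2 B := ∑ j ∈ Finset.range (d + 1),
    C (if h : j ≤ d then ⟨co (d - j) j G, hc j h⟩ else 0) * (X 0 ^ (d - j) * X 1 ^ j)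
  have e0 : G = map B.val.toRingHom G0 := by
    conv_lhs => rw [hom_eq_sum hG]
    simp only [G0, map_sum, map_mul, map_pow, map_X, map_C]
    refine Finset.sum_congr rfl fun j hj => ?_
    rw [dif_pos (by have := Finset.mem_range.1 hj; omega)]
    rfl
  have := map_lin (a := (⟨a, ha⟩ : B)) (b := ⟨b, hb⟩) (c := ⟨c, hc'⟩) (e := ⟨e, he⟩)
    B.val.toRingHom G0
  rw [← e0] at this
  change _ = lin a b c e G at this
  rw [h, ← this, co_map]
  exact Subtype.property _

theorem gen_mem {d : ℕ} (g : Fin d → k) (j : Fin d) :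
    g j ∈ (aeval g : MvPolynomial (Fin d) ℚ →ₐ[ℚ] k).range := ⟨X j, by simp⟩

theorem IndF.map {K : Type*} [Field K] [CharZero K] (φ : k →+* K) {d : ℕ} {F : R2 k}
    (hF : IndF d F) : IndF d (map φ F) :=
  ⟨hF.1.map φ, by
    simp only [co_map]
    exact hF.2.map' (f := φ.toRatAlgHom) φ.injective⟩

theorem IndF.no_sing {d : ℕ} {F : R2 k} (hF : IndF (d + 2) F) (z : Fin 2 → k)
    (h0 : eval z (pderiv 0 F) = 0) (h1 : eval z (pderiv 1 F) = 0) : z 0 = 0 ∧ z 1 = 0 := by
  have key : ∀ a c : k, ∀ G, G = lin a (z 0) c (z 1) F → co 0 (d + 2) G = 0 ∧ co 1 (d + 1) G = 0 := by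
    rintro a c G rfl
    have hz : (![a * 0 + z 0 * 1, c * 0 + z 1 * 1] : Fin 2 → k) = z := by
      ext i; fin_cases i <;> simp
    have e0 : eval ![0, 1] (lin a (z 0) c (z 1) (pderiv 0 F)) = 0 := by
      rw [eval_lin]; simp only [Matrix.cons_val_zero, Matrix.cons_val_one]; rw [hz, h0]
    have e1 : eval ![0, 1] (lin a (z 0) c (z 1) (pderiv 1 F)) = 0 := by
      rw [eval_lin]; simp only [Matrix.cons_val_zero, Matrix.cons_val_one]; rw [hz, h1]
    have hx := eval_01 (hom_pderiv 0 (lin_hom (a := a) (b := z 0) (c := c) (e := z 1) hF.1))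
    have hy := eval_01 (hom_pderiv 1 (lin_hom (a := a) (b := z 0) (c := c) (e := z 1) hF.1))
    rw [co_x, lin_x] at hx
    rw [co_y, lin_y] at hy
    simp only [map_add, map_mul, e0, e1, mul_zero, add_zero] at hx hy
    exact ⟨(mul_eq_zero.1 hy.symm).resolve_right (Nat.cast_add_one_ne_zero _),
      by simpa using hx.symm⟩
  have fin : ∀ (G : R2 k) (ρ : k), G.IsHomogeneous (d + 2) → co 0 (d + 2) G = 0 →
      co 1 (d + 1) G = 0 → ∀ a b c e : k, (a = 0 ∨ a = 1) → (b = ρ ∨ b = 1) → (c = 0 ∨ c = 1) →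
      (e = 0 ∨ e = 1) → F = lin a b c e G → False := fun G ρ hG c0 c1 a b c e ha hb hc he h => by
    let g : Fin (d + 2) → k := fun j => if (j : ℕ) = d + 1 then ρ else co (d + 2 - j) j G
    have hρ := gen_mem g ⟨d + 1, by omega⟩
    simp only [g, if_true] at hρ
    refine no_param hF g hG (fun j hj => ?_) (by rcases ha with rfl | rfl; exacts [zero_mem _, one_mem _])
      (by rcases hb with rfl | rfl; exacts [hρ, one_mem _])
      (by rcases hc with rfl | rfl; exacts [zero_mem _, one_mem _])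
      (by rcases he with rfl | rfl; exacts [zero_mem _, one_mem _]) h
    by_cases h2 : j = d + 2
    · rw [h2, Nat.sub_self, c0]; exact zero_mem _
    by_cases h3 : j = d + 1
    · rw [h3, show d + 2 - (d + 1) = 1 by omega, c1]; exact zero_mem _
    have := gen_mem g ⟨j, by omega⟩
    simpa only [g, if_neg h3] using this
  by_cases hz1 : z 1 = 0
  · refine ⟨by_contra fun hz0 => ?_, hz1⟩
    obtain ⟨c0, c1⟩ := key 0 1 _ rfl
    refine fin (lin 1 0 0 (z 0)⁻¹ (lin 0 (z 0) 1 (z 1) F)) 0 (lin_hom (lin_hom hF.1))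
      (by rw [co_scale, c0, mul_zero]) (by rw [co_scale, c1, mul_zero]) 0 1 1 0 (.inl rfl) (.inr rfl)
      (.inr rfl) (.inl rfl) ?_
    rw [lin_lin, lin_lin]
    simp [hz0, hz1, lin_id]
  · exfalso
    obtain ⟨c0, c1⟩ := key 1 0 _ rfl
    refine fin (lin 1 0 0 (z 1)⁻¹ (lin 1 (z 0) 0 (z 1) F)) (-(z 0 / z 1)) (lin_hom (lin_hom hF.1))
      (by rw [co_scale, c0, mul_zero]) (by rw [co_scale, c1, mul_zero]) 1 _ 0 1 (.inr rfl) (.inl rfl)
      (.inl rfl) (.inr rfl) ?_
    rw [lin_lin, lin_lin]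
    simp [hz1, lin_id, div_eq_mul_inv]

theorem IndF.ci {d : ℕ} {F : R2 k} (hF : IndF (d + 2) F) : CI (pderiv 0 F) (pderiv 1 F) := by
  let K := AlgebraicClosure k
  have key : ∀ i, (X i : R2 k) ∈ (Ideal.span {pderiv 0 F, pderiv 1 F}).radical := fun i => by
    rw [← vanishingIdeal_zeroLocus_eq_radical (K := K)]
    intro z hz
    have := (hF.map (algebraMap k K)).no_sing z
      (by rw [pderiv_map, ← aeval_eq_eval, aeval_map_algebraMap]
          exact hz _ (Ideal.subset_span (by simp)))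
      (by rw [pderiv_map, ← aeval_eq_eval, aeval_map_algebraMap]
          exact hz _ (Ideal.subset_span (by simp)))
    fin_cases i
    · simpa using this.1
    · simpa using this.2
  obtain ⟨a, ha⟩ := key 0
  obtain ⟨b, hb⟩ := key 1
  exact ⟨a + b, by rw [pow_add]; exact Ideal.mul_mem_right _ _ ha,
    by rw [pow_add]; exact Ideal.mul_mem_left _ _ hb⟩

theorem IndF.six {n : ℕ} {F : R2 k} (hF : IndF (n + 6) F) : Six F := by
  let U : R2 (MvPolynomial (Fin (n + 7)) ℚ) := ∑ j ∈ Finset.range (n + 6 + 1),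
    C (if h : j < n + 7 then X ⟨j, h⟩ else 0) * (X 0 ^ (n + 6 - j) * X 1 ^ j)
  let θ : MvPolynomial (Fin (n + 7)) ℚ →ₐ[ℚ] k := aeval fun j : Fin (n + 6 + 1) => co (n + 6 - j) j F
  let τ : MvPolynomial (Fin (n + 7)) ℚ →ₐ[ℚ] ℚ :=
    aeval fun j => if (j : ℕ) = 0 ∨ (j : ℕ) = 3 ∨ (j : ℕ) = 6 then 1 else 0
  have hU : MvPolynomial.map θ.toRingHom U = F := by
    refine co_ext fun i j => ?_
    rw [co_map, co_sum_mon]
    split_ifs with h h'
    · simp [θ, show n + 6 - j = i by omega]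
    · omega
    · rw [map_zero, co_hom hF.1 h]
  have hT := sixM_test n (T := MvPolynomial.map τ.toRingHom U) fun i j => by
    rw [co_map, co_sum_mon]
    by_cases h : i + j = n + 6
    · rw [if_pos h, dif_pos (by omega)]; simp [τ, h]
    · simp [h]
  rw [sixM_map] at hT
  have hD : (sixM n F).det ≠ 0 := by
    rw [← hU, sixM_map]
    intro h
    have : (sixM n U).det = 0 := hF.2 (h.trans (map_zero θ).symm)
    exact hT (by rw [this, map_zero])
  intro a1 a2 b1 b2 c1 c2 hz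
  have : (![a1, a2, b1, b2, c1, c2] : Fin 6 → k) = 0 := by
    by_contra hv
    refine hD (Matrix.exists_mulVec_eq_zero_iff.1 ⟨_, hv, ?_⟩)
    ext i
    have := congrArg (co (n + 5 - i) i) hz
    simp only [lf, add_mul, mul_assoc, co_add, co_C_mul, co_zero] at this
    simp [Matrix.mulVec, dotProduct, Fin.sum_univ_six, sixM, HC.six]
    linear_combination this
  exact ⟨congrFun this 0, congrFun this 1, congrFun this 2, congrFun this 3, congrFun this 4,
    congrFun this 5⟩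

omit [CharZero k] in
theorem norm_pair (a b : k) : ∃ α ρ a' b' : k, a = α * a' ∧ b = α * b' ∧ (a' = 0 ∨ a' = 1) ∧
    (b' = ρ ∨ b' = 1) := by
  by_cases h : a = 0
  · exact ⟨b, 0, 0, 1, by simp [h], by simp, .inl rfl, .inr rfl⟩
  · exact ⟨a, b / a, 1, b / a, by simp, by field_simp, .inr rfl, .inl rfl⟩

theorem IndF.genF {n : ℕ} {F : R2 k} (hF : IndF (n + 6) F) : GenF n F := by
  refine ⟨hF.1, hF.ci, hF.six, fun a b c e h ⟨h1, h3, h5⟩ => ?_⟩
  obtain ⟨α, ρ, a1, b1, ea, eb, ha, hb⟩ := norm_pair e (-b)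
  obtain ⟨β, σ, c1, e1, ec, ee, hc, he⟩ := norm_pair (-c) a
  let G := lin α 0 0 β (lin a b c e F)
  let g : Fin (n + 6) → k := fun j => if (j : ℕ) = 1 then ρ else if (j : ℕ) = 3 then σ else
    if (j : ℕ) = 5 then co 0 (n + 6) G else co (n + 6 - j) j G
  have hρ : ρ ∈ _ := gen_mem g ⟨1, by omega⟩
  have hσ : σ ∈ _ := gen_mem g ⟨3, by omega⟩
  have hl : co 0 (n + 6) G ∈ _ := gen_mem g ⟨5, by omega⟩
  refine no_param hF g (G := G) (lin_hom (lin_hom hF.1)) (fun j hj => ?_) (a := a1) (b := b1)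
    (c := c1) (e := e1) (by rcases ha with rfl | rfl; exacts [zero_mem _, one_mem _])
    (by rcases hb with rfl | rfl; exacts [hρ, one_mem _])
    (by rcases hc with rfl | rfl; exacts [zero_mem _, one_mem _])
    (by rcases he with rfl | rfl; exacts [hσ, one_mem _]) ?_
  · by_cases j1 : j = 1
    · rw [j1, co_scale, show n + 6 - 1 = n + 5 by omega, h1, mul_zero]; exact zero_mem _
    by_cases j3 : j = 3
    · rw [j3, co_scale, show n + 6 - 3 = n + 3 by omega, h3, mul_zero]; exact zero_mem _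
    by_cases j5 : j = 5
    · rw [j5, co_scale, show n + 6 - 5 = n + 1 by omega, h5, mul_zero]; exact zero_mem _
    by_cases j6 : j = n + 6
    · rw [j6, Nat.sub_self]; exact hl
    have := gen_mem g ⟨j, by omega⟩
    simpa only [g, if_neg j1, if_neg j3, if_neg j5] using this
  · rw [lin_lin]
    simp only [zero_mul, add_zero, zero_add]
    rw [← ea, ← eb, ← ec, ← ee, inv_lin h]

end Pool.Agent.MP_05b4bd_ag.HC

end MrgPart3

-- ======== part 4: formerly Pool.Agent.MP_05b4bd_ag.hc.Alg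
section MrgPart4

/-! The four homogeneous equations have only the trivial solution for a generic form. -/

namespace Pool.Agent.MP_05b4bd_ag.HC

open MvPolynomial

variable {k : Type*} [Field k]

/-- The system of homogeneous equations. -/
structure Sys (F P Q H2 H3 H4 : R2 k) (κ p σ : k) : Prop where
  h3 : H3.IsHomogeneous 3
  h4 : H4.IsHomogeneous 4
  e1 : pderiv 0 P + pderiv 1 Q = C κ * pderiv 1 F
  e2 : C p * X 0 * pderiv 1 F - P = C σ * br H2 F
  e3 : br H3 F + vf P Q H2 + C p * X 0 * br H2 F = 0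
  e4 : br H4 F + vf P Q H3 + C p * X 0 * br H3 F + C p * X 0 * vf P Q H2 = 0

theorem hom3_eq {u : R2 k} (hu : u.IsHomogeneous 3) :
    u = C (co 3 0 u) * X 0 ^ 3 + C (co 2 1 u) * (X 0 ^ 2 * X 1) + C (co 1 2 u) * (X 0 * X 1 ^ 2) +
      C (co 0 3 u) * X 1 ^ 3 := by
  conv_lhs => rw [hom_eq_sum hu]
  simp [Finset.sum_range_succ]

theorem hom3_d {u : R2 k} (hu : u.IsHomogeneous 3) : ∃ h0 h1 h2 h3 : k,
    pderiv 0 u = 3 * C h0 * X 0 ^ 2 + 2 * C h1 * X 0 * X 1 + C h2 * X 1 ^ 2 ∧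
    pderiv 1 u = C h1 * X 0 ^ 2 + 2 * C h2 * X 0 * X 1 + 3 * C h3 * X 1 ^ 2 := by
  refine ⟨co 3 0 u, co 2 1 u, co 1 2 u, co 0 3 u, ?_, ?_⟩
  · rw [hom2_eq (hom_pderiv 0 hu)]
    simp only [co_x, map_mul, map_add, map_natCast, map_one]
    norm_num; ring
  · rw [hom2_eq (hom_pderiv 1 hu)]
    simp only [co_y, map_mul, map_add, map_natCast, map_one]
    norm_num; ring

theorem hom4_d {u : R2 k} (hu : u.IsHomogeneous 4) : ∃ t0 t1 t2 t3 t4 : k,
    pderiv 0 u = 4 * C t0 * X 0 ^ 3 + 3 * C t1 * X 0 ^ 2 * X 1 + 2 * C t2 * X 0 * X 1 ^ 2 +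
      C t3 * X 1 ^ 3 ∧
    pderiv 1 u = C t1 * X 0 ^ 3 + 2 * C t2 * X 0 ^ 2 * X 1 + 3 * C t3 * X 0 * X 1 ^ 2 +
      4 * C t4 * X 1 ^ 3 := by
  refine ⟨co 4 0 u, co 3 1 u, co 2 2 u, co 1 3 u, co 0 4 u, ?_, ?_⟩
  · rw [hom3_eq (hom_pderiv 0 hu)]
    simp only [co_x, map_mul, map_add, map_natCast, map_one]
    norm_num; ring
  · rw [hom3_eq (hom_pderiv 1 hu)]
    simp only [co_y, map_mul, map_add, map_natCast, map_one]
    norm_num; ring

theorem quart_zero {a0 a1 a2 a3 a4 : k} (h : (C a0 * (X 0 ^ 4 * X 1 ^ 0) + C a1 * (X 0 ^ 3 * X 1 ^ 1) +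
    C a2 * (X 0 ^ 2 * X 1 ^ 2) + C a3 * (X 0 ^ 1 * X 1 ^ 3) + C a4 * (X 0 ^ 0 * X 1 ^ 4) : R2 k) = 0) :
    a0 = 0 ∧ a1 = 0 ∧ a2 = 0 ∧ a3 = 0 ∧ a4 = 0 := by
  have h0 := congrArg (co 4 0) h
  have h1 := congrArg (co 3 1) h
  have h2 := congrArg (co 2 2) h
  have h3 := congrArg (co 1 3) h
  have h4 := congrArg (co 0 4) h
  simp only [co_add, co_C_mul, co_mon, co_zero] at h0 h1 h2 h3 h4
  norm_num at h0 h1 h2 h3 h4
  exact ⟨h0, h1, h2, h3, h4⟩

theorem GenF.syz {n : ℕ} {F U V : R2 k} (H : GenF n F) (hU : U.IsHomogeneous 4)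
    (hV : V.IsHomogeneous 4) (h : U * pderiv 0 F + V * pderiv 1 F = 0) : U = 0 ∧ V = 0 := by
  have hx := hom_pderiv 0 H.1
  have hy := hom_pderiv 1 H.1
  exact kos_zero (e := n + 4) (k := 5) (DL.of_hom hx) (DL.of_hom hy)
    (by rw [hc_self hx, hc_self hy]; exact H.2.1) (by omega) (DL.of_hom hU) (DL.of_hom hV) h

theorem Sys.ab {n : ℕ} {F P Q H2 H3 H4 L M : R2 k} {κ p σ : k} (H : GenF n F)
    (S : Sys F P Q H2 H3 H4 κ p σ) (hL : pderiv 1 H2 = L) (hM : pderiv 0 H2 = M)
    (l1 : L.IsHomogeneous 1) (m1 : M.IsHomogeneous 1) :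
    P = (C p * X 0 - C σ * M) * pderiv 1 F + C σ * L * pderiv 0 F ∧
    L * Q = pderiv 0 F * (pderiv 1 H3 + C p * X 0 * L - C σ * L * M) -
      pderiv 1 F * (pderiv 0 H3 + 2 * C p * X 0 * M - C σ * M * M) ∧
    L * pderiv 1 H4 = C σ * (L * L * pderiv 0 H3) +
      pderiv 1 H3 * (pderiv 1 H3 + C p * (X 0 * L) - C σ * (L * M)) +
      C (p * p) * (X 0 * X 0 * L * L) ∧
    L * pderiv 0 H4 = -(L * (C p * X 0 - C σ * M) * pderiv 0 H3) +
      pderiv 1 H3 * (pderiv 0 H3 + C (2 * p) * (X 0 * M) - C σ * (M * M)) +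
      C (p * p) * (X 0 * X 0 * L * M) := by
  have e2 := S.e2
  have e3 := S.e3
  have e4 := S.e4
  simp only [br, vf, hL, hM] at e2 e3 e4
  have hP : P = (C p * X 0 - C σ * M) * pderiv 1 F + C σ * L * pderiv 0 F := by
    linear_combination -e2
  have hQ : L * Q = pderiv 0 F * (pderiv 1 H3 + C p * X 0 * L - C σ * L * M) -
      pderiv 1 F * (pderiv 0 H3 + 2 * C p * X 0 * M - C σ * M * M) := by
    linear_combination e3 - M * hP
  have x1 := isHomogeneous_X k (0 : Fin 2)
  have a2 := hom_pderiv 0 S.h3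
  have b2 := hom_pderiv 1 S.h3
  have := H.syz (U := C σ * (L * L * pderiv 0 H3) +
      pderiv 1 H3 * (pderiv 1 H3 + C p * (X 0 * L) - C σ * (L * M)) +
      C (p * p) * (X 0 * X 0 * L * L) - L * pderiv 1 H4)
    (V := L * pderiv 0 H4 - (-(L * (C p * X 0 - C σ * M) * pderiv 0 H3) +
      pderiv 1 H3 * (pderiv 0 H3 + C (2 * p) * (X 0 * M) - C σ * (M * M)) +
      C (p * p) * (X 0 * X 0 * L * M)))
    ((((((l1.mul l1).mul a2).C_mul _).add
      (b2.mul ((b2.add ((x1.mul l1).C_mul _)).sub ((l1.mul m1).C_mul _)))).add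
      ((((x1.mul x1).mul l1).mul l1).C_mul _)).sub (l1.mul (hom_pderiv 1 S.h4)))
    ((l1.mul (hom_pderiv 0 S.h4)).sub (((((l1.mul ((x1.C_mul _).sub (m1.C_mul _))).mul a2).neg).add
      (b2.mul ((a2.add ((x1.mul m1).C_mul _)).sub ((m1.mul m1).C_mul _)))).add
      ((((x1.mul x1).mul l1).mul m1).C_mul _)))
    (by
      simp only [map_mul, map_ofNat]
      linear_combination L * e4 - C p * X 0 * L * e3 - L * pderiv 0 H3 * hP - pderiv 1 H3 * hQ)
  exact ⟨hP, hQ, (sub_eq_zero.1 this.1).symm, sub_eq_zero.1 this.2⟩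

variable [CharZero k]

theorem Sys.formI {n : ℕ} {F P Q H2 H3 H4 : R2 k} {κ p σ c : k} (H : GenF n F)
    (S : Sys F P Q H2 H3 H4 κ p σ) (hL : pderiv 1 H2 = X 1) (hM : pderiv 0 H2 = C c * X 0) :
    P = 0 ∧ Q = 0 ∧ p = 0 := by
  obtain ⟨hP, hQ, hA, hB⟩ := S.ab H hL hM (isHomogeneous_X k 1) (isHomogeneous_C_mul_X c 0)
  obtain ⟨h0, h1, h2, h3, ex, ey⟩ := hom3_d S.h3
  obtain ⟨t0, t1, t2, t3, t4, fx, fy⟩ := hom4_d S.h4
  rw [ex, ey] at hA hB hQ
  rw [fy] at hA
  rw [fx] at hB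
  obtain ⟨a0, a1, a2, a3, -⟩ := quart_zero (a0 := -(h1 * h1)) (a1 := t1 - h1 * (4 * h2 + (p - σ * c)))
    (a2 := 2 * t2 - (3 * σ * h0 + 6 * h1 * h3 + 2 * h2 * (2 * h2 + (p - σ * c)) + p * p))
    (a3 := 3 * t3 - (2 * σ * h1 + 3 * h3 * (4 * h2 + (p - σ * c))))
    (a4 := 4 * t4 - (σ * h2 + 9 * h3 * h3))
    (by simp only [map_mul, map_add, map_sub, map_neg, map_ofNat] at hA ⊢; linear_combination hA)
  obtain ⟨-, -, b2, b3, b4⟩ := quart_zero (a0 := -(h1 * (3 * h0 + 2 * p * c - σ * c * c)))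
    (a1 := 4 * t0 - (-(3 * (p - σ * c) * h0) + 2 * h1 * h1 +
      2 * h2 * (3 * h0 + 2 * p * c - σ * c * c) + p * p * c))
    (a2 := 3 * t1 - (-(2 * (p - σ * c) * h1) + 5 * h1 * h2 +
      3 * h3 * (3 * h0 + 2 * p * c - σ * c * c)))
    (a3 := 2 * t2 - (-((p - σ * c) * h2) + 2 * h2 * h2 + 6 * h1 * h3))
    (a4 := t3 - 3 * h2 * h3)
    (by simp only [map_mul, map_add, map_sub, map_neg, map_ofNat] at hB ⊢; linear_combination hB)
  obtain rfl : h1 = 0 := mul_self_eq_zero.1 (neg_eq_zero.1 a0)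
  set s0 := 3 * h0 + 2 * p * c - σ * c * c with hs0
  have hs : (C s0 : R2 k) = 3 * C h0 + 2 * C p * C c - C σ * C c * C c := by
    simp only [hs0, map_mul, map_add, map_sub, map_ofNat]
  have i1 : h3 * s0 = 0 := by linear_combination (1 / 3) * (3 * a1 - b2)
  have i2 : 3 * σ * h0 + 2 * h2 * h2 + 3 * (p - σ * c) * h2 + p * p = 0 := by
    linear_combination b3 - a2
  clear hA hB fx fy ex ey a0 a1 a2 a3 b2 b3 b4
  have e1 := S.e1
  have ux := euler (hom_pderiv 0 H.1)
  have uy := euler (hom_pderiv 1 H.1)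
  rw [pderiv_comm] at ux
  have hD : ((n + 5 : ℕ) : k) ≠ 0 := Nat.cast_ne_zero.2 (by omega)
  by_cases h : s0 = 0
  · have hQ' : Q = ((C (2 * h2) + C p - C σ * C c) * X 0 + C (3 * h3) * X 1) * pderiv 0 F -
        C h2 * X 1 * pderiv 1 F := by
      apply mul_left_cancel₀ (X_ne_zero (R := k) (1 : Fin 2))
      rw [h] at hs
      simp only [map_mul, map_ofNat, map_zero] at hs hQ ⊢
      linear_combination hQ + pderiv 1 F * X 0 ^ 2 * hs
    rw [hP, hQ'] at e1
    simp only [map_add, map_sub, pderiv_mul, pderiv_C, pderiv_X_self, pderiv_comm,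
      pderiv_X_of_ne (show (0 : Fin 2) ≠ 1 by decide),
      pderiv_X_of_ne (show (1 : Fin 2) ≠ 0 by decide)] at e1
    obtain ⟨s1, s2, s3, -, -, s6⟩ := H.2.2.1 (3 * h3) ((n + 5 : ℕ) * σ)
      ((n + 5 : ℕ) * (2 * h2 + 2 * (p - σ * c)) + (p - σ * c - h2 - κ))
      (3 * h3 + (n + 5 : ℕ) * (3 * h3)) 0 (p - σ * c - h2 - κ - (n + 5 : ℕ) * h2)
      (by
        simp only [lf, map_mul, map_add, map_sub, map_ofNat, map_natCast, map_zero] at e1 ⊢
        linear_combination ((n + 5 : ℕ) : R2 k) * e1 + 3 * C h3 * ux +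
          (C p - C σ * C c - C h2 - C κ) * uy)
    obtain rfl : h3 = 0 := by linear_combination (1 / 3) * s1
    obtain rfl : σ = 0 := (mul_eq_zero.1 s2).resolve_left hD
    have j1 : 3 * h2 + 2 * p = 0 :=
      (mul_eq_zero.1 (show ((n + 5 : ℕ) : k) * (3 * h2 + 2 * p) = 0 by
        linear_combination s3 - s6)).resolve_left hD
    obtain rfl : h2 = 0 := mul_self_eq_zero.1 (by
      linear_combination (-4) * i2 + (3 * h2 + 2 * p) * j1)
    obtain rfl : p = 0 := by linear_combination (1 / 2) * j1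
    simp [hP, hQ']
  · exfalso
    obtain rfl : h3 = 0 := (mul_eq_zero.1 i1).resolve_right h
    have hW : X 1 * Q = (C (2 * h2) + C p - C σ * C c) * X 0 * X 1 * pderiv 0 F -
        (C s0 * (X 0 * X 0) + C h2 * (X 1 * X 1)) * pderiv 1 F := by
      simp only [map_mul, map_ofNat, map_zero] at hQ ⊢
      linear_combination hQ + pderiv 1 F * X 0 ^ 2 * hs
    have hW' := congrArg (pderiv 1) hW
    rw [hP] at e1
    simp only [map_add, map_sub, pderiv_mul, pderiv_C, pderiv_X_self, pderiv_comm,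
      pderiv_X_of_ne (show (0 : Fin 2) ≠ 1 by decide),
      pderiv_X_of_ne (show (1 : Fin 2) ≠ 0 by decide)] at e1 hW'
    have ode : X 1 * (X 1 * (C (p - σ * c - h2 - κ) * pderiv 1 F +
        C (2 * h2 + 2 * (p - σ * c)) * (X 0 * pderiv 0 (pderiv 1 F)) +
        C σ * (X 1 * pderiv 0 (pderiv 0 F)) - C h2 * (X 1 * pderiv 1 (pderiv 1 F)))) =
        C s0 * (X 0 * (X 0 * (X 1 * pderiv 1 (pderiv 1 F) - pderiv 1 F))) := by
      simp only [map_mul, map_add, map_sub, map_ofNat] at hW hW' ⊢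
      linear_combination X 1 * X 1 * e1 - X 1 * hW' + hW
    have o1 := congrArg (co (n + 5 + 1 + 1) 0) ode
    have o3 := congrArg (co (n + 3 + 1 + 1) (0 + 1 + 1)) ode
    have o5 := congrArg (co (n + 1 + 1 + 1) (2 + 1 + 1)) ode
    simp only [co_X0, co_X1, co_X1', co_add, co_sub, co_C_mul, co_x, co_y] at o1 o3 o5
    have c1 : co (n + 5) 1 F = 0 := by simpa [h] using o1
    have c3 : co (n + 3) 3 F = 0 := by
      simp only [add_assoc] at o3
      norm_num [c1] at o3
      exact (mul_eq_zero.1 (show 3 * s0 * co (n + 3) 3 F = 0 by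
        rcases o3 with o3 | o3
        · exact absurd o3 h
        · linear_combination s0 * o3)).resolve_left (mul_ne_zero (by norm_num) h)
    have c5 : co (n + 1) 5 F = 0 := by
      have e : co (n + 1 + 1 + 1) (1 + 1) (X 1 * pderiv 0 (pderiv 0 F)) = 0 := by
        rw [co_X1, co_x, co_x]; simp [add_assoc, c1]
      simp only [add_assoc] at o5
      norm_num [c1, c3] at o5
      exact (mul_eq_zero.1 (show 15 * s0 * co (n + 1) 5 F = 0 by
        rcases o5 with o5 | o5
        · exact absurd o5 h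
        · linear_combination s0 * o5)).resolve_left (mul_ne_zero (by norm_num) h)
    exact H.2.2.2 1 0 0 1 (by ring) (by rw [lin_id]; exact ⟨c1, c3, c5⟩)

theorem Sys.formII {n : ℕ} {F P Q H2 H3 H4 : R2 k} {κ p σ : k} (H : GenF n F)
    (S : Sys F P Q H2 H3 H4 κ p σ) (hL : pderiv 1 H2 = X 0) (hM : pderiv 0 H2 = X 1) :
    P = 0 ∧ Q = 0 ∧ p = 0 := by
  obtain ⟨hP, hQ, hA, hB⟩ := S.ab H hL hM (isHomogeneous_X k 0) (isHomogeneous_X k 1)
  obtain ⟨h0, h1, h2, h3, ex, ey⟩ := hom3_d S.h3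
  obtain ⟨t0, t1, t2, t3, t4, fx, fy⟩ := hom4_d S.h4
  rw [ex, ey] at hA hB hQ
  rw [fy] at hA
  rw [fx] at hB
  obtain ⟨a0, -, a2, -, a4⟩ := quart_zero (a0 := t1 - (3 * σ * h0 + h1 * (h1 + p) + p * p))
    (a1 := 2 * t2 - (2 * σ * h1 + h1 * (2 * h2 - σ) + 2 * h2 * (h1 + p)))
    (a2 := 3 * t3 - (σ * h2 + 3 * h1 * h3 + 2 * h2 * (2 * h2 - σ) + 3 * h3 * (h1 + p)))
    (a3 := 4 * t4 - (6 * h2 * h3 + 3 * h3 * (2 * h2 - σ))) (a4 := -(9 * (h3 * h3)))
    (by simp only [map_mul, map_add, map_sub, map_neg, map_ofNat] at hA ⊢; linear_combination hA)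
  obtain ⟨-, b1, -, b3, -⟩ := quart_zero (a0 := 4 * t0 - (-(3 * p * h0) + 3 * h0 * h1))
    (a1 := 3 * t1 - (-(2 * p * h1) + 3 * σ * h0 + 2 * h1 * (h1 + p) + 6 * h0 * h2 + p * p))
    (a2 := 2 * t2 - (-(p * h2) + 2 * σ * h1 + h1 * (h2 - σ) + 4 * h2 * (h1 + p) + 9 * h0 * h3))
    (a3 := t3 - (σ * h2 + 2 * h2 * (h2 - σ) + 6 * h3 * (h1 + p))) (a4 := -(3 * h3 * (h2 - σ)))
    (by simp only [map_mul, map_add, map_sub, map_neg, map_ofNat] at hB ⊢; linear_combination hB)
  obtain rfl : h3 = 0 := mul_self_eq_zero.1 (by linear_combination (-1 / 9) * a4)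
  have i1 : 6 * σ * h0 + (h1 + p) * (h1 + 2 * p) = 6 * h0 * h2 := by
    linear_combination b1 - 3 * a0
  have i3 : h2 * (h2 - σ) = 0 := by linear_combination (1 / 2) * (a2 - 3 * b3)
  clear hA hB fx fy ex ey a0 a2 a4 b1 b3
  have e1 := S.e1
  have ux := euler (hom_pderiv 0 H.1)
  have uy := euler (hom_pderiv 1 H.1)
  rw [pderiv_comm] at ux
  have hD : ((n + 5 : ℕ) : k) ≠ 0 := Nat.cast_ne_zero.2 (by omega)
  by_cases h : h2 = σ
  · subst h
    have hQ' : Q = (C (h1 + p) * X 0 + C h2 * X 1) * pderiv 0 F -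
        (C (3 * h0) * X 0 + C (2 * (h1 + p)) * X 1) * pderiv 1 F := by
      apply mul_left_cancel₀ (X_ne_zero (R := k) (0 : Fin 2))
      simp only [map_mul, map_add, map_ofNat, map_zero] at hQ ⊢
      linear_combination hQ
    rw [hP, hQ'] at e1
    simp only [map_add (pderiv _), map_sub, pderiv_mul, pderiv_C, pderiv_X_self, pderiv_comm,
      pderiv_X_of_ne (show (0 : Fin 2) ≠ 1 by decide),
      pderiv_X_of_ne (show (1 : Fin 2) ≠ 0 by decide)] at e1
    obtain ⟨-, -, s3, s4, s5, s6⟩ := H.2.2.1 ((n + 5 : ℕ) * h2 + 2 * h2) 0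
      ((n + 5 : ℕ) * (h1 + 2 * p) + (-p - 2 * h1 - κ)) (2 * h2) (-((n + 5 : ℕ) * (3 * h0)))
      (-p - 2 * h1 - κ - (n + 5 : ℕ) * (2 * (h1 + p)))
      (by
        simp only [lf, map_mul, map_add, map_sub, map_neg, map_ofNat, map_natCast, map_zero] at e1 ⊢
        linear_combination ((n + 5 : ℕ) : R2 k) * e1 + 2 * C h2 * ux +
          (-C p - 2 * C h1 - C κ) * uy)
    obtain rfl : h2 = 0 := by linear_combination (1 / 2) * s4
    obtain rfl : h0 = 0 := by
      have := (mul_eq_zero.1 (neg_eq_zero.1 s5)).resolve_left hD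
      linear_combination (1 / 3) * this
    have j1 : 3 * h1 + 4 * p = 0 :=
      (mul_eq_zero.1 (show ((n + 5 : ℕ) : k) * (3 * h1 + 4 * p) = 0 by
        linear_combination s3 - s6)).resolve_left hD
    obtain rfl : p = 0 := mul_self_eq_zero.1 (by
      linear_combination (-9 / 2) * i1 + (1 / 2) * (3 * h1 + 5 * p) * j1)
    obtain rfl : h1 = 0 := by linear_combination (1 / 3) * j1
    simp [hP, hQ']
  · exfalso
    obtain rfl : h2 = 0 := (mul_eq_zero.1 i3).resolve_right (sub_ne_zero.2 h)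
    have hσ : σ ≠ 0 := fun e => h e.symm
    have hW : X 0 * Q = X 0 * (C (h1 + p) * X 0 - C σ * X 1) * pderiv 0 F -
        (C (3 * h0) * (X 0 * X 0) + C (2 * (h1 + p)) * (X 0 * X 1) - C σ * (X 1 * X 1)) *
          pderiv 1 F := by
      simp only [map_mul, map_add, map_ofNat, map_zero] at hQ ⊢
      linear_combination hQ
    have hW' := congrArg (pderiv 1) hW
    rw [hP] at e1
    simp only [map_add (pderiv _), map_sub, pderiv_mul, pderiv_C, pderiv_X_self, pderiv_comm,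
      pderiv_X_of_ne (show (0 : Fin 2) ≠ 1 by decide),
      pderiv_X_of_ne (show (1 : Fin 2) ≠ 0 by decide)] at e1 hW'
    have ode : C σ * (X 1 * (X 1 * pderiv 1 (pderiv 1 F))) + C (2 * σ) * (X 1 * pderiv 1 F) +
        X 0 * (C (-p - 2 * h1 - κ) * pderiv 1 F - C (2 * σ) * (X 1 * pderiv 0 (pderiv 1 F)) -
          C (2 * (h1 + p)) * (X 1 * pderiv 1 (pderiv 1 F)) +
          X 0 * (C σ * pderiv 0 (pderiv 0 F) + C (h1 + 2 * p) * pderiv 0 (pderiv 1 F) -
            C (3 * h0) * pderiv 1 (pderiv 1 F))) = 0 := by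
      simp only [map_mul, map_add, map_sub, map_neg, map_ofNat] at hW' ⊢
      linear_combination X 0 * e1 - hW'
    have o0 := congrArg (co 0 (n + 4 + 1 + 1)) ode
    have o1 := congrArg (co (0 + 1) (n + 3 + 1 + 1)) ode
    simp only [co_X0, co_X0', co_X1, co_add, co_sub, co_C_mul, co_x, co_y, co_zero] at o0 o1
    have n4 : (n : k) + 4 ≠ 0 := by exact_mod_cast (show n + 4 ≠ 0 by omega)
    have n5 : (n : k) + 5 ≠ 0 := by exact_mod_cast (show n + 5 ≠ 0 by omega)
    have n6 : (n : k) + 6 ≠ 0 := by exact_mod_cast (show n + 6 ≠ 0 by omega)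
    have n7 : (n : k) + 7 ≠ 0 := by exact_mod_cast (show n + 7 ≠ 0 by omega)
    have c0 : co 0 (n + 6) F = 0 :=
      (mul_eq_zero.1 (show σ * ((n + 6) * (n + 7)) * co 0 (n + 6) F = 0 by
        push_cast at o0
        linear_combination o0)).resolve_left (mul_ne_zero hσ (mul_ne_zero n6 n7))
    have c1 : co 1 (n + 5) F = 0 :=
      (mul_eq_zero.1 (show σ * ((n + 5) * (n + 4)) * co 1 (n + 5) F = 0 by
        rw [show co 0 (n + 3 + 1 + 1 + 1) F = 0 from c0] at o1
        push_cast at o1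
        linear_combination o1)).resolve_left (mul_ne_zero hσ (mul_ne_zero n5 n4))
    obtain ⟨M, -, hM1⟩ := H.2.1
    obtain ⟨s, t, e⟩ := Ideal.mem_span_pair.1 hM1
    have := congrArg (eval ![0, 1]) e
    rw [map_add, map_mul, map_mul, eval_01 (hom_pderiv 0 H.1), eval_01 (hom_pderiv 1 H.1), co_x, co_y,
      show co 0 (n + 5 + 1) F = 0 from c0, show co (0 + 1) (n + 5) F = 0 from c1] at this
    simp at this

omit [CharZero k] in
theorem Sys.scale {F P Q H2 H3 H4 : R2 k} {κ p σ : k} (S : Sys F P Q H2 H3 H4 κ p σ) {g : k}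
    (hg : g ≠ 0) : Sys F P Q (C g⁻¹ * H2) (C g⁻¹ * H3) (C g⁻¹ * H4) κ p (σ * g) := by
  have h : (C g * C g⁻¹ : R2 k) = 1 := by rw [← map_mul, mul_inv_cancel₀ hg, map_one]
  have e2 := S.e2
  have e3 := S.e3
  have e4 := S.e4
  refine ⟨S.h3.C_mul _, S.h4.C_mul _, S.e1, ?_, ?_, ?_⟩
  · simp only [br_eq_vf, vf_C_mul, map_mul] at e2 ⊢
    linear_combination e2 - C σ * vf (pderiv 1 F) (-pderiv 0 F) H2 * h
  · simp only [br_eq_vf, vf_C_mul] at e3 ⊢
    linear_combination C g⁻¹ * e3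
  · simp only [br_eq_vf, vf_C_mul] at e4 ⊢
    linear_combination C g⁻¹ * e4

omit [CharZero k] in
theorem Sys.shear {F P Q H2 H3 H4 : R2 k} {κ p σ : k} (S : Sys F P Q H2 H3 H4 κ p σ) (r : k) :
    Sys (lin 1 0 r 1 F) (lin 1 0 r 1 P) (lin 1 0 r 1 Q - C r * lin 1 0 r 1 P) (lin 1 0 r 1 H2)
      (lin 1 0 r 1 H3) (lin 1 0 r 1 H4) κ p σ := by
  have h : (1 : k) * 1 - 0 * r = 1 := by ring
  have t : Tr 1 0 r 1 (lin 1 0 r 1 P) (lin 1 0 r 1 Q - C r * lin 1 0 r 1 P) P Q :=
    ⟨by simp, by simp⟩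
  have hx : lin 1 0 r 1 (X 0) = X 0 := by simp [lin_X0, lf]
  have hy : pderiv 1 (lin 1 0 r 1 F) = lin 1 0 r 1 (pderiv 1 F) := by simp [lin_y]
  refine ⟨lin_hom S.h3, lin_hom S.h4, ?_, ?_, ?_, ?_⟩
  · rw [← t.div h, S.e1, map_mul, lin_C, hy]
  · have := congrArg (lin 1 0 r 1) S.e2
    simpa only [map_sub, map_mul, lin_C, hx, br_lin h, hy] using this
  · have := congrArg (lin 1 0 r 1) S.e3
    simpa only [map_add, map_mul, lin_C, hx, br_lin h, t.vf, map_zero] using this
  · have := congrArg (lin 1 0 r 1) S.e4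
    simpa only [map_add, map_mul, lin_C, hx, br_lin h, t.vf, map_zero] using this

/-- Lemma ALG. -/
theorem Sys.trivial {n : ℕ} {F P Q H3 H4 : R2 k} {κ p σ β γ : k} (H : GenF n F)
    (S : Sys F P Q (C β * (X 0 * X 1) + C γ * X 1 ^ 2) H3 H4 κ p σ) (h : β ≠ 0 ∨ γ ≠ 0) :
    P = 0 ∧ Q = 0 ∧ p = 0 := by
  by_cases hγ : γ = 0
  · have hβ := h.resolve_right (not_not.2 hγ)
    have e : (C β⁻¹ * C β : R2 k) = 1 := by rw [← map_mul, inv_mul_cancel₀ hβ, map_one]
    refine (S.scale hβ).formII H ?_ ?_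
    · simp [hγ, ← mul_assoc, e]
    · simp [hγ, ← mul_assoc, e]
  · have h2 : 2 * γ ≠ 0 := mul_ne_zero two_ne_zero hγ
    have hd : (1 : k) * 1 - 0 * (-(β / (2 * γ))) = 1 := by ring
    have e1 : (C (2 * γ)⁻¹ * (2 * C γ) : R2 k) = 1 := by
      rw [← map_ofNat C 2, ← map_mul, ← map_mul, inv_mul_cancel₀ h2, map_one]
    have e2 : (C (β / (2 * γ)) * (2 * C γ) : R2 k) = C β := by
      rw [← map_ofNat C 2, ← map_mul, ← map_mul, div_mul_cancel₀ _ h2]
    obtain ⟨h1, h3, h4⟩ := ((S.shear (-(β / (2 * γ)))).scale h2).formI (H.lin hd)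
      (c := -(β / (2 * γ) * (β / (2 * γ))))
      (by
        simp only [map_add, pderiv_mul, pderiv_pow, pderiv_C, pderiv_X_self, pderiv_one,
          pderiv_X_of_ne (show (0 : Fin 2) ≠ 1 by decide), map_mul, map_zero, map_one, lin_C,
          lin_X0, lin_X1, lf, map_neg, map_pow]
        linear_combination (X 1 : R2 k) * e1 - C (2 * γ)⁻¹ * X 0 * e2)
      (by
        simp only [map_add, pderiv_mul, pderiv_pow, pderiv_C, pderiv_X_self, pderiv_one,
          pderiv_X_of_ne (show (1 : Fin 2) ≠ 0 by decide), map_mul, map_zero, map_one, lin_C,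
          lin_X0, lin_X1, lf, map_neg, map_pow]
        linear_combination (-(C (β / (2 * γ)) * C (β / (2 * γ)) * X 0) : R2 k) * e1 +
          C (2 * γ)⁻¹ * (2 * C (β / (2 * γ)) * X 0 - X 1) * e2)
    rw [h1, mul_zero, sub_zero] at h3
    exact ⟨lin_inj hd (by rw [h1, map_zero]), lin_inj hd (by rw [h3, map_zero]), h4⟩

end Pool.Agent.MP_05b4bd_ag.HC

end MrgPart4

-- marker of a merged file
example : 731051 + 459596 = 731051 + 459596 := rfl
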