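import Pool.Agent.MP_05b4bd_ag.Defs
import Pool.Agent.MP_05b4bd_ag.Exp
import Pool.Agent.MP_05b4bd_ag.hc.Alg
import Mathlib.Analysis.Calculus.FDeriv.Symmetric
import Mathlib.Analysis.Calculus.FDeriv.Analytic
import Pool.Agent.MP_05b4bd_ag.esc.Defs
import Mathlib.LinearAlgebra.Dual.Lemmas
import Mathlib.RingTheory.Localization.FractionRing
import Mathlib.RingTheory.Localization.Integer
import Mathlib.RingTheory.Valuation.LocalSubring
import Mathlib.RingTheory.Localization.AtPrime.Basic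
import Mathlib.FieldTheory.IsAlgClosed.Basic
import Mathlib.RingTheory.Ideal.MinimalPrime.Noetherian
import Mathlib.Algebra.MvPolynomial.Funext
import Mathlib.FieldTheory.IsAlgClosed.AlgebraicClosure

-- ======== part 0: formerly Pool.Agent.MP_05b4bd_ag.hc.PDefs
section MrgPart0

/-! Pointed forms: a 1-form together with a point of the plane. -/

namespace Pool.Agent.MP_05b4bd_ag

open MvPolynomial

/-- A 1-form and a point of the plane. -/
abbrev PForm := Form × (Fin 2 → ℂ)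

/-- The coefficients of the form and the two coordinates of the point. -/
noncomputable def pco (w : PForm) : (Bool × (Fin 2 →₀ ℕ)) ⊕ Fin 2 → ℂ := Sum.elim (co w.1) w.2

/-- Zariski closure in these coordinates. -/
def pzcl (S : Set PForm) : Set PForm := pco ⁻¹' zeroLocus ℂ (vanishingIdeal ℂ (pco '' S))

/-- Zariski irreducible: the vanishing ideal is prime. -/
def PIrred (Z : Set PForm) : Prop := (vanishingIdeal ℂ (pco '' Z)).IsPrime

/-- Irreducible component: maximal irreducible subset. -/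
def IsPComponent (N Z : Set PForm) : Prop := Maximal (fun Y => Y ⊆ N ∧ PIrred Y) Z

/-- The pointed centre variety: closure of the pairs (foliation of degree `d`, centre of it). -/
def PM (d : ℕ) : Set PForm := pzcl {w | w.1 ∈ Fol d ∧ IsCenter w.1 w.2}

/-- Exact forms `dg`, `deg g ≤ d + 1`, with a singular point. -/
def PHam (d : ℕ) : Set PForm :=
  {w | eval w.2 w.1.1 = 0 ∧ eval w.2 w.1.2 = 0 ∧
    ∃ g : Poly, g.totalDegree ≤ d + 1 ∧ w.1 = dform g}

/-- Logarithmic forms `f1 df2 + l f2 df1`, `deg f1 ≤ 1`, `deg f2 ≤ d`, with a singular point off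
`f1 = 0`. -/
def PLog (d : ℕ) : Set PForm :=
  {w | eval w.2 w.1.1 = 0 ∧ eval w.2 w.1.2 = 0 ∧
    ∃ (f1 f2 : Poly) (l : ℂ), f1.totalDegree ≤ 1 ∧ f2.totalDegree ≤ d ∧ eval w.2 f1 ≠ 0 ∧
      w.1 = f1 • dform f2 + (C l * f2) • dform f1}

end Pool.Agent.MP_05b4bd_ag

end MrgPart0

-- ======== part 1: formerly Pool.Agent.MP_05b4bd_ag.hc.Key
section MrgPart1

-- ======== part 0: formerly Pool.Agent.MP_05b4bd_ag.hc.Ana
section MrgPart0

/-! An analytic centre has polynomial first integrals up to any order. -/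

namespace Pool.Agent.MP_05b4bd_ag.HC

open MvPolynomial Topology Filter

noncomputable def DD (i : Fin 2) (h : (Fin 2 → ℂ) → ℂ) : (Fin 2 → ℂ) → ℂ :=
  fun z => fderiv ℂ h z (Pi.single i 1)

/-- All coordinate derivatives of order less than `N` vanish at `p`. -/
def ZZ (p : Fin 2 → ℂ) : ℕ → ((Fin 2 → ℂ) → ℂ) → Prop
  | 0, _ => True
  | N + 1, h => h p = 0 ∧ ∀ i, ZZ p N (DD i h)

variable {p : Fin 2 → ℂ} {g h : (Fin 2 → ℂ) → ℂ}

theorem DD_an (i : Fin 2) (hh : AnalyticAt ℂ h p) : AnalyticAt ℂ (DD i h) p :=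
  ((ContinuousLinearMap.apply ℂ ℂ (Pi.single i 1 : Fin 2 → ℂ)).analyticAt _).comp hh.fderiv

theorem DD_congr (i : Fin 2) (e : h =ᶠ[𝓝 p] g) : DD i h =ᶠ[𝓝 p] DD i g := by
  filter_upwards [e.fderiv (𝕜 := ℂ)] with z hz
  rw [DD, DD, hz]

theorem DD_add (i : Fin 2) (hg : AnalyticAt ℂ g p) (hh : AnalyticAt ℂ h p) :
    DD i (g + h) =ᶠ[𝓝 p] DD i g + DD i h := by
  filter_upwards [hg.eventually_analyticAt, hh.eventually_analyticAt] with z a b
  rw [Pi.add_apply, DD, DD, DD, fderiv_add a.differentiableAt b.differentiableAt]; rfl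

theorem DD_sub (i : Fin 2) (hg : AnalyticAt ℂ g p) (hh : AnalyticAt ℂ h p) :
    DD i (g - h) =ᶠ[𝓝 p] DD i g - DD i h := by
  filter_upwards [hg.eventually_analyticAt, hh.eventually_analyticAt] with z a b
  rw [Pi.sub_apply, DD, DD, DD, fderiv_sub a.differentiableAt b.differentiableAt]; rfl

theorem DD_mul (i : Fin 2) (hg : AnalyticAt ℂ g p) (hh : AnalyticAt ℂ h p) :
    DD i (g * h) =ᶠ[𝓝 p] g * DD i h + DD i g * h := by
  filter_upwards [hg.eventually_analyticAt, hh.eventually_analyticAt] with z a b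
  rw [DD, fderiv_mul a.differentiableAt b.differentiableAt]
  simp [DD, mul_comm]

theorem DD_comm (hh : AnalyticAt ℂ h p) : DD 0 (DD 1 h) =ᶠ[𝓝 p] DD 1 (DD 0 h) := by
  filter_upwards [hh.eventually_analyticAt] with z a
  have key : ∀ i j, DD i (DD j h) z = fderiv ℂ (fderiv ℂ h) z (Pi.single i 1) (Pi.single j 1) :=
    fun i j => by
      have := ((ContinuousLinearMap.apply ℂ ℂ (Pi.single j 1 : Fin 2 → ℂ)).hasFDerivAt.comp z
        a.fderiv.differentiableAt.hasFDerivAt).fderiv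
      exact congrArg (fun l => l (Pi.single i 1)) this
  rw [key, key]
  exact (a.contDiffAt (n := 2)).isSymmSndFDerivAt (by simp) _ _

theorem DD_eval (i : Fin 2) (u : Poly) : DD i (fun z => eval z u) = fun z => eval z (pderiv i u) := by
  ext z
  rw [DD, (hasFDerivAt_eval u z).fderiv]
  fin_cases i <;> simp

theorem ZZ.congr {N : ℕ} (H : ZZ p N h) (e : h =ᶠ[𝓝 p] g) : ZZ p N g := by
  induction N generalizing h g with
  | zero => trivial
  | succ N ih => exact ⟨e.eq_of_nhds ▸ H.1, fun i => ih (H.2 i) (DD_congr i e)⟩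

theorem ZZ.mono {N : ℕ} (H : ZZ p (N + 1) h) : ZZ p N h := by
  induction N generalizing h with
  | zero => trivial
  | succ N ih => exact ⟨H.1, fun i => ih (H.2 i)⟩

theorem ZZ.add {N : ℕ} (hg : AnalyticAt ℂ g p) (hh : AnalyticAt ℂ h p) (G : ZZ p N g)
    (H : ZZ p N h) : ZZ p N (g + h) := by
  induction N generalizing h g with
  | zero => trivial
  | succ N ih =>
    exact ⟨by rw [Pi.add_apply, G.1, H.1, add_zero], fun i =>
      (ih (DD_an i hg) (DD_an i hh) (G.2 i) (H.2 i)).congr (DD_add i hg hh).symm⟩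

theorem ZZ.mul {N : ℕ} (hg : AnalyticAt ℂ g p) (hh : AnalyticAt ℂ h p) (H : ZZ p N h) :
    ZZ p N (g * h) := by
  induction N generalizing h g with
  | zero => trivial
  | succ N ih =>
    exact ⟨by rw [Pi.mul_apply, H.1, mul_zero], fun i =>
      (ZZ.add (hg.mul (DD_an i hh)) ((DD_an i hg).mul hh) (ih hg (DD_an i hh) (H.2 i))
        (ih (DD_an i hg) hh H.mono)).congr (DD_mul i hg hh).symm⟩

theorem ZZ.sub {N : ℕ} (hg : AnalyticAt ℂ g p) (hh : AnalyticAt ℂ h p) (G : ZZ p N g)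
    (H : ZZ p N h) : ZZ p N (g - h) := by
  have := ZZ.add hg ((analyticAt_const (v := (-1 : ℂ))).mul hh) G (H.mul analyticAt_const hh)
  convert this using 1
  ext z; simp [sub_eq_add_neg]

theorem mm_succ_iff {K : Type*} [Field K] [CharZero K] {N : ℕ} {u : R2 K} :
    u ∈ mm K ^ (N + 1) ↔ coeff 0 u = 0 ∧ ∀ i, pderiv i u ∈ mm K ^ N := by
  refine ⟨fun h => ⟨mem_mm.1 h 0 (by simp), fun i => mm_pderiv i h⟩, fun h => mem_mm.2 fun m hm => ?_⟩
  rw [deg2] at hm
  rw [coeff_eq_co]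
  generalize m 0 = a, m 1 = b at hm
  rcases a with _ | a
  · rcases b with _ | b
    · simpa [co] using h.1
    · have := co_of_mm (h.2 1) (show 0 + b < N by omega)
      rw [co_y] at this
      exact (mul_eq_zero.1 this).resolve_right (Nat.cast_add_one_ne_zero _)
  · have := co_of_mm (h.2 0) (show a + b < N by omega)
    rw [co_x] at this
    exact (mul_eq_zero.1 this).resolve_right (Nat.cast_add_one_ne_zero _)

theorem ZZ_eval {N : ℕ} {u : Poly} : ZZ p N (fun z => eval z u) ↔ tr p u ∈ mm ℂ ^ N := by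
  induction N generalizing u with
  | zero => simp [ZZ]
  | succ N ih => simp only [ZZ, mm_succ_iff, DD_eval, ih, coeff_zero_tr, tr_pderiv]

theorem taylor (N : ℕ) (hh : AnalyticAt ℂ h p) : ∃ T : Poly, ZZ p N (h - fun z => eval z T) := by
  induction N generalizing h with
  | zero => exact ⟨0, trivial⟩
  | succ N ih =>
    obtain ⟨U0, h0⟩ := ih (DD_an 0 hh)
    obtain ⟨U1, h1⟩ := ih (DD_an 1 hh)
    have ev := fun u : Poly => analyticAt_eval u p
    have hd : ad 0 (pderiv 0 (tr p U1) + pderiv 1 (-tr p U0)) ∈ mm ℂ ^ N := by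
      rcases N with _ | N
      · exact mm_zero _
      refine ad_mm 0 ?_
      rw [map_neg, tr_pderiv, tr_pderiv, ← sub_eq_add_neg, ← map_sub, ← ZZ_eval]
      have a0 := (h0.2 1).congr (DD_sub 1 (DD_an 0 hh) (ev _))
      have a1 := (h1.2 0).congr (DD_sub 0 (DD_an 1 hh) (ev _))
      rw [DD_eval] at a0 a1
      refine (ZZ.sub ((DD_an 1 (DD_an 0 hh)).sub (ev _)) ((DD_an 0 (DD_an 1 hh)).sub (ev _))
        a0 a1).congr ?_
      filter_upwards [DD_comm hh] with z hz
      simp [hz]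
    set G := pot (tr p U1) (-tr p U0) with hG
    refine ⟨tr (-p) G + C (h p), ?_, fun i => ?_⟩
    · have := mem_mm_one.1 (pot_mm (tr p U1) (-tr p U0))
      rw [Pi.sub_apply, map_add, eval_C, ← coeff_zero_tr, tr_tr', this]; ring
    · refine ZZ.congr ?_ (DD_sub i hh (ev _)).symm
      rw [DD_eval, map_add, pderiv_C, add_zero, tr_pderiv]
      fin_cases i
      · simpa only [Fin.zero_eta, hG, pot_x, neg_neg, tr_tr] using h0
      · simp only [Fin.mk_one, hG, pot_y, map_sub, tr_tr]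
        have := ZZ.add ((DD_an 1 hh).sub (ev _)) (ev _) h1
          ((ZZ_eval (u := tr (-p) (ad 0 (pderiv 0 (tr p U1) + pderiv 1 (-tr p U0))))).2
            (by rwa [tr_tr']))
        convert this using 1
        ext z; simp; ring

theorem tr_vf {A : Type*} [CommRing A] (q : Fin 2 → A) (P Q u : R2 A) :
    tr q (vf P Q u) = vf (tr q P) (tr q Q) (tr q u) := by
  simp only [vf, map_add, map_mul, tr_pderiv]

theorem fi_of_center {ω : Form} (H : IsCenter ω p) : FI (tr p ω.1) (tr p ω.2) := by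
  obtain ⟨-, -, -, φ, ha, h0, hb, he⟩ := H
  intro N
  have ev := fun u : Poly => analyticAt_eval u p
  have hk : ∀ k, AnalyticAt ℂ (fun w => φ w k) p := fun k =>
    ((ContinuousLinearMap.proj (R := ℂ) (φ := fun _ : Fin 2 => ℂ) k).analyticAt _).comp ha
  choose T hT using fun k => taylor (N + 2) (hk k)
  have m1 : ∀ k, tr p (T k) ∈ mm ℂ ^ 1 := fun k => mem_mm_one.2 (by
    have := (hT k).1
    rw [Pi.sub_apply, h0] at this
    rw [coeff_zero_tr]; simpa using this)
  have split : ∀ (l : (Fin 2 → ℂ) →L[ℂ] ℂ) (v : Fin 2 → ℂ),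
      l v = v 0 * l (Pi.single 0 1) + v 1 * l (Pi.single 1 1) := fun l v => by
    rw [← smul_eq_mul, ← smul_eq_mul, ← map_smul, ← map_smul, ← map_add]
    congr 1
    ext i; fin_cases i <;> simp
  refine ⟨tr p (T 0 * T 0 + T 1 * T 1), ?_, fun h3 => ?_, ?_⟩
  · rw [map_add, map_mul, map_mul]
    exact add_mem (mm_mul (m1 0) (m1 0)) (mm_mul (m1 1) (m1 1))
  · obtain ⟨v, hv⟩ := hb.2 (Pi.single 0 1)
    have l : ∀ k, eval v (hc 1 (tr p (T k))) = fderiv ℂ φ p v k := fun k => by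
      have d : ∀ i, DD i (fun w => φ w k) p = eval p (pderiv i (T k)) := fun i => by
        have := (((hT k).2 i).congr (DD_sub i (hk k) (ev _))).1
        rwa [DD_eval, Pi.sub_apply, sub_eq_zero] at this
      have e : fderiv ℂ φ p v k = fderiv ℂ (fun w => φ w k) p v :=
        (congrArg (fun l => l v) (hasFDerivAt_pi'.1 ha.differentiableAt.hasFDerivAt k).fderiv).symm
      have c0 := co_x 0 0 (tr p (T k))
      have c1 := co_y 0 0 (tr p (T k))
      rw [tr_pderiv, co] at c0 c1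
      simp only [Finsupp.single_zero, add_zero, coeff_zero_tr, Nat.cast_zero, zero_add, mul_one]
        at c0 c1
      rw [e, split, hom1_eq (hc_hom 1 _), co_hc 1 0, co_hc 0 1, ← c0, ← c1, ← d, ← d]
      simp [lf, DD, mul_comm]
    have := congrArg (eval v) (hc_of_mm h3 (show 1 + 1 < 3 by omega))
    rw [map_add (tr p), map_mul, map_mul, hc_add, hc_mul_low (m1 0) (m1 0), hc_mul_low (m1 1) (m1 1),
      map_add, map_mul, map_mul, l, l, hv] at this
    simp at this
  · rw [← tr_vf, ← ZZ_eval]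
    have hI : AnalyticAt ℂ (fun w => φ w 0 ^ 2 + φ w 1 ^ 2) p := ((hk 0).pow 2).add ((hk 1).pow 2)
    have z1 : ZZ p (N + 2) ((fun z => eval z (T 0 * T 0 + T 1 * T 1)) -
        fun w => φ w 0 ^ 2 + φ w 1 ^ 2) := by
      have a := fun k => (((hk k).add (ev (T k))).neg)
      have b := fun k => (hk k).sub (ev (T k))
      convert ZZ.add ((a 0).mul (b 0)) ((a 1).mul (b 1)) ((hT 0).mul (a 0) (b 0))
        ((hT 1).mul (a 1) (b 1)) using 1
      ext z; simp; ring
    have z2 := fun i => ((z1.2 i).congr (DD_sub i (ev _) hI)).mono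
    have an := fun i => (DD_an i (ev (T 0 * T 0 + T 1 * T 1))).sub (DD_an i hI)
    refine (ZZ.add ((ev ω.1).mul (an 0)) ((ev ω.2).mul (an 1)) ((z2 0).mul (ev _) (an 0))
      ((z2 1).mul (ev _) (an 1))).congr ?_
    filter_upwards [he] with z hz
    rw [split] at hz
    simp only [DD_eval, Pi.add_apply, Pi.mul_apply, Pi.sub_apply, vf, map_add (eval z),
      map_mul (eval z)]
    simp only [Matrix.cons_val_zero, Matrix.cons_val_one] at hz
    simp only [DD]
    linear_combination -hz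

end Pool.Agent.MP_05b4bd_ag.HC

end MrgPart0

-- ======== part 1: formerly Pool.Agent.MP_05b4bd_ag.hc.Val
section MrgPart1

/-! The weighted scaling argument. -/

namespace Pool.Agent.MP_05b4bd_ag.HC

open MvPolynomial

theorem hc_br_top {A : Type*} [CommRing A] {a e : ℕ} {h f : R2 A} (hh : DL (a + 2) h)
    (hf : DL (e + 2) f) : hc (e + a) (br h f) = br (hc (a + 1) h) (hc (e + 1) f) := by
  rw [br_eq_vf, hc_vf_top (hf.pderiv 1) (hf.pderiv 0).neg hh, hc_neg, hc_pderiv, hc_pderiv, br_eq_vf]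

theorem br_DL {A : Type*} [CommRing A] {a e : ℕ} {h f : R2 A} (hh : DL (a + 1) h)
    (hf : DL (e + 2) f) : DL (e + a) (br h f) := by
  rw [br_eq_vf]; exact vf_DL (hf.pderiv 1) (hf.pderiv 0).neg hh

theorem hom_of_C_mul {A : Type*} [CommRing A] [NoZeroDivisors A] {δ : A} (hδ : δ ≠ 0) {n : ℕ}
    {u : R2 A} (h : (C δ * u).IsHomogeneous n) : u.IsHomogeneous n := fun m hm =>
  h (by rw [coeff_C_mul]; exact mul_ne_zero hδ hm)

variable {O K k : Type*} [CommRing O] [IsDomain O] [ValuationRing O] [Field K] [Field k]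
  [CharZero k] {φ : O →+* K} {ρ : O →+* k} {f : R2 k} {n : ℕ}

theorem step (V : Val φ ρ) (H : Good n f) {P0 Q0 P' Q' ν : R2 O} {δ p' : O} (hδ : δ ≠ 0)
    (rδ : ρ δ = 0)
    (R : Red φ ρ f ((1 + C (δ * p') * ν) * (P0 + C δ * P')) ((1 + C (δ * p') * ν) * (Q0 + C δ * Q')))
    (dP : DL (n + 6) P0) (dQ : DL (n + 6) Q0) (hP : P'.IsHomogeneous (n + 6))
    (hQ : Q'.IsHomogeneous (n + 6)) (dν : DL 2 ν) (rν : map ρ ν = X 0) {s : ℕ} (hs : s ≤ 2)
    {W0 W1 : R2 O} (d0 : DL (s + 1 + (n + 5)) W0) (d1 : DL (s + 2 + (n + 5)) W1)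
    (hI : IK φ ((1 + C (δ * p') * ν) * (P0 + C δ * P')) ((1 + C (δ * p') * ν) * (Q0 + C δ * Q'))
      (W0 - C δ * W1)) {h : R2 k} (dh : DL (s + 2) h) (mh : h ∈ mm k ^ 1)
    (eh : map ρ W0 = br h f) :
    ∃ (W0' W1' : R2 O) (h' : R2 k), DL (s + 2 + (n + 5)) W0' ∧ DL (s + 3 + (n + 5)) W1' ∧
      IK φ ((1 + C (δ * p') * ν) * (P0 + C δ * P')) ((1 + C (δ * p') * ν) * (Q0 + C δ * Q'))
        (W0' - C δ * W1') ∧ DL (s + 3) h' ∧ h' ∈ mm k ^ 1 ∧ map ρ W0' = br h' f ∧
      map ρ W1' = C (ρ p') * X 0 * vf (map ρ P') (map ρ Q') h ∧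
      br (hc (s + 2) h') (hc (n + 6) f) + vf (map ρ P') (map ρ Q') (hc (s + 1) h) +
        C (ρ p') * X 0 * br (hc (s + 1) h) (hc (n + 6) f) + hc (n + 6 + s) (map ρ W1) = 0 := by
  have r1 : map ρ P0 = pderiv 1 f := by simpa [rδ] using R.1
  have r2 : map ρ Q0 = -pderiv 0 f := by simpa [rδ] using R.2.1
  obtain ⟨Λ, L⟩ := exists_left V R H (r := s + 1) (by omega)
  set g := Λ (W0 - C δ * W1) with hg
  have dg : DL (s + 2) g := L.dl _
  have rg : map ρ g = h := L.res _ h dh mh (by simpa [rδ] using eh)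
  have v0 : DL (n + 5 + (s + 1)) (vf P0 Q0 g) := vf_DL dP dQ dg
  have v1 : DL (n + 6 + (s + 1)) (vf P' Q' g) := vf_DL (DL.of_hom hP) (DL.of_hom hQ) dg
  have ev : W0 - C δ * W1 - vf ((1 + C (δ * p') * ν) * (P0 + C δ * P'))
      ((1 + C (δ * p') * ν) * (Q0 + C δ * Q')) g = (W0 - vf P0 Q0 g) - C δ *
        (W1 + vf P' Q' g + C p' * (ν * vf P0 Q0 g) + C δ * (C p' * (ν * vf P' Q' g))) := by
    simp only [vf, map_mul]; ring
  have hI' := hI.sub_vf g
  have dA : DL (s + 1 + (n + 5)) (W0 - vf P0 Q0 g) := d0.sub (v0.mono (by omega))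
  obtain ⟨b, hb⟩ := L.div V R H (by omega) ev dA hI'
    (by rw [map_sub, L.inv g dg (L.mm _), hg, sub_self])
  have dB : DL (s + 2 + (n + 5)) (W1 + vf P' Q' g + C p' * (ν * vf P0 Q0 g)) :=
    (d1.add (v1.mono (by omega))).add (((dν.mul v0).C_mul _).mono (by omega))
  have dA' : DL (s + 1 + (n + 5)) (b + (W1 + vf P' Q' g + C p' * (ν * vf P0 Q0 g) +
      C δ * (C p' * (ν * vf P' Q' g)))) := DL.of_C_mul hδ (by
    convert dA using 1
    linear_combination ev - hb)
  set A0 := b + (W1 + vf P' Q' g + C p' * (ν * vf P0 Q0 g) + C δ * (C p' * (ν * vf P' Q' g)))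
    with hA0
  have eb : A0 - (W1 + vf P' Q' g + C p' * (ν * vf P0 Q0 g)) - C δ * (C p' * (ν * vf P' Q' g)) = b := by
    rw [hA0]; ring
  have dW := (dA'.mono (Nat.add_le_add_right (Nat.le_succ _) _)).sub dB
  have hIb := IK.of_C_mul V hδ (hb ▸ hI')
  have rb : map ρ (A0 - (W1 + vf P' Q' g + C p' * (ν * vf P0 Q0 g))) = map ρ b := by
    rw [← eb]; simp [rδ]
  obtain ⟨h', k1, k2, k3⟩ := H.2.2.2 (s + 2) (by omega) _ (R.nn hIb) (rb ▸ dW.map ρ)
  refine ⟨_, C p' * (ν * vf P' Q' g), h', dW, ((dν.mul v1).C_mul _).mono (by omega), eb ▸ hIb,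
    k1, k2, rb.trans k3, by rw [map_mul, map_mul, map_vf, map_C, rν, rg, mul_assoc], ?_⟩
  have t1 := congrArg (hc (n + 6 + s)) (rb.trans k3)
  have t2 := hc_br_top (a := s + 1) (e := n + 5) k1 H.2.1
  have t3 := hc_br_top (a := s) (e := n + 5) dh H.2.1
  have t4 := hc_vf_top (a := n + 6) (n := s) (DL.of_hom (hP.map ρ)) (DL.of_hom (hQ.map ρ)) dh
  have t5 := hc_mul_top (a := 1) (b := n + 5 + s) (DL_X (A := k) 0) (br_DL (a := s + 1) dh H.2.1)
  rw [show n + 5 + (s + 1) = n + 6 + s by omega] at t2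
  rw [show 1 + (n + 5 + s) = n + 6 + s by omega, t3, hc_self (isHomogeneous_X k 0)] at t5
  rw [hc_self (hP.map ρ), hc_self (hQ.map ρ)] at t4
  simp only [map_sub (map ρ), map_add (map ρ), map_mul, map_vf, map_C, rν, rg, r1, r2,
    ← br_eq_vf] at t1
  rw [hc_sub, hc_add, hc_add, hc_C_mul, t2, t4, t5, (dA'.map ρ).hc_eq (by omega)] at t1
  linear_combination -t1

variable [Algebra ℚ O]

/-- Images descend from `K` to `O` for all unit multiples of the field. -/
def St (φ : O →+* K) (P Q : R2 O) : Prop :=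
  ∀ g ∈ mm O ^ 1, ∀ b, IK φ ((1 + g) * P) ((1 + g) * Q) b → InIm ((1 + g) * P) ((1 + g) * Q) b

theorem core (V : Val φ ρ) (H : Good n f) {P Q b : R2 O} (dP : DL (n + 7) P) (dQ : DL (n + 7) Q)
    (rP : map ρ P = pderiv 1 f) (rQ : map ρ Q = -pderiv 0 f) (S : St φ P Q) {ε : O} (hε : ε ≠ 0)
    (hB : pderiv 0 P + pderiv 1 Q = C ε * b) (hI : IK φ P Q b) (rb : map ρ b = pderiv 1 f) :
    ∃ p v1 v2 : O, IsUnit v1 ∧ (1 + C p * lf v1 v2) * b = vf P Q (lf v1 v2) := by
  have R0 : Red φ ρ f P Q := ⟨rP, rQ, fun b hb => by simpa using S 0 (zero_mem _) b (by simpa using hb)⟩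
  obtain ⟨Λ, L⟩ := exists_left V R0 H (r := 2) (by omega)
  have x1 := isHomogeneous_X k (0 : Fin 2)
  have l1 : map ρ (Λ b) = X 0 ^ 1 * X 1 ^ 0 := by
    rw [L.res b (X 0) ((DL_X 0).mono (by omega)) (mm_X 0) (by simp [rb, br])]; simp
  have l2 : map ρ (Λ (X 0 * b)) = C (1 / 2) * (X 0 ^ 2 * X 1 ^ 0) := by
    rw [L.res (X 0 * b) (C (1 / 2) * (X 0 * X 0)) (DL.of_hom ((x1.mul x1).C_mul _))
      (Ideal.mul_mem_left _ _ (Ideal.mul_mem_left _ _ (mm_X 0))) (by
        have h2 : (C (1 / 2) * 2 : R2 k) = 1 := by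
          rw [← map_ofNat C 2, ← map_mul]; norm_num
        simp only [br, map_mul, map_X, rb, pderiv_mul, pderiv_C, pderiv_X_self,
          pderiv_X_of_ne (show (0 : Fin 2) ≠ 1 by decide)]
        linear_combination (-X 0 * pderiv 1 f) * h2)]
    ring
  obtain ⟨p, v1, v2, rp, r1, r2, q1, q2, q3⟩ := solve3 V (b1 := co 1 0 (Λ b)) (b2 := co 0 1 (Λ b))
    (b3 := co 2 0 (Λ b)) (A1 := co 1 0 (Λ (X 0 * b))) (A2 := co 0 1 (Λ (X 0 * b)))
    (A3 := co 2 0 (Λ (X 0 * b))) (B1 := co 1 0 (Λ (X 1 * b))) (B2 := co 0 1 (Λ (X 1 * b)))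
    (B3 := co 2 0 (Λ (X 1 * b))) (by rw [← co_map, l1, co_mon]; simp)
    (by rw [← co_map, l1, co_mon]; simp) (by rw [← co_map, l1, co_mon]; simp)
    (by rw [← co_map, l2, co_C_mul, co_mon]; simp)
  refine ⟨p, v1, v2, not_not.1 (mt (V.ker _).2 (by simp [r1])), ?_⟩
  set ν := lf v1 v2 with hν
  have hν1 : ν.IsHomogeneous 1 := lf_hom _ _
  have rν : map ρ ν = X 0 := by rw [hν, map_lf, r1, r2]; simp [lf]
  by_contra hD
  obtain ⟨ε2, D', eD, hD'⟩ := content ρ ((1 + C p * ν) * b - vf P Q ν)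
  have hε2 : ε2 ≠ 0 := fun h => hD (by rw [← sub_eq_zero, eD, h]; simp)
  have ΛD : C ε2 * Λ D' = Λ b + C (p * v1) * Λ (X 0 * b) + C (p * v2) * Λ (X 1 * b) - ν := by
    rw [← L.inv ν ((DL.of_hom hν1).mono (by omega)) (mm_hom hν1)]
    simp only [← smul_eq_C_mul, ← map_smul, ← map_add, ← map_sub]
    congr 1
    simp only [smul_eq_C_mul, ← eD, hν, lf, map_mul]; ring
  have cν : co 1 0 ν = v1 ∧ co 0 1 ν = v2 ∧ co 2 0 ν = 0 := by
    have : ν = C v1 * (X 0 ^ 1 * X 1 ^ 0) + C v2 * (X 0 ^ 0 * X 1 ^ 1) := by simp [hν, lf]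
    simp only [this, co_add, co_C_mul, co_mon]
    simp
  have z : ∀ i j, co i j (Λ b) + p * (v1 * co i j (Λ (X 0 * b)) + v2 * co i j (Λ (X 1 * b))) -
      co i j ν = 0 → co i j (map ρ (Λ D')) = 0 := fun i j h => by
    have := congrArg (co i j) ΛD
    simp only [co_add, co_sub, co_C_mul] at this
    rw [co_map, (mul_eq_zero.1 (show ε2 * co i j (Λ D') = 0 by
      linear_combination this + h)).resolve_left hε2, map_zero]
  have hg : C p * ν ∈ mm O ^ 1 := Ideal.mul_mem_left _ _ (mm_hom hν1)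
  have R1 : Red φ ρ f ((1 + C p * ν) * P) ((1 + C p * ν) * Q) :=
    ⟨by simp [rp, rP], by simp [rp, rQ], S _ hg⟩
  have I1 : IK φ ((1 + C p * ν) * P) ((1 + C p * ν) * Q) D' := IK.of_C_mul V hε2 fun N => by
    obtain ⟨l, hl⟩ := hI N
    obtain ⟨l', hl'⟩ := exists_log p ν N
    refine ⟨l - map φ l', ?_⟩
    have h1 := congrArg (map φ) (hl' P Q)
    have h2 := mm_map φ (Ideal.mul_mem_right (vf P Q ν) _ (by simpa using mm_pow (neg_mem hg) N :
      (-(C p * ν)) ^ N ∈ mm O ^ N))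
    rw [← eD, map_mul, map_mul, vf_mul_left, vf_sub]
    convert sub_mem (Ideal.mul_mem_left _ (map φ (1 + C p * ν)) hl) h2 using 1
    simp only [map_mul, map_sub, map_vf, map_one] at h1 ⊢
    linear_combination h1
  have db : DL (n + 6) b := DL.of_C_mul hε (hB ▸ (dP.pderiv 0).add (dQ.pderiv 1))
  have dD : DL (n + 7) D' := DL.of_C_mul hε2 (by
    rw [← eD, add_mul, one_mul, mul_assoc, hν, vf_lf]
    exact ((db.mono (by omega)).add ((((DL.of_hom hν1).mul db).C_mul _).mono (by omega))).sub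
      ((dP.C_mul _).add (dQ.C_mul _)))
  obtain ⟨H2, dH, mH, eH⟩ := H.2.2.2 2 (by omega) _ (R1.nn I1) ((dD.map ρ).mono (by omega))
  rw [L.res D' H2 dH mH eH] at z
  have fH : H2 = C (co 1 1 H2) * (X 0 * X 1) + C (co 0 2 H2) * X 1 ^ 2 := by
    have h2 : H2 ∈ mm k ^ 2 := mm_succ_co mH fun i j e => by
      obtain ⟨rfl, rfl⟩ | ⟨rfl, rfl⟩ : (i = 1 ∧ j = 0) ∨ (i = 0 ∧ j = 1) := by omega
      · exact z 1 0 (by rw [cν.1]; exact q1)
      · exact z 0 1 (by rw [cν.2.1]; exact q2)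
    have h3 := eq_zero_of_mm_DL (sub_hc_mm h2) (dH.sub (DL.of_hom (hc_hom 2 H2)))
    rw [sub_eq_zero, hom2_eq (hc_hom 2 H2), co_hc 2 0, co_hc 1 1, co_hc 0 2,
      z 2 0 (by rw [cν.2.2, sub_zero]; exact q3)] at h3
    simpa using h3
  have hH : H2.IsHomogeneous 2 := by
    rw [fH]
    exact ((x1.mul (isHomogeneous_X k 1)).C_mul _).add (isHomogeneous_C_mul_X_pow _ _ _)
  have nH : H2 ≠ 0 := fun h => hD' (by rw [eH, h]; simp [br])
  have G := H.2.2.1
  set F := hc (n + 6) f with hF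
  have nF : pderiv 1 F ≠ 0 := fun h => by
    have := G.br_inj (h := X 0) ((DL_X 0).mono (by omega)) (by simp [br, h])
    simp at this
  have nB : br H2 F ≠ 0 := fun h => by
    have h1 := G.br_inj (dH.mono (by omega)) h
    exact nH (H.br_inj (dH.mono (by omega)) mH (by simp [br, h1.1, h1.2]))
  obtain ⟨δ, P', Q', p', eP, eQ, ep, nz⟩ := triple ρ (hc (n + 6) P) (hc (n + 6) Q) p
  have rb' : map ρ (hc (n + 5) b) = pderiv 1 F := by rw [← hc_map, rb, hc_pderiv]
  have e1 : C ε * hc (n + 5) b = C δ * (pderiv 0 P' + pderiv 1 Q') := by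
    rw [← hc_C_mul, ← hB, hc_add, hc_pderiv, hc_pderiv, eP, eQ, pderiv_C_mul, pderiv_C_mul, mul_add]
  obtain ⟨κ, eκ⟩ := ratio V e1 (by rwa [rb'])
  have hδ : δ ≠ 0 := fun h => hε (by rw [eκ, h, zero_mul])
  have hδ' : (C δ : R2 O) ≠ 0 := by simpa using hδ
  have hP' : P'.IsHomogeneous (n + 6) := hom_of_C_mul hδ (eP ▸ hc_hom _ _)
  have hQ' : Q'.IsHomogeneous (n + 6) := hom_of_C_mul hδ (eQ ▸ hc_hom _ _)
  have rδ : ρ δ = 0 := by
    by_contra h
    have h' : (C (ρ δ) : R2 k) ≠ 0 := by simpa using h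
    have a1 := congrArg (map ρ) eP
    have a2 := congrArg (map ρ) eQ
    rw [← hc_map, rP, (H.2.1.pderiv 1).hc_eq le_rfl, map_mul, map_C] at a1
    rw [← hc_map, rQ, (H.2.1.pderiv 0).neg.hc_eq le_rfl, map_mul, map_C] at a2
    exact nz ⟨(mul_eq_zero.1 a1.symm).resolve_left h', (mul_eq_zero.1 a2.symm).resolve_left h',
      (mul_eq_zero.1 (by rw [← map_mul, ← ep, rp])).resolve_left h⟩
  have rD : map ρ (hc (n + 6) D') = br H2 F := by
    rw [← hc_map, eH, show n + 6 = n + 5 + 1 from rfl, hc_br_top dH H.2.1, hc_self hH]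
  have e2 : C ε2 * hc (n + 6) D' = C δ * (C p' * (ν * hc (n + 5) b) - (C v1 * P' + C v2 * Q')) := by
    have t := hc_mul_top (a := 1) (b := n + 5) (DL.of_hom hν1) db
    rw [show 1 + (n + 5) = n + 6 by omega, hc_self hν1] at t
    rw [← hc_C_mul, ← eD, add_mul, one_mul, mul_assoc, hν, vf_lf, ← hν, hc_sub, hc_add, hc_add,
      hc_C_mul, hc_C_mul, hc_C_mul, t, db.hc_eq le_rfl, eP, eQ, ep, map_mul]
    ring
  obtain ⟨σ, eσ⟩ := ratio V e2 (by rwa [rD])
  have sP : P = (P - hc (n + 6) P) + C δ * P' := by rw [← eP]; ring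
  have sQ : Q = (Q - hc (n + 6) Q) + C δ * Q' := by rw [← eQ]; ring
  rw [ep, sP, sQ] at R1 I1
  obtain ⟨W0, W1, h3, d0, d1, I2, dh3, mh3, eh3, eW1, E3⟩ := step V H hδ rδ R1 dP.sub_hc dQ.sub_hc
    hP' hQ' (DL.of_hom hν1) rν (s := 1) (by omega) (W0 := D') (W1 := 0) (dD.mono (by omega))
    (DL.zero _) (by simpa using I1) dH mH eH
  obtain ⟨-, -, h4, -, -, -, -, -, -, -, E4⟩ := step V H hδ rδ R1 dP.sub_hc dQ.sub_hc
    hP' hQ' (DL.of_hom hν1) rν (s := 2) (by omega) d0 d1 I2 dh3 mh3 eh3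
  have hv : (vf (map ρ P') (map ρ Q') H2).IsHomogeneous (n + 6 + 1) :=
    ((hP'.map ρ).mul (hom_pderiv 0 hH)).add ((hQ'.map ρ).mul (hom_pderiv 1 hH))
  have hv' := ((x1.C_mul (ρ p')).mul hv)
  rw [show 1 + (n + 6 + 1) = n + 6 + 2 by omega] at hv'
  rw [eW1, hc_self hv'] at E4
  rw [hc_self hH] at E3
  have SS : Sys F (map ρ P') (map ρ Q') H2 (hc 3 h3) (hc 4 h4) (ρ κ) (ρ p') (ρ σ) := by
    refine ⟨hc_hom _ _, hc_hom _ _, ?_, ?_, by simpa using E3, E4⟩
    · rw [eκ, map_mul, mul_assoc] at e1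
      have := congrArg (map ρ) (mul_left_cancel₀ hδ' e1)
      rw [map_mul, map_C, rb', map_add, ← pderiv_map, ← pderiv_map] at this
      exact this.symm
    · rw [eσ, map_mul, mul_assoc] at e2
      have := congrArg (map ρ) (mul_left_cancel₀ hδ' e2)
      simp only [map_mul, map_C, rD, map_sub, map_add, rν, rb', r1, r2, map_one, map_zero] at this
      linear_combination -this
  rw [fH] at SS
  exact nz (SS.trivial G (by
    by_contra h
    rw [not_or, not_not, not_not] at h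
    exact nH (by rw [fH, h.1, h.2]; simp)))

theorem val_main (V : Val φ ρ) (H : Good n f) {P Q : R2 O} (dP : DL (n + 7) P) (dQ : DL (n + 7) Q)
    (rP : map ρ P = pderiv 1 f) (rQ : map ρ Q = -pderiv 0 f) (S : St φ P Q)
    (hI : IK φ P Q (pderiv 0 P + pderiv 1 Q)) : pderiv 0 P + pderiv 1 Q = 0 ∨
    ∃ ε p v1 v2 : O, ε ≠ 0 ∧ lf v1 v2 ≠ 0 ∧
      (1 + C p * lf v1 v2) * (pderiv 0 P + pderiv 1 Q) = C ε * vf P Q (lf v1 v2) := by
  refine or_iff_not_imp_left.2 fun hB => ?_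
  obtain ⟨ε, b, eb, nb⟩ := content ρ (pderiv 0 P + pderiv 1 Q)
  have hε : ε ≠ 0 := fun h => hB (by rw [eb, h]; simp)
  have R0 : Red φ ρ f P Q := ⟨rP, rQ, fun b hb => by simpa using S 0 (zero_mem _) b (by simpa using hb)⟩
  have Ib : IK φ P Q b := IK.of_C_mul V hε (eb ▸ hI)
  have db : DL (n + 6) b := DL.of_C_mul hε (eb ▸ (dP.pderiv 0).add (dQ.pderiv 1))
  obtain ⟨l, dl, ml, el⟩ := H.2.2.2 1 (by omega) _ (R0.nn Ib) ((db.map ρ).mono (by omega))
  have fl : l = lf (co 1 0 l) (co 0 1 l) := by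
    have h3 := eq_zero_of_mm_DL (sub_hc_mm ml) (dl.sub (DL.of_hom (hc_hom 1 l)))
    rwa [sub_eq_zero, hom1_eq (hc_hom 1 l), co_hc 1 0, co_hc 0 1] at h3
  obtain ⟨a, ha⟩ := V.surj (co 1 0 l)
  obtain ⟨a', ha'⟩ := V.surj (co 0 1 l)
  obtain ⟨c, e, h⟩ : ∃ c e : O, a * e - a' * c = 1 := by
    by_cases h : IsUnit a
    · obtain ⟨t, ht⟩ := h.exists_right_inv
      exact ⟨0, t, by linear_combination ht⟩
    · have : IsUnit a' := by
        by_contra h'
        rw [← V.ker, ha] at h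
        rw [← V.ker, ha'] at h'
        exact nb (by rw [el, fl, h, h']; simp [lf, br])
      obtain ⟨t, ht⟩ := this.exists_right_inv
      exact ⟨-t, 0, by linear_combination ht⟩
  have hk : ρ a * ρ e - ρ a' * ρ c = 1 := by rw [← map_mul, ← map_mul, ← map_sub, h, map_one]
  have hK : φ a * φ e - φ a' * φ c = 1 := by rw [← map_mul, ← map_mul, ← map_sub, h, map_one]
  have hk' : ρ e * ρ a - -ρ a' * -ρ c = 1 := by linear_combination hk
  have t := exists_Tr h P Q
  set P1 := lin e (-a') (-c) a (C a * P + C a' * Q)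
  set Q1 := lin e (-a') (-c) a (C c * P + C e * Q)
  set f1 := lin (ρ e) (-ρ a') (-ρ c) (ρ a) f with hf1
  have t1 := Tr_ham hk f1
  rw [hf1, lin_inv hk, ← hf1] at t1
  have t2 := t.map ρ
  rw [rP, rQ] at t2
  obtain ⟨p, v1, v2, hv, E⟩ := core (f := f1) (P := P1) (Q := Q1) (b := lin e (-a') (-c) a b) V
    (H.lin hk') (lin_DL ((dP.C_mul _).add (dQ.C_mul _))) (lin_DL ((dP.C_mul _).add (dQ.C_mul _)))
    (lin_inj hk (t2.1.trans t1.1.symm)) (lin_inj hk (t2.2.trans t1.2.symm))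
    (fun g hg w hw => by
      have t3 := t.mul (1 + g)
      rw [map_add, map_one] at t3
      rw [t3.inIm h]
      refine S _ (lin_mm hg) _ ?_
      rw [IK, map_lin, ← (t3.map φ).inIm hK]
      exact hw) hε
    (lin_inj h (by rw [t.div h, map_mul, lin_C, lin_inv h, eb]))
    (by rw [IK, (t.map φ).inIm hK, ← map_lin, lin_inv h]; exact Ib)
    (lin_inj hk (by
      rw [← map_lin, lin_inv h, el, t1.1, fl, br_eq_vf, vf_lf, ha, ha']))
  have E' := congrArg (lin a a' c e) E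
  rw [t.vf, map_mul, map_add, map_one, map_mul, lin_C, lin_inv h, lin_lf] at E'
  refine ⟨ε, p, _, _, hε, fun h0 => ?_, by rw [eb, ← E']; ring⟩
  rw [← lin_lf, ← map_zero (lin a a' c e)] at h0
  exact hv.ne_zero (lf_eq_zero (lin_inj h h0)).1

end Pool.Agent.MP_05b4bd_ag.HC

end MrgPart1

-- ======== part 2: formerly Pool.Agent.MP_05b4bd_ag.hc.Dual
section MrgPart2

/-! First integrals up to any order pass from a dense set of points to the generic point. -/

namespace Pool.Agent.MP_05b4bd_ag.HC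

open MvPolynomial

variable {D K k : Type*} [CommRing D] [IsDomain D] [Field K] [Field k]

theorem solvable_generic {r c : Type*} [Fintype r] [Fintype c] {ψ : D →+* K}
    (hψ : Function.Injective ψ) (M : r → c → D) (b : r → D)
    (H : ∀ s : D, s ≠ 0 → ∃ e : D →+* k, e s ≠ 0 ∧ ∃ x : c → k, ∀ i, ∑ j, x j * e (M i j) = e (b i)) :
    ∃ x : c → K, ∀ i, ∑ j, x j * ψ (M i j) = ψ (b i) := by
  classical
  let F := FractionRing D
  let a := algebraMap D F
  have ha : Function.Injective a := IsFractionRing.injective D F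
  by_cases hb : (fun i => a (b i)) ∈ Submodule.span F (Set.range fun j i => a (M i j))
  · obtain ⟨x, hx⟩ := (Submodule.mem_span_range_iff_exists_fun F).1 hb
    let l : F →+* K := IsFractionRing.lift hψ
    have hl : ∀ s, l (a s) = ψ s := IsFractionRing.lift_algebraMap hψ
    refine ⟨fun j => l (x j), fun i => ?_⟩
    have := congrArg l (congrFun hx i)
    simpa only [Finset.sum_apply, Pi.smul_apply, smul_eq_mul, map_sum, map_mul, hl] using this
  exfalso
  obtain ⟨φ, h1, h2⟩ := Submodule.exists_dual_map_eq_bot_of_notMem hb inferInstance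
  obtain ⟨t, ht⟩ := IsLocalization.exist_integer_multiples_of_finite (nonZeroDivisors D)
    fun i => φ (fun j => if i = j then 1 else 0)
  choose l hl using ht
  have key : ∀ v : r → D, a (∑ i, v i * l i) = a t * φ fun i => a (v i) := fun v => by
    rw [LinearMap.pi_apply_eq_sum_univ, map_sum, Finset.mul_sum]
    refine Finset.sum_congr rfl fun i _ => ?_
    rw [map_mul, hl i, Algebra.smul_def, smul_eq_mul]; ring
  have hM : ∀ j, ∑ i, M i j * l i = 0 := fun j => ha (by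
    have := Submodule.mem_map_of_mem (f := φ) (Submodule.subset_span (R := F)
      (Set.mem_range_self (f := fun j i => a (M i j)) j))
    rw [h2, Submodule.mem_bot] at this
    rw [key, this, mul_zero, map_zero])
  obtain ⟨e, he, x, hx⟩ := H (∑ i, b i * l i) fun h0 => by
    have := key b
    rw [h0, map_zero] at this
    exact mul_ne_zero (fun h => nonZeroDivisors.ne_zero t.2 (ha (by rw [h, map_zero]))) h1 this.symm
  apply he
  simp only [map_sum, map_mul, ← hx, Finset.sum_mul]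
  rw [Finset.sum_comm]
  refine Finset.sum_eq_zero fun j _ => ?_
  have := congrArg e (hM j)
  simp only [map_sum, map_mul, map_zero] at this
  simp only [mul_assoc, ← Finset.mul_sum, this, mul_zero]

theorem coeff_vf_fU {A : Type*} [CommRing A] {N : ℕ} (P Q : R2 A) (x : Mo N → A) (m : Fin 2 →₀ ℕ) :
    coeff m (vf P Q (fU x)) = ∑ j, x j * coeff m (vf P Q (monomial j.1 1)) := by
  rw [fU, ← vfl_apply, map_sum, coeff_sum]
  refine Finset.sum_congr rfl fun j _ => ?_
  rw [vfl_apply, ← coeff_C_mul, ← vf_C_mul, C_mul_monomial, mul_one]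

theorem co20_ne [CharZero k] {P Q I : R2 k} (mP : P ∈ mm k ^ 1) (mQ : Q ∈ mm k ^ 1)
    (hq : co 1 0 Q ≠ 0) (h2 : I ∈ mm k ^ 2) (h3 : I ∉ mm k ^ 3) (hv : vf P Q I ∈ mm k ^ 3) :
    co 2 0 I ≠ 0 := fun h0 => by
  have e := hc_of_mm hv (show 1 + 1 < 3 by omega)
  rw [hc_vf_low mP mQ h2, vf, ← hc_pderiv, ← hc_pderiv, hc1_x, hc1_y, hom1_eq (hc_hom 1 P),
    hom1_eq (hc_hom 1 Q), co_hc 1 0, co_hc 0 1, co_hc 1 0, co_hc 0 1, h0] at e
  obtain ⟨a0, a1, -⟩ := quart_zero (a0 := co 1 0 Q * co 1 1 I)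
    (a1 := co 1 0 P * co 1 1 I + co 1 0 Q * (2 * co 0 2 I) + co 0 1 Q * co 1 1 I)
    (a2 := co 0 1 P * co 1 1 I + co 0 1 Q * (2 * co 0 2 I)) (a3 := 0) (a4 := 0) (by
      simp only [lf, map_mul, map_add, map_zero, mul_zero] at e ⊢
      linear_combination X 0 ^ 2 * e)
  have b1 := (mul_eq_zero.1 a0).resolve_left hq
  have b2 : co 0 2 I = 0 := by
    rw [b1] at a1
    simpa [hq] using a1
  refine h3 (mm_succ h2 ?_)
  rw [hom2_eq (hc_hom 2 I), co_hc 2 0, co_hc 1 1, co_hc 0 2, h0, b1, b2]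
  simp

omit [IsDomain D] in
theorem sys_iff {A : Type*} [CommRing A] (e : D →+* A) {P Q : R2 D} (mP : P ∈ mm D ^ 1)
    (mQ : Q ∈ mm D ^ 1) {N : ℕ} (x : Mo (N + 2) → A) :
    (∀ i : Option (Mo (N + 2)), ∑ j, x j * e (i.elim (co 2 0 (monomial j.1 1))
      fun m => coeff m.1 (vf P Q (monomial j.1 1))) = e (i.elim 1 fun _ => 0)) ↔
      co 2 0 (fU x) = 1 ∧ vf (map e P) (map e Q) (fU x) ∈ mm A ^ (N + 3) := by
  have h1 : ∑ j, x j * e (co 2 0 (monomial j.1 1)) = co 2 0 (fU x) := by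
    rw [fU, co, coeff_sum]
    refine Finset.sum_congr rfl fun j _ => ?_
    rw [← co_map, map_monomial, map_one, co, ← coeff_C_mul, C_mul_monomial, mul_one]
  have h2 : ∀ m, ∑ j, x j * e (coeff m (vf P Q (monomial j.1 1))) =
      coeff m (vf (map e P) (map e Q) (fU x)) := fun m => by
    simp only [coeff_vf_fU, ← coeff_map, map_vf, map_monomial, map_one]
  simp only [Option.forall, Option.elim, h1, h2, map_one, map_zero]
  refine and_congr_right fun _ => ⟨fun h => mem_mm.2 fun m hm => ?_,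
    fun h m => mem_mm.1 h _ (by have := m.2; omega)⟩
  by_cases h2 : 2 ≤ m.degree
  · exact h ⟨m, h2, by omega⟩
  · exact mem_mm.1 (vf_mm' (mm_map e mP) (mm_map e mQ) (fU_mm x)) m (by omega)

theorem fi_generic [CharZero k] {ψ : D →+* K} (hψ : Function.Injective ψ) {P Q : R2 D}
    (mP : P ∈ mm D ^ 1) (mQ : Q ∈ mm D ^ 1) (hq : co 1 0 Q ≠ 0)
    (H : ∀ s : D, s ≠ 0 → ∃ e : D →+* k, e s ≠ 0 ∧ FI (map e P) (map e Q)) :
    FI (map ψ P) (map ψ Q) := by
  intro N
  obtain ⟨x, hx⟩ := solvable_generic (k := k) hψ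
    (fun (i : Option (Mo (N + 2))) (j : Mo (N + 2)) => i.elim (co 2 0 (monomial j.1 1))
      fun m => coeff m.1 (vf P Q (monomial j.1 1))) (fun i => i.elim 1 fun _ => 0) fun s hs => by
    obtain ⟨e, he, hI⟩ := H (s * co 1 0 Q) (mul_ne_zero hs hq)
    rw [map_mul] at he
    obtain ⟨I, h2, h3, hv⟩ := hI (N + 3)
    have h0 := co20_ne (mm_map e mP) (mm_map e mQ) (by
      rw [co_map]; exact right_ne_zero_of_mul he) h2 h3 (mm_mono (by omega) hv)
    refine ⟨e, left_ne_zero_of_mul he, fun j => coeff j.1 (C (co 2 0 I)⁻¹ * I),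
      (sys_iff e mP mQ _).2 ?_⟩
    have hd : fU (fun j : Mo (N + 2) => coeff j.1 (C (co 2 0 I)⁻¹ * I)) - C (co 2 0 I)⁻¹ * I ∈
        mm k ^ (N + 3) := mem_mm.2 fun m hm => by
      rw [coeff_sub, coeff_fU]
      split_ifs with h
      · exact sub_self _
      · rw [mem_mm.1 (Ideal.mul_mem_left _ _ h2) m (by omega), sub_zero]
    constructor
    · have := co_of_mm hd (show 2 + 0 < N + 3 by omega)
      rwa [co_sub, co_C_mul, inv_mul_cancel₀ h0, sub_eq_zero] at this
    · have := add_mem (vf_mm' (mm_map e mP) (mm_map e mQ) hd)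
        (Ideal.mul_mem_left _ (C (co 2 0 I)⁻¹) hv)
      rwa [vf_sub, vf_C_mul, sub_add_cancel] at this
  obtain ⟨h1, h2⟩ := (sys_iff ψ mP mQ x).1 hx
  exact ⟨fU x, fU_mm x, fun h => by rw [co_of_mm h (by omega)] at h1; exact zero_ne_one h1,
    mm_mono (by omega) h2⟩

end Pool.Agent.MP_05b4bd_ag.HC

end MrgPart2

-- ======== part 3: formerly Pool.Agent.MP_05b4bd_ag.hc.Gp
section MrgPart3

/-! The generic point of a family through a generic Hamiltonian field. -/

namespace Pool.Agent.MP_05b4bd_ag.HC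

open MvPolynomial

variable {K : Type*} [Field K]

theorem val_of [IsAlgClosed K] (O : ValuationSubring K) :
    Val (algebraMap O K) (IsLocalRing.residue O) := by
  refine ⟨Subtype.val_injective, IsLocalRing.residue_surjective, fun a => by
    rw [IsLocalRing.residue_eq_zero_iff, IsLocalRing.mem_maximalIdeal, mem_nonunits_iff],
    fun a b => ?_⟩
  obtain ⟨s, hs⟩ : ∃ s : K, s * s + a * s + b = 0 := by
    obtain ⟨z, hz⟩ := IsAlgClosed.exists_root
      (Polynomial.C 1 * Polynomial.X ^ 2 + Polynomial.C (a : K) * Polynomial.X + Polynomial.C (b : K))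
      (by rw [Polynomial.degree_quadratic one_ne_zero]; decide)
    exact ⟨z, by simpa [sq] using hz⟩
  have hm : s ∈ O := by
    rcases O.mem_or_inv_mem s with h | h
    · exact h
    · by_cases h0 : s = 0
      · rw [h0]; exact zero_mem _
      · have : s = -a - b * s⁻¹ := by field_simp; linear_combination hs
        rw [this]
        exact sub_mem (neg_mem a.2) (mul_mem b.2 h)
  exact ⟨⟨s, hm⟩, Subtype.ext hs⟩

theorem exists_val {D : Type*} [CommRing D] {ψ : D →+* K} (hψ : Function.Injective ψ)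
    (q : Ideal D) [q.IsPrime] : ∃ (O : ValuationSubring K) (τ : D →+* O),
      (∀ a, algebraMap O K (τ a) = ψ a) ∧ ∀ a, IsLocalRing.residue O (τ a) = 0 ↔ a ∈ q := by
  let L := Localization.AtPrime q
  have hu : ∀ y : q.primeCompl, IsUnit (ψ y) := fun y => Ne.isUnit fun h =>
    y.2 (by rw [show (y : D) = 0 from hψ (by rw [h, map_zero])]; exact zero_mem q)
  obtain ⟨O, h, hl⟩ := IsLocalRing.exists_factor_valuationRing (IsLocalization.lift (S := L) hu)
  refine ⟨O, ((IsLocalization.lift (S := L) hu).codRestrict O.toSubring h).comp (algebraMap D L),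
    fun a => IsLocalization.lift_eq hu a, fun a => ?_⟩
  rw [IsLocalRing.residue_eq_zero_iff, IsLocalRing.mem_maximalIdeal, mem_nonunits_iff,
    ← IsLocalization.AtPrime.to_map_mem_maximal_iff L q, IsLocalRing.mem_maximalIdeal,
    mem_nonunits_iff]
  exact not_congr ⟨fun h' => hl.map_nonunit _ h',
    fun h' => h'.map ((IsLocalization.lift (S := L) hu).codRestrict O.toSubring h)⟩

theorem hc1_unit {A : Type*} [CommRing A] {g P : R2 A} (hg : g ∈ mm A ^ 1) (hP : P ∈ mm A ^ 1) :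
    hc 1 ((1 + g) * P) = hc 1 P := by
  rw [add_mul, one_mul, hc_add, hc_of_mm (mm_mul hg hP) (by omega), add_zero]

theorem val_point {O k : Type*} [CommRing O] [IsDomain O] [ValuationRing O] [Algebra ℚ O] [Field k]
    [CharZero k] [CharZero K] {φ : O →+* K} {ρ : O →+* k} (V : Val φ ρ) {n : ℕ} {f : R2 k}
    (H : IndC (n + 6) f) {P Q : R2 O} (dP : DL (n + 7) P) (dQ : DL (n + 7) Q) (mP : P ∈ mm O ^ 1)
    (mQ : Q ∈ mm O ^ 1) (rP : map ρ P = pderiv 1 f) (rQ : map ρ Q = -pderiv 0 f)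
    (hI : FI (map φ P) (map φ Q)) :
    pderiv 0 P + pderiv 1 Q = 0 ∨ LimLog (n + 6) (map φ P) (map φ Q) := by
  obtain ⟨l0, l1⟩ := H.low (by omega)
  have r0 : ρ (co 1 0 P) = co 1 1 f := by rw [← co_map, rP, co_y]; simp
  have r1 : ρ (co 0 1 P) = 2 * co 0 2 f := by rw [← co_map, rP, co_y]; norm_num [mul_comm]
  have r2 : ρ (co 1 0 Q) = -(2 * co 2 0 f) := by rw [← co_map, rQ, co_neg, co_x]; norm_num [mul_comm]
  have r3 : ρ (co 0 1 Q) = -co 1 1 f := by rw [← co_map, rQ, co_neg, co_x]; simp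
  have l : ∀ u : R2 O, hc 1 u = lf (co 1 0 u) (co 0 1 u) := fun u => by
    rw [hom1_eq (hc_hom 1 u), co_hc 1 0, co_hc 0 1]
  have hd : IK φ P Q (pderiv 0 P + pderiv 1 Q) := by
    rw [IK, map_add, ← pderiv_map, ← pderiv_map]
    refine div_inIm (mm_map φ mP) (mm_map φ mQ) ?_ hI
    rw [hc_map, hc_map, l, l, map_lf, map_lf]
    refine CI_lf fun h => l1 ?_
    rw [← map_mul, ← map_mul, ← map_sub, map_eq_zero_iff φ V.inj] at h
    have := congrArg ρ h
    rw [map_sub, map_mul, map_mul, r0, r1, r2, r3, map_zero] at this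
    linear_combination -this
  have tr0 : co 0 1 Q = -co 1 0 P := by
    obtain ⟨g, hg⟩ := hd 1
    have h1 := add_mem hg (add_mem (Ideal.mul_mem_right (pderiv 0 g) _ (mm_map φ mP))
      (Ideal.mul_mem_right (pderiv 1 g) _ (mm_map φ mQ)))
    rw [vf, sub_add_cancel] at h1
    have := co_of_mm (mm_of_map φ V.inj h1) (show 0 + 0 < 1 by omega)
    rw [co_add, co_x, co_y] at this
    simp only [Nat.cast_zero, zero_add, mul_one] at this
    linear_combination this
  obtain ⟨δ, hδ⟩ := V.quad 0 (-(co 1 0 P * co 1 0 P + co 0 1 P * co 1 0 Q))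
  have uδ : IsUnit (2 * δ * co 1 0 Q) := by
    refine not_not.1 (mt (V.ker _).2 ?_)
    rw [map_mul, map_mul, r2, map_ofNat]
    refine mul_ne_zero (mul_ne_zero two_ne_zero fun h => l1 ?_)
      (neg_ne_zero.2 (mul_ne_zero two_ne_zero l0))
    have := congrArg ρ hδ
    simp only [map_add, map_mul, map_neg, map_zero, h, r0, r1, r2] at this
    linear_combination -this
  have S : St φ P Q := fun g hg b hb => by
    refine Eig.star V.inj (eig_of (p0 := co 1 0 P) (p1 := co 0 1 P) (q0 := co 1 0 Q) (δ := δ)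
      (Ideal.mul_mem_left _ _ mP) (Ideal.mul_mem_left _ _ mQ) (by rw [hc1_unit hg mP, l])
      (by rw [hc1_unit hg mQ, l, tr0]) (by linear_combination hδ) uδ) (fun N => ?_) hb
    obtain ⟨I, h2, h3, hv⟩ := hI N
    exact ⟨I, h2, h3, by rw [map_mul, map_mul, vf_mul_left]; exact Ideal.mul_mem_left _ _ hv⟩
  refine (val_main V H.good dP dQ rP rQ S hd).imp_right fun ⟨ε, p, v1, v2, hε, hv, e⟩ => ?_
  refine limLog (ε := φ ε) (p := φ p) (v1 := φ v1) (v2 := φ v2) (dP.map φ) (dQ.map φ)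
    ((map_ne_zero_iff φ V.inj).2 hε) (fun h => hv ?_) ?_
  · rw [← map_lf] at h
    exact map_injective φ V.inj (by rw [h, map_zero])
  · simpa only [map_mul, map_add, map_one, map_C, map_lf, map_vf, ← pderiv_map] using
      congrArg (map φ) e

theorem generic_point [IsAlgClosed K] [CharZero K] {D k : Type*} [CommRing D] [IsDomain D]
    [Algebra ℚ D] [Field k] [CharZero k] {ψ : D →+* K} (hψ : Function.Injective ψ) (q : Ideal D)
    [q.IsPrime] {n : ℕ} (γ : Mo (n + 6) → D)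
    (hγ : ∀ H : MvPolynomial (Mo (n + 6)) ℚ, aeval γ H ∈ q → H = 0) {P Q : R2 D}
    (dP : DL (n + 7) P) (dQ : DL (n + 7) Q) (mP : P ∈ mm D ^ 1) (mQ : Q ∈ mm D ^ 1)
    (rP : ∀ m, coeff m (P - pderiv 1 (fU γ)) ∈ q) (rQ : ∀ m, coeff m (Q + pderiv 0 (fU γ)) ∈ q)
    (H : ∀ s : D, s ≠ 0 → ∃ e : D →+* k, e s ≠ 0 ∧ FI (map e P) (map e Q)) :
    pderiv 0 P + pderiv 1 Q = 0 ∨ LimLog (n + 6) (map ψ P) (map ψ Q) := by
  obtain ⟨O, τ, h1, h2⟩ := exists_val hψ q
  let _ : Algebra ℚ O := (τ.comp (algebraMap ℚ D)).toAlgebra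
  let ρ := IsLocalRing.residue O
  have _ : CharZero (IsLocalRing.ResidueField O) := by
    let _ := ((ρ.comp τ).comp (algebraMap ℚ D)).toAlgebra
    exact algebraRat.charZero _
  have e : ∀ u : R2 D, map (algebraMap O K) (map τ u) = map ψ u := fun u => by
    rw [map_map]; congr 2; exact RingHom.ext h1
  have z : ∀ u : R2 D, (∀ m, coeff m u ∈ q) → map ρ (map τ u) = 0 := fun u hu => by
    ext m; rw [coeff_map, coeff_map]; exact (h2 _).2 (hu m)
  have I : IndC (n + 6) (map ρ (map τ (fU γ))) := by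
    refine ⟨mm_map _ (mm_map _ (fU_mm γ)), ((fU_DL γ).map τ).map ρ, ?_⟩
    simp only [coeff_map, coeff_fU']
    refine algebraicIndependent_iff.2 fun G hG => hγ G ((h2 _).1 ?_)
    rw [← hG]
    exact comp_aeval_apply γ (ρ.comp τ).toRatAlgHom G
  have rP' : map ρ (map τ P) = pderiv 1 (map ρ (map τ (fU γ))) := by
    have := z _ rP
    rwa [map_sub, map_sub, sub_eq_zero, ← pderiv_map, ← pderiv_map] at this
  have rQ' : map ρ (map τ Q) = -pderiv 0 (map ρ (map τ (fU γ))) := by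
    have := z _ rQ
    rwa [map_add, map_add, add_eq_zero_iff_eq_neg, ← pderiv_map, ← pderiv_map] at this
  have hq : co 1 0 Q ≠ 0 := fun h => (I.low (by omega)).1 (by
    have := congrArg (co 1 0) rQ'
    rw [co_map, co_map, h, map_zero, map_zero, co_neg, co_x] at this
    simpa using this)
  have := val_point (val_of O) I (dP.map τ) (dQ.map τ) (mm_map τ mP) (mm_map τ mQ) rP' rQ'
    (by rw [e, e]; exact fi_generic hψ mP mQ hq H)
  rw [e, e] at this
  refine this.imp_left fun h => map_injective ψ hψ ?_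
  rw [← e, map_add, ← pderiv_map, ← pderiv_map, h, map_zero, map_zero]

end Pool.Agent.MP_05b4bd_ag.HC

end MrgPart3

-- ======== part 4: formerly Pool.Agent.MP_05b4bd_ag.hc.Zar
section MrgPart4

/-! Zariski topology on pointed forms, universal forms, parametrised families. -/

namespace Pool.Agent.MP_05b4bd_ag.HC

open MvPolynomial

abbrev PCo := MvPolynomial ((Bool × (Fin 2 →₀ ℕ)) ⊕ Fin 2) ℂ

section Ev
variable {A B : Type*} [CommRing A] [Algebra ℂ A] [CommRing B] [Algebra ℂ B]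

/-- Evaluation at a pointed form with coefficients in an algebra. -/
noncomputable def pev (P Q : R2 A) (p : Fin 2 → A) : PCo →ₐ[ℂ] A :=
  aeval (Sum.elim (fun k : Bool × (Fin 2 →₀ ℕ) => coeff k.2 (cond k.1 P Q)) p)

theorem pev_inl (P Q : R2 A) (p : Fin 2 → A) (b : Bool) (m : Fin 2 →₀ ℕ) :
    pev P Q p (X (.inl (b, m))) = coeff m (cond b P Q) := aeval_X _ _

theorem pev_inr (P Q : R2 A) (p : Fin 2 → A) (i : Fin 2) : pev P Q p (X (.inr i)) = p i :=
  aeval_X _ _

theorem map_pev (e : A →ₐ[ℂ] B) (P Q : R2 A) (p : Fin 2 → A) (R : PCo) :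
    e (pev P Q p R) = pev (map (e : A →+* B) P) (map (e : A →+* B) Q) (fun i => e (p i)) R := by
  rw [pev, comp_aeval_apply, pev]
  congr 2
  funext k
  rcases k with ⟨_ | _, m⟩ | i <;> simp [coeff_map]

end Ev

noncomputable abbrev pe (w : PForm) : PCo →ₐ[ℂ] ℂ := pev w.1.1 w.1.2 w.2

noncomputable abbrev II (S : Set PForm) : Ideal PCo := vanishingIdeal ℂ (pco '' S)

variable {S T : Set PForm} {w : PForm}

theorem mem_II {R : PCo} : R ∈ II S ↔ ∀ w ∈ S, pe w R = 0 := by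
  rw [mem_vanishingIdeal_iff]
  exact ⟨fun h w hw => h _ ⟨w, hw, rfl⟩, by rintro h _ ⟨w, hw, rfl⟩; exact h w hw⟩

theorem mem_pzcl : w ∈ pzcl S ↔ ∀ R ∈ II S, pe w R = 0 := mem_zeroLocus_iff

theorem sub_pzcl : T ⊆ pzcl S ↔ II S ≤ II T :=
  ⟨fun h R hR => mem_II.2 fun _ hw => mem_pzcl.1 (h hw) R hR,
    fun h w hw => mem_pzcl.2 fun _ hR => mem_II.1 (h hR) w hw⟩

theorem subset_pzcl : S ⊆ pzcl S := sub_pzcl.2 le_rfl

theorem II_pzcl : II (pzcl S) = II S :=
  le_antisymm (fun _ hR => mem_II.2 fun w hw => mem_II.1 hR w (subset_pzcl hw))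
    (sub_pzcl.1 subset_rfl)

abbrev Mo0 (d : ℕ) := {m : Fin 2 →₀ ℕ // m.degree ≤ d}

instance (d : ℕ) : Finite (Mo0 d) := (Finsupp.finite_of_degree_le (σ := Fin 2) d).to_subtype

noncomputable instance (d : ℕ) : Fintype (Mo0 d) := Fintype.ofFinite _

section FA
variable {A : Type*} [CommRing A] {d : ℕ}

noncomputable def fA (c : Mo0 d → A) : R2 A := ∑ m : Mo0 d, monomial m.1 (c m)

theorem coeff_fA (c : Mo0 d → A) (m : Fin 2 →₀ ℕ) :
    coeff m (fA c) = if h : m.degree ≤ d then c ⟨m, h⟩ else 0 := by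
  classical
  rw [fA, coeff_sum]
  split_ifs with h
  · rw [Finset.sum_eq_single ⟨m, h⟩]
    · simp
    · intro b _ hb
      rw [coeff_monomial, if_neg fun e => hb (Subtype.ext e)]
    · simp
  · exact Finset.sum_eq_zero fun b _ => by
      rw [coeff_monomial, if_neg fun e : b.1 = m => h (e ▸ b.2)]

theorem fA_DL (c : Mo0 d → A) : DL (d + 1) (fA c) := fun m hm => by
  rw [coeff_fA, dif_neg (by omega)]

end FA

/-- The universal coefficient polynomials of degree at most `d`. -/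
noncomputable def uni (d : ℕ) (b : Bool) : R2 PCo := fA fun m : Mo0 d => X (.inl (b, m.1))

/-- The universal point. -/
noncomputable def pU : Fin 2 → PCo := fun i => X (.inr i)

section Uni
variable {A : Type*} [CommRing A] [Algebra ℂ A] {d : ℕ}

theorem map_uni {P Q : R2 A} (p : Fin 2 → A) (b : Bool) (h : DL (d + 1) (cond b P Q)) :
    map (pev P Q p : PCo →+* A) (uni d b) = cond b P Q := by
  ext m
  rw [coeff_map, uni, coeff_fA]
  split_ifs with hm
  · exact pev_inl P Q p b m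
  · rw [map_zero, h m (by omega)]

theorem map_tr_uni {P Q : R2 A} (p : Fin 2 → A) (b : Bool) (h : DL (d + 1) (cond b P Q)) :
    map (pev P Q p : PCo →+* A) (tr pU (uni d b)) = tr p (cond b P Q) := by
  rw [map_tr, map_uni p b h]
  congr 2
  exact funext (pev_inr P Q p)

theorem eq_pev (χ : PCo →ₐ[ℂ] A) (h : ∀ b m, d < m.degree → χ (X (.inl (b, m))) = 0) :
    pev (map (χ : PCo →+* A) (uni d true)) (map (χ : PCo →+* A) (uni d false))
      (fun i => χ (pU i)) = χ := by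
  refine MvPolynomial.algHom_ext fun k => ?_
  rcases k with ⟨b, m⟩ | i
  · rw [pev_inl, show cond b (map (χ : PCo →+* A) (uni d true)) (map (χ : PCo →+* A) (uni d false)) =
      map (χ : PCo →+* A) (uni d b) by cases b <;> rfl, coeff_map, uni, coeff_fA]
    split_ifs with hm
    · rfl
    · rw [map_zero, h b m (by omega)]
  · exact pev_inr _ _ _ i

/-- The coefficient of `f` read on the pair `f_y, - f_x`. -/
noncomputable def rc (m : Fin 2 →₀ ℕ) (P Q : R2 A) : A :=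
  if m 0 = 0 then algebraMap ℂ A (m 1 : ℂ)⁻¹ * coeff (m - Finsupp.single 1 1) P
  else -(algebraMap ℂ A (m 0 : ℂ)⁻¹ * coeff (m - Finsupp.single 0 1) Q)

theorem map_rc {B : Type*} [CommRing B] [Algebra ℂ B] (e : A →ₐ[ℂ] B) (m : Fin 2 →₀ ℕ)
    (P Q : R2 A) : e (rc m P Q) = rc m (map (e : A →+* B) P) (map (e : A →+* B) Q) := by
  simp only [rc, coeff_map]
  split_ifs <;> simp

theorem rc_ham {m : Fin 2 →₀ ℕ} (hm : 1 ≤ m.degree) (f : R2 A) :
    rc m (pderiv 1 f) (-pderiv 0 f) = coeff m f := by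
  have key : ∀ i, m i ≠ 0 → algebraMap ℂ A (m i : ℂ)⁻¹ *
      coeff (m - Finsupp.single i 1) (pderiv i f) = coeff m f := fun i hi => by
    have e : m - Finsupp.single i 1 + Finsupp.single i 1 = m :=
      tsub_add_cancel_of_le (Finsupp.single_le_iff.2 (by omega))
    have e2 : (((m - Finsupp.single i 1 : Fin 2 →₀ ℕ) i : ℕ) : A) + 1 = algebraMap ℂ A (m i) := by
      rw [map_natCast, ← Nat.cast_succ]
      congr 1
      simp only [Finsupp.coe_tsub, Pi.sub_apply, Finsupp.single_eq_same]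
      omega
    rw [coeff_pderiv, e, e2, mul_left_comm, ← map_mul, inv_mul_cancel₀ (Nat.cast_ne_zero.2 hi),
      map_one, mul_one]
  rw [rc]
  split_ifs with h
  · exact key 1 (by rw [deg2] at hm; omega)
  · rw [coeff_neg, mul_neg, neg_neg]; exact key 0 h

end Uni

theorem fin_min {d : ℕ} {J : Ideal PCo} (hJ : ∀ b m, d < m.degree → X (.inl (b, m)) ∈ J) :
    J.minimalPrimes.Finite := by
  let θ := (Ideal.Quotient.mkₐ ℂ J).comp
    (rename (Sum.map (fun k : Bool × Mo0 d => (k.1, k.2.1)) (id : Fin 2 → Fin 2)))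
  have hs : Function.Surjective θ := fun x => by
    obtain ⟨R, rfl⟩ := Ideal.Quotient.mkₐ_surjective ℂ J x
    change _ ∈ θ.range
    induction R using MvPolynomial.induction_on with
    | C a => exact ⟨C a, by simp [θ]⟩
    | add p q hp hq => rw [map_add]; exact add_mem hp hq
    | mul_X p k hp =>
      rw [map_mul]
      refine mul_mem hp ?_
      rcases k with ⟨b, m⟩ | i
      · by_cases h : m.degree ≤ d
        · exact ⟨X (.inl (b, ⟨m, h⟩)), by simp [θ]⟩
        · rw [Ideal.Quotient.mkₐ_eq_mk, Ideal.Quotient.eq_zero_iff_mem.2 (hJ b m (by omega))]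
          exact zero_mem _
      · exact ⟨X (.inr i), by simp [θ]⟩
  have := isNoetherianRing_of_surjective _ _ θ.toRingHom hs
  rw [Ideal.minimalPrimes_eq_comap]
  exact (minimalPrimes.finite_of_isNoetherianRing _).image _

theorem avoid {R : Type*} [CommRing R] {F : Set (Ideal R)} (hF : F.Finite) {q : Ideal R}
    (hq : q.IsPrime) : ∃ y ∉ q, ∀ I ∈ F, ¬ I ≤ q → y ∈ I := by
  induction F, hF using Set.Finite.induction_on with
  | empty => exact ⟨1, (Ideal.ne_top_iff_one q).1 hq.ne_top, by simp⟩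
  | @insert a s _ _ ih =>
    obtain ⟨y, hy, h⟩ := ih
    by_cases ha : a ≤ q
    · refine ⟨y, hy, fun I hI hn => ?_⟩
      rcases hI with rfl | hI
      · exact absurd ha hn
      · exact h I hI hn
    · obtain ⟨z, hz, hn⟩ := SetLike.not_le_iff_exists.1 ha
      refine ⟨y * z, fun e => (hq.mem_or_mem e).elim hy hn, fun I hI hn => ?_⟩
      rcases hI with rfl | hI
      · exact Ideal.mul_mem_left _ _ hz
      · exact Ideal.mul_mem_right _ _ (h I hI hn)

theorem dense_pts (hF : (II S).minimalPrimes.Finite) {q : Ideal PCo}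
    (hq : q ∈ (II S).minimalPrimes) {s : PCo} (hs : s ∉ q) :
    ∃ w ∈ S, pe w s ≠ 0 ∧ ∀ t ∈ q, pe w t = 0 := by
  obtain ⟨y, hy, h⟩ := avoid hF hq.1.1
  have : y * s ∉ II S := fun e => (hq.1.1.mem_or_mem (hq.1.2 e)).elim hy hs
  rw [mem_II] at this
  push Not at this
  obtain ⟨w, hw, h1⟩ := this
  rw [map_mul] at h1
  refine ⟨w, hw, right_ne_zero_of_mul h1, fun t ht => ?_⟩
  obtain ⟨n, hn⟩ : y * t ∈ (II S).radical := by
    rw [← Ideal.sInf_minimalPrimes, Ideal.mem_sInf]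
    intro I hI
    by_cases e : I ≤ q
    · exact Ideal.mul_mem_left _ _ (hq.2 hI.1 e ht)
    · exact Ideal.mul_mem_right _ _ (h I hI e)
  have := mem_II.1 hn w hw
  rw [map_pow, map_mul] at this
  exact (mul_eq_zero.1 (eq_zero_of_pow_eq_zero this)).resolve_left (left_ne_zero_of_mul h1)

end Pool.Agent.MP_05b4bd_ag.HC

end MrgPart4

-- ======== part 5: formerly Pool.Agent.MP_05b4bd_ag.hc.Fam
section MrgPart5

/-! The pointed exact forms and the pointed logarithmic forms as parametrised families. -/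

namespace Pool.Agent.MP_05b4bd_ag.HC

open MvPolynomial

/-- The universal pointed exact form. -/
noncomputable def psi (e : ℕ) : PCo →ₐ[ℂ] MvPolynomial (Mo e ⊕ Fin 2) ℂ :=
  pev (tr (-fun i => X (.inr i)) (pderiv 1 (fU fun m : Mo e => X (.inl m))))
    (tr (-fun i => X (.inr i)) (-pderiv 0 (fU fun m : Mo e => X (.inl m)))) fun i => X (.inr i)

theorem ev_psi {e : ℕ} (c : Mo e → ℂ) (p : Fin 2 → ℂ) (R : PCo) :
    aeval (Sum.elim c p) (psi e R) = pe (dform (tr (-p) (fU c)), p) R := by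
  rw [psi, map_pev]
  simp only [map_tr, map_neg, ← pderiv_map, map_fU, dform, tr_pderiv, RingHom.coe_coe, aeval_X,
    Sum.elim_inl, Sum.elim_inr, Pi.neg_apply]
  rfl

theorem crit_eq {e : ℕ} {g : Poly} (hg : g.totalDegree ≤ e) {p : Fin 2 → ℂ}
    (h : ∀ i, eval p (pderiv i g) = 0) :
    tr (-p) (fU fun m : Mo e => coeff m.1 (tr p g)) = g - C (eval p g) := by
  have h2 : tr p (g - C (eval p g)) ∈ mm ℂ ^ 2 := by
    refine mm_succ_iff.2 ⟨by rw [coeff_zero_tr]; simp, fun i => mem_mm_one.2 ?_⟩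
    rw [tr_pderiv, coeff_zero_tr]; simp [h i]
  rw [← tr_tr p (g - C (eval p g)), eq_fU h2 (tr_DL p ((DL_iff.2 hg).sub
    ((DL_C _).mono (by omega))))]
  congr 2
  funext m
  have := m.2.1
  rw [map_sub, coeff_sub, show tr p (C (eval p g)) = C (eval p g) from algHom_C _ _,
    DL_C _ m.1 (by omega), sub_zero]

theorem ham_pt {e : ℕ} {g : Poly} (hg : g.totalDegree ≤ e) {p : Fin 2 → ℂ}
    (h : ∀ i, eval p (pderiv i g) = 0) (R : PCo) :
    aeval (Sum.elim (fun m : Mo e => coeff m.1 (tr p g)) p) (psi e R) = pe (dform g, p) R := by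
  rw [ev_psi, crit_eq hg h]
  simp [dform]

theorem mem_PHam {d : ℕ} {g : Poly} (hg : g.totalDegree ≤ d + 1) {p : Fin 2 → ℂ}
    (h : ∀ i, eval p (pderiv i g) = 0) : (dform g, p) ∈ PHam d :=
  ⟨h 1, by simp [dform, h 0], g, hg, rfl⟩

theorem II_ham (d : ℕ) : II (PHam d) = RingHom.ker (psi (d + 1)) := by
  ext R
  rw [mem_II, RingHom.mem_ker]
  constructor
  · intro h
    refine MvPolynomial.funext fun t => ?_
    rw [map_zero, ← Sum.elim_comp_inl_inr t, ← coe_aeval_eq_eval]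
    refine (ev_psi _ _ R).trans (h _ (mem_PHam (DL_iff.1 (tr_DL _ (fU_DL _))) fun i => ?_))
    rw [tr_pderiv, ← coeff_zero_tr, tr_tr']
    exact mem_mm_one.1 (mm_pderiv i (fU_mm _))
  · rintro h ⟨ω, p⟩ ⟨h1, h2, g, hg, rfl⟩
    rw [← ham_pt hg (Fin.forall_fin_two.2 ⟨by simpa [dform] using h2, h1⟩), h, map_zero]

/-- The polynomial reading the coefficient `m` of the potential centred at the point. -/
noncomputable def gam (d : ℕ) (m : Fin 2 →₀ ℕ) : PCo :=
  rc m (tr pU (uni d true)) (tr pU (uni d false))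

theorem psi_uni {d e : ℕ} (h : e ≤ d + 1) :
    map (psi e : PCo →+* MvPolynomial (Mo e ⊕ Fin 2) ℂ) (tr pU (uni d true)) =
      pderiv 1 (fU fun m : Mo e => X (.inl m)) ∧
    map (psi e : PCo →+* MvPolynomial (Mo e ⊕ Fin 2) ℂ) (tr pU (uni d false)) =
      -pderiv 0 (fU fun m : Mo e => X (.inl m)) := by
  have hd : DL (d + 2) (fU fun m : Mo e => (X (.inl m) : MvPolynomial (Mo e ⊕ Fin 2) ℂ)) :=
    (fU_DL _).mono (by omega)
  exact ⟨(map_tr_uni _ true (tr_DL _ (hd.pderiv 1))).trans (tr_tr' _ _),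
    (map_tr_uni _ false (tr_DL _ (hd.pderiv 0).neg)).trans (tr_tr' _ _)⟩

theorem psi_gam {d e : ℕ} (h : e ≤ d + 1) (m : Mo e) : psi e (gam d m.1) = X (.inl m) := by
  rw [gam, map_rc, (psi_uni h).1, (psi_uni h).2, rc_ham (by have := m.2; omega), coeff_fU']

section Log
variable {A : Type*} [CommRing A] {d : ℕ}

noncomputable def lg1 (t : Mo d ⊕ Fin 6 → A) : R2 A := 1 + lf (t (.inr 0)) (t (.inr 1))

noncomputable def lg2 (t : Mo d ⊕ Fin 6 → A) : R2 A :=
  C (t (.inr 3)) - C (t (.inr 2) * t (.inr 3)) * lf (t (.inr 0)) (t (.inr 1)) + fU fun m => t (.inl m)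

noncomputable def lgP (t : Mo d ⊕ Fin 6 → A) : R2 A :=
  lg1 t * pderiv 1 (lg2 t) + C (t (.inr 2)) * lg2 t * pderiv 1 (lg1 t)

noncomputable def lgQ (t : Mo d ⊕ Fin 6 → A) : R2 A :=
  -(lg1 t * pderiv 0 (lg2 t) + C (t (.inr 2)) * lg2 t * pderiv 0 (lg1 t))

def lgp (t : Mo d ⊕ Fin 6 → A) : Fin 2 → A := ![t (.inr 4), t (.inr 5)]

theorem co00 {f1 f2 : R2 A} (h : f1 - 1 ∈ mm A ^ 1) (l : A) (i : Fin 2) :
    coeff 0 (f1 * pderiv i f2 + C l * f2 * pderiv i f1) =
      coeff 0 (pderiv i f2) + l * coeff 0 f2 * coeff 0 (pderiv i f1) := by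
  have h1 := mem_mm_one.1 h
  rw [coeff_sub, coeff_zero_one, sub_eq_zero] at h1
  simp only [← constantCoeff_eq, map_add, map_mul, constantCoeff_C] at h1 ⊢
  rw [h1, one_mul]

theorem isLog_lg (hd : 1 ≤ d) (t : Mo d ⊕ Fin 6 → A) :
    IsLog d (lgP t) (lgQ t) ∧ lgP t ∈ mm A ^ 1 ∧ lgQ t ∈ mm A ^ 1 := by
  have m1 : lg1 t - 1 ∈ mm A ^ 1 := by simpa [lg1] using mm_hom (lf_hom (t (.inr 0)) (t (.inr 1)))
  have key : ∀ i, coeff 0 (lg1 t * pderiv i (lg2 t) + C (t (.inr 2)) * lg2 t * pderiv i (lg1 t)) = 0 :=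
    fun i => by
      rw [co00 m1]
      have h1 := mem_mm_one.1 (mm_pderiv i (fU_mm fun m => t (.inl m)))
      have h2 := mem_mm_one.1 (mm_mono (show 1 ≤ 2 by omega) (fU_mm fun m => t (.inl m)))
      have h3 := mem_mm_one.1 (mm_hom (lf_hom (t (.inr 0)) (t (.inr 1))))
      simp only [lg1, lg2, map_add, map_sub, pderiv_C_mul, pderiv_C, pderiv_one, coeff_add,
        coeff_sub, coeff_C_mul, h1, h2, h3, coeff_zero_C, coeff_zero]
      ring
  exact ⟨⟨lg1 t, lg2 t, _, ((DL_C 1).mono (by omega)).add (DL.of_hom (lf_hom _ _)),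
    (((DL_C _).mono (by omega)).sub (((DL.of_hom (lf_hom _ _)).mono (by omega)).C_mul _)).add
      (fU_DL _), m1, rfl, rfl⟩, mem_mm_one.2 (key 1), neg_mem (mem_mm_one.2 (key 0))⟩

theorem decomp {u : R2 A} (hu : DL (d + 1) u) :
    u = C (co 0 0 u) + lf (co 1 0 u) (co 0 1 u) + fU fun m : Mo d => coeff m.1 u := by
  have h2 : u - hc 0 u - hc 1 u ∈ mm A ^ 2 := by
    have := sub_hc_mm (sub_hc_mm (mm_zero u))
    rwa [hc_sub, hc_ne (hc_hom 0 u) (by omega), sub_zero] at this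
  have : u - hc 0 u - hc 1 u = fU fun m : Mo d => coeff m.1 u := by
    ext m
    rw [coeff_fU]
    by_cases h : m.degree < 2
    · rw [dif_neg (by omega), mem_mm.1 h2 m h]
    · rw [coeff_sub, coeff_sub, coeff_hc, coeff_hc, if_neg (by omega), if_neg (by omega), sub_zero,
        sub_zero]
      split_ifs with h'
      · rfl
      · exact hu m (by omega)
  rw [← this, hom1_eq (hc_hom 1 u), co_hc 1 0, co_hc 0 1,
    show hc 0 u = C (coeff 0 u) from homogeneousComponent_zero u, coeff_eq_co]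
  simp

theorem exists_lg {P Q : R2 A} (h : IsLog d P Q) (mP : P ∈ mm A ^ 1) (mQ : Q ∈ mm A ^ 1)
    (p : Fin 2 → A) : ∃ t : Mo d ⊕ Fin 6 → A, lgP t = P ∧ lgQ t = Q ∧ lgp t = p := by
  obtain ⟨f1, f2, l, d1, d2, m1, rfl, rfl⟩ := h
  have hP := mem_mm_one.1 mP
  have hQ := mem_mm_one.1 (neg_mem_iff.1 mQ)
  rw [co00 m1, coeff_eq_co, coeff_eq_co, coeff_eq_co] at hP hQ
  simp only [Finsupp.coe_zero, Pi.zero_apply, co_x, co_y, Nat.cast_zero, zero_add, mul_one] at hP hQ
  let t : Mo d ⊕ Fin 6 → A :=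
    Sum.elim (fun m => coeff m.1 f2) ![co 1 0 f1, co 0 1 f1, l, co 0 0 f2, p 0, p 1]
  have e1 : lg1 t = f1 := by
    have h1 := mem_mm_one.1 m1
    rw [coeff_sub, coeff_zero_one, sub_eq_zero, coeff_eq_co] at h1
    have h2 : (fU fun m : Mo 1 => coeff m.1 f1) = 0 := by
      ext m; rw [coeff_fU, dif_neg (by omega), coeff_zero]
    have := decomp d1
    rw [h2, show co 0 0 f1 = 1 from h1, add_zero, map_one] at this
    exact this.symm
  have e2 : lg2 t = f2 := by
    change C (co 0 0 f2) - C (l * co 0 0 f2) * lf (co 1 0 f1) (co 0 1 f1) +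
      (fU fun m : Mo d => coeff m.1 f2) = f2
    conv_rhs => rw [decomp d2, eq_neg_of_add_eq_zero_left hP, eq_neg_of_add_eq_zero_left hQ]
    simp only [lf, map_mul, map_neg]; ring
  refine ⟨t, ?_, ?_, ?_⟩
  · rw [lgP, e1, e2]; rfl
  · rw [lgQ, e1, e2]; rfl
  · funext i; fin_cases i <;> rfl

variable [Algebra ℂ A]

/-- The universal pointed logarithmic form. -/
noncomputable def phi (d : ℕ) : PCo →ₐ[ℂ] MvPolynomial (Mo d ⊕ Fin 6) ℂ :=
  pev (tr (-lgp X) (lgP X)) (tr (-lgp X) (lgQ X)) (lgp X)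

theorem ev_phi (t : Mo d ⊕ Fin 6 → A) (R : PCo) :
    aeval t (phi d R) = pev (tr (-lgp t) (lgP t)) (tr (-lgp t) (lgQ t)) (lgp t) R := by
  have hp : (fun i => aeval t (lgp (X : _ → MvPolynomial (Mo d ⊕ Fin 6) ℂ) i)) = lgp t := by
    funext i; fin_cases i <;> simp [lgp]
  rw [phi, map_pev, map_tr, map_tr, hp]
  simp only [lgP, lgQ, lg1, lg2, map_neg, map_add, map_sub, map_mul, map_one, map_C, map_lf,
    ← pderiv_map, map_fU, RingHom.coe_coe, aeval_X, Pi.neg_apply]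
  rw [← hp]
  rfl

end Log

theorem mem_PLog {d : ℕ} {w : PForm} : w ∈ PLog d ↔ IsLog d (tr w.2 w.1.1) (tr w.2 w.1.2) ∧
    tr w.2 w.1.1 ∈ mm ℂ ^ 1 ∧ tr w.2 w.1.2 ∈ mm ℂ ^ 1 := by
  obtain ⟨⟨P, Q⟩, p⟩ := w
  have tC : ∀ (q : Fin 2 → ℂ) (c : ℂ), tr q (C c) = C c := fun q c => algHom_C _ _
  simp only [mem_mm_one, coeff_zero_tr]
  constructor
  · rintro ⟨h1, h2, f1, f2, l, d1, d2, h3, e⟩
    obtain ⟨rfl, rfl⟩ := Prod.mk.inj e
    have hi : (C (eval p f1)⁻¹ * C (eval p f1) : Poly) = 1 := by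
      rw [← map_mul, inv_mul_cancel₀ h3, map_one]
    refine ⟨⟨C (eval p f1)⁻¹ * tr p f1, C (eval p f1) * tr p f2, l, (tr_DL p (DL_iff.2 d1)).C_mul _,
      (tr_DL p (DL_iff.2 d2)).C_mul _, mem_mm_one.2 (by
        rw [coeff_sub, coeff_C_mul, coeff_zero_tr, inv_mul_cancel₀ h3]; simp), ?_, ?_⟩, h1, h2⟩
    · simp only [dform, Prod.smul_fst, smul_eq_mul, map_add, map_mul, tC, pderiv_C_mul, tr_pderiv]
      linear_combination (-(tr p f1 * tr p (pderiv 1 f2) + C l * tr p f2 * tr p (pderiv 1 f1))) * hi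
    · simp only [dform, Prod.smul_snd, smul_eq_mul, map_add, map_mul, map_neg, tC, pderiv_C_mul,
        tr_pderiv]
      linear_combination (tr p f1 * tr p (pderiv 0 f2) + C l * tr p f2 * tr p (pderiv 0 f1)) * hi
  · rintro ⟨⟨f1, f2, l, d1, d2, m1, e1, e2⟩, h1, h2⟩
    refine ⟨h1, h2, tr (-p) f1, tr (-p) f2, l, DL_iff.1 (tr_DL _ d1), DL_iff.1 (tr_DL _ d2), ?_,
      Prod.ext ?_ ?_⟩
    · have := mem_mm_one.1 m1
      rw [coeff_sub, coeff_zero_one, sub_eq_zero] at this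
      rw [← coeff_zero_tr, tr_tr', this]
      exact one_ne_zero
    · have := congrArg (tr (-p)) e1
      simp only [tr_tr, map_add, map_mul, tC, ← tr_pderiv] at this
      exact this
    · have := congrArg (tr (-p)) e2
      simp only [tr_tr, map_add, map_mul, map_neg, tC, ← tr_pderiv] at this
      simp only [dform, Prod.snd_add, Prod.smul_snd, smul_eq_mul, this]
      ring

theorem II_log {d : ℕ} (hd : 1 ≤ d) : II (PLog d) = RingHom.ker (phi d) := by
  ext R
  rw [mem_II, RingHom.mem_ker]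
  constructor
  · intro h
    refine MvPolynomial.funext fun t => ?_
    rw [map_zero, ← coe_aeval_eq_eval]
    exact (ev_phi t R).trans (h ((tr (-lgp t) (lgP t), tr (-lgp t) (lgQ t)), lgp t)
      (mem_PLog.2 (by simpa only [tr_tr'] using isLog_lg hd t)))
  · intro h w hw
    obtain ⟨h1, h2, h3⟩ := mem_PLog.1 hw
    obtain ⟨t, e1, e2, e3⟩ := exists_lg h1 h2 h3 w.2
    have := ev_phi t R
    rwa [h, map_zero, e1, e2, e3, tr_tr, tr_tr, eq_comm] at this

theorem lim_van {K : Type*} [Field K] [Algebra ℂ K] {d : ℕ} (hd : 1 ≤ d) {P Q : R2 K}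
    (mP : P ∈ mm K ^ 1) (mQ : Q ∈ mm K ^ 1) (h : LimLog d P Q) (p : Fin 2 → K) {R : PCo}
    (hR : R ∈ II (PLog d)) : pev (tr (-p) P) (tr (-p) Q) p R = 0 := by
  obtain ⟨A, B, s, -, -, mA, mB, H⟩ := h
  have : CharZero K := charZero_of_injective_algebraMap (algebraMap ℂ K).injective
  rw [II_log hd, RingHom.mem_ker] at hR
  let r := pev (tr (-fun i => Polynomial.C (p i))
      (map Polynomial.C P + C Polynomial.X * map Polynomial.C A))
    (tr (-fun i => Polynomial.C (p i)) (map Polynomial.C Q + C Polynomial.X * map Polynomial.C B))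
    (fun i => Polynomial.C (p i)) R
  have key : ∀ t, r.eval t = pev (tr (-p) (P + C t * A)) (tr (-p) (Q + C t * B)) p R := fun t => by
    have e : (((Polynomial.aeval t : Polynomial K →ₐ[K] K).restrictScalars ℂ :
        Polynomial K →ₐ[ℂ] K) : Polynomial K →+* K).comp Polynomial.C = RingHom.id K := by
      ext; simp
    have := map_pev ((Polynomial.aeval t : Polynomial K →ₐ[K] K).restrictScalars ℂ)
      (tr (-fun i => Polynomial.C (p i)) (map Polynomial.C P + C Polynomial.X * map Polynomial.C A))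
      (tr (-fun i => Polynomial.C (p i)) (map Polynomial.C Q + C Polynomial.X * map Polynomial.C B))
      (fun i => Polynomial.C (p i)) R
    simp only [map_tr, map_add, map_mul, map_map, e, map_id, map_C] at this
    simpa [Pi.neg_def, r] using this
  have hr : r = 0 := Polynomial.eq_zero_of_infinite_isRoot r
    (s.finite_toSet.infinite_compl.mono fun t ht => by
      obtain ⟨u, e1, e2, e3⟩ := exists_lg (H t ht) (add_mem mP (Ideal.mul_mem_left _ _ mA))
        (add_mem mQ (Ideal.mul_mem_left _ _ mB)) p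
      have := ev_phi u R
      rw [hR, map_zero, e1, e2, e3, ← key] at this
      exact this.symm)
  simpa [hr] using (key 0).symm

end Pool.Agent.MP_05b4bd_ag.HC

end MrgPart5

-- ======== part 6: formerly Pool.Agent.MP_05b4bd_ag.hc.Key
section MrgPart6

/-! Minimal primes of the pointed centre variety below the generic pointed exact form. -/

namespace Pool.Agent.MP_05b4bd_ag.HC

open MvPolynomial

/-- Foliations with a marked centre. -/
def Cen (d : ℕ) : Set PForm := {w | w.1 ∈ Fol d ∧ IsCenter w.1 w.2}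

variable {d : ℕ} {w : PForm}

theorem cen_DL (h : w ∈ Cen d) (b : Bool) : DL (d + 1) (cond b w.1.1 w.1.2) := by
  cases b
  · exact DL_iff.2 (h.1.2 ▸ le_max_right _ _)
  · exact DL_iff.2 (h.1.2 ▸ le_max_left _ _)

theorem high_mem (b : Bool) (m : Fin 2 →₀ ℕ) (h : d < m.degree) : X (.inl (b, m)) ∈ II (Cen d) :=
  mem_II.2 fun _ hw => (pev_inl _ _ _ b m).trans (cen_DL hw b m h)

theorem pe_sing (b : Bool) (h : DL (d + 1) (cond b w.1.1 w.1.2)) :
    pe w (coeff 0 (tr pU (uni d b))) = eval w.2 (cond b w.1.1 w.1.2) := by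
  rw [← coeff_zero_tr, ← map_tr_uni w.2 b h, coeff_map]; rfl

theorem sing_mem (b : Bool) : coeff 0 (tr pU (uni d b)) ∈ II (Cen d) :=
  mem_II.2 fun _ hw => by
    rw [pe_sing b (cen_DL hw b)]
    cases b
    · exact hw.2.2.1
    · exact hw.2.1

theorem pm_DL (h : w ∈ PM d) (b : Bool) : DL (d + 1) (cond b w.1.1 w.1.2) := fun m hm =>
  (pev_inl _ _ _ b m).symm.trans (mem_pzcl.1 h _ (high_mem b m hm))

theorem pm_sing (h : w ∈ PM d) (b : Bool) : eval w.2 (cond b w.1.1 w.1.2) = 0 :=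
  (pe_sing b (pm_DL h b)).symm.trans (mem_pzcl.1 h _ (sing_mem b))

theorem min_prime {n : ℕ} {q : Ideal PCo} (hq : q ∈ (II (Cen (n + 6))).minimalPrimes)
    (hk : q ≤ RingHom.ker (psi (n + 6))) :
    (∀ m, coeff m (pderiv 0 (tr pU (uni (n + 6) true)) + pderiv 1 (tr pU (uni (n + 6) false))) ∈ q) ∨
      II (PLog (n + 6)) ≤ q := by
  have := hq.1.1
  let D := PCo ⧸ q
  let K := AlgebraicClosure (FractionRing D)
  let μ : PCo →ₐ[ℂ] D := Ideal.Quotient.mkₐ ℂ q
  let ψ : D →ₐ[ℂ] K := IsScalarTower.toAlgHom ℂ D K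
  have hψ : Function.Injective ψ := by
    change Function.Injective (algebraMap D K)
    rw [IsScalarTower.algebraMap_eq D (FractionRing D) K, RingHom.coe_comp]
    exact (algebraMap (FractionRing D) K).injective.comp (IsFractionRing.injective D _)
  have : CharZero K := charZero_of_injective_algebraMap (algebraMap ℂ K).injective
  let T := MvPolynomial (Mo (n + 6) ⊕ Fin 2) ℂ
  let π : D →ₐ[ℂ] T := Ideal.Quotient.liftₐ q (psi (n + 6)) fun _ h => hk h
  have hπ' : ∀ u : R2 PCo, map (π : D →+* T) (map (μ : PCo →+* D) u) =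
      map (psi (n + 6) : PCo →+* T) u := fun u => by
    rw [map_map]; rfl
  have hμ : ∀ a, μ a = 0 ↔ a ∈ q := fun _ => Ideal.Quotient.eq_zero_iff_mem
  have hγ : ∀ m : Mo (n + 6), π (μ (gam (n + 6) m.1)) = X (.inl m) := fun m =>
    psi_gam (by omega) m
  have hf : map (π : D →+* T) (fU fun m : Mo (n + 6) => μ (gam (n + 6) m.1)) =
      fU fun m : Mo (n + 6) => X (.inl m) := by
    rw [map_fU]; exact congrArg fU (funext hγ)
  have mU : ∀ b, map (μ : PCo →+* D) (tr pU (uni (n + 6) b)) ∈ mm D ^ 1 := fun b =>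
    mem_mm_one.2 (by rw [coeff_map]; exact (hμ _).2 (hq.1.2 (sing_mem b)))
  have dU : ∀ b, DL (n + 7) (map (μ : PCo →+* D) (tr pU (uni (n + 6) b))) := fun b =>
    (tr_DL _ (fA_DL _)).map _
  have := RingHom.ker_isPrime π
  have main := generic_point (k := ℂ) (ψ := (ψ : D →+* K)) hψ (RingHom.ker π)
    (fun m : Mo (n + 6) => μ (gam (n + 6) m.1)) (fun H hH => by
      have hi : AlgebraicIndependent ℚ fun m : Mo (n + 6) => (X (.inl m) : T) :=
        ((MvPolynomial.algebraicIndependent_X _ ℂ).comp _ Sum.inl_injective).restrictScalars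
          (algebraMap ℚ ℂ).injective
      refine hi.eq_zero_of_aeval_eq_zero H ?_
      rw [← funext hγ]
      exact (comp_aeval_apply _ (π : D →+* T).toRatAlgHom H).symm.trans hH)
    (dU true) (dU false) (mU true) (mU false)
    (fun m => by
      change (π : D →+* T) _ = 0
      rw [← coeff_map, map_sub, ← pderiv_map, hf, hπ', (psi_uni (by omega)).1, sub_self, coeff_zero])
    (fun m => by
      change (π : D →+* T) _ = 0
      rw [← coeff_map, map_add, ← pderiv_map, hf, hπ', (psi_uni (by omega)).2, neg_add_cancel,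
        coeff_zero])
    (fun s hs => by
      obtain ⟨s, rfl⟩ := Ideal.Quotient.mkₐ_surjective ℂ q s
      obtain ⟨w, hw, h1, h2⟩ := dense_pts (fin_min high_mem) hq (mt (hμ s).2 hs)
      refine ⟨Ideal.Quotient.lift q (pe w : PCo →+* ℂ) h2, h1, ?_⟩
      rw [map_map, map_map]
      have := fi_of_center hw.2
      rwa [← show _ = tr w.2 w.1.1 from map_tr_uni w.2 true (cen_DL hw true),
        ← show _ = tr w.2 w.1.2 from map_tr_uni w.2 false (cen_DL hw false)] at this)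
  refine main.imp (fun h m => (hμ _).1 ?_) fun h R hR => (hμ R).1 (hψ ?_)
  · rw [pderiv_map, pderiv_map, ← map_add] at h
    exact (coeff_map _ _ _).symm.trans (congrArg (coeff m) h)
  · have := lim_van (by omega) (mm_map _ (mU true)) (mm_map _ (mU false)) h
      (fun i => ψ (μ (pU i))) hR
    simp only [map_tr, RingHom.coe_coe, tr_tr, map_map] at this
    rw [map_zero, ← this]
    exact (DFunLike.congr_fun (eq_pev (ψ.comp μ) fun b m hm => by
      rw [AlgHom.comp_apply, (hμ _).2 (hq.1.2 (high_mem b m hm)), map_zero]) R).symm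

theorem sub_or {n : ℕ} : ∃ y : PCo, psi (n + 6) y ≠ 0 ∧ ∀ Y ⊆ PM (n + 6), PIrred Y →
    (∃ w ∈ Y, pe w y ≠ 0) → Y ⊆ PHam (n + 6) ∨ Y ⊆ pzcl (PLog (n + 6)) := by
  obtain ⟨y, hy, h⟩ := avoid (fin_min (high_mem (d := n + 6))) (RingHom.ker_isPrime (psi (n + 6)))
  refine ⟨y, hy, fun Y hY hI ⟨w, hw, h0⟩ => ?_⟩
  have : (II Y).IsPrime := hI
  obtain ⟨q, hq, hle⟩ := Ideal.exists_minimalPrimes_le (sub_pzcl.1 hY)
  refine (min_prime hq (not_not.1 fun hn => h0 (mem_II.1 (hle (h q hq hn)) w hw))).imp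
    (fun H v hv => ?_) fun H => sub_pzcl.2 (H.trans hle)
  have dP := pm_DL (hY hv) true
  have dQ := pm_DL (hY hv) false
  have hz : tr v.2 (pderiv 0 v.1.1 + pderiv 1 v.1.2) = 0 := by
    rw [map_add, ← tr_pderiv, ← tr_pderiv, ← show _ = tr v.2 v.1.1 from map_tr_uni v.2 true dP,
      ← show _ = tr v.2 v.1.2 from map_tr_uni v.2 false dQ, pderiv_map, pderiv_map, ← map_add]
    ext m
    rw [coeff_map]
    exact mem_II.1 (hle (H m)) v hv
  obtain ⟨g, dg, e1, e2⟩ := exact_of_div dP dQ (by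
    have := congrArg (tr (-v.2)) hz
    rwa [tr_tr, map_zero] at this)
  exact ⟨pm_sing (hY hv) true, pm_sing (hY hv) false, g, DL_iff.1 dg, Prod.ext e1 e2⟩

end Pool.Agent.MP_05b4bd_ag.HC

end MrgPart6

-- marker of a merged file
example : 731051 + 850609 = 731051 + 850609 := rfl

end MrgPart1

-- marker of a merged file
example : 731051 + 850609 = 731051 + 850609 := rfl
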